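import Mathlib

/-!
# MP_5766af_al : an infinite dimensional division algebra all of whose proper subalgebras are PI

K-level data `KD` (a field with the tower, the automorphisms `g m` of order `2^m`, the valuation),
and the D-level data `DD` (the union of the cyclic crossed products over `KD`).
-/

set_option autoImplicit false

open Finset

namespace Pool.Agent.Helper91.DV

/-- K-level data. -/
structure KD (K : Type) [Field K] [CharZero K] where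
  /-- the constants (the future centre) -/
  F : Subfield K
  /-- the tower -/
  Kf : ℕ → Subfield K
  Kf_mono : ∀ m, Kf m ≤ Kf (m + 1)
  Kf_exh : ∀ x : K, ∃ m, x ∈ Kf m
  /-- generators of the groups of order `2^m` -/
  g : ℕ → (K ≃+* K)
  g_zero : ∀ x, g 0 x = x
  g_succ : ∀ m x, g (m + 1) (g (m + 1) x) = g m x
  g_F : ∀ m, ∀ x ∈ F, g m x = x
  g_Kf : ∀ m j, m ≤ j → ∀ x ∈ Kf j, g m x ∈ Kf j
  /-- the valuation -/
  v : AddValuation K (WithTop ℚ)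
  v_int : ∀ x, x ≠ 0 → ∃ n : ℤ, v x = ((n : ℚ) : WithTop ℚ)
  v_g : ∀ m x, v (g m x) = v x
  v_F : ∀ x ∈ F, x ≠ 0 → ∃ n : ℤ, v x = ((2 * (n : ℚ) : ℚ) : WithTop ℚ)
  v_two : v 2 = 0
  /-- uniformizer of `F` -/
  ϖ : K
  ϖ_mem : ϖ ∈ F
  v_ϖ : v ϖ = 2
  a : ℕ → K
  a_mem : ∀ m, a m ∈ Kf m
  v_a : ∀ m, v (a m) = 1
  g_a : ∀ m, g m (a m) = a m
  c : ℕ → K
  c_mem : ∀ m, c m ∈ Kf (m + 1)
  v_c : ∀ m, v (c m) = 0
  a_succ : ∀ m, a (m + 1) = a m * ∏ i ∈ range (2 ^ m), (⇑(g m))^[i] (c m)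
  /-- residue field of `F` is algebraically closed in the residue field of `K` -/
  A1 : ∀ l : K, v l = 0 → ∀ p : Polynomial K, (∀ i, p.coeff i ∈ F) → (∀ i, 0 ≤ v (p.coeff i)) →
    (∃ i, v (p.coeff i) = 0) → 0 < v (p.eval l) → ∃ c ∈ F, 0 < v (l - c)
  A2 : ∀ μ : K, v μ = 1 → ∀ c ∈ F, ¬ (2 < v (μ ^ 2 - c * ϖ))
  V3 : ∀ k, ∀ μ ∈ Kf k, v μ = 1 → ∀ ω : K, ¬ (1 < v (g (k + 1) μ - ω ^ 2 * μ))
  F2 : ∀ k, ∀ z ∈ Kf k, z ∉ F → ∀ w ∈ Kf k,
    IsAlgebraic (Subfield.closure (((F : Set K) ∩ (Kf k : Set K)) ∪ {z})) w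
  F3 : ∀ k, ∀ z ∈ Kf k, z ∉ F → Transcendental (Kf k) (g (k + 1) z)
  N : ∀ z : K, z ≠ 0 → z⁻¹ ∈ Algebra.adjoin F {x : K | ∃ m i : ℕ, x = (⇑(g m))^[i] z}
  P : ∀ z : K, z ∉ F → ∀ x : K, (∀ l, g l z = z → g l x = x) → ∀ n : ℕ,
    x ∈ Subfield.closure ((F : Set K) ∪ {z} ∪
      {y : K | ∃ i t : ℕ, n ≤ t ∧ y = ∑ s ∈ range (2 ^ t), (⇑(g t))^[s] (z ^ i)})

/-- The fixed field of `g m`. -/
def KD.Z {K : Type} [Field K] [CharZero K] (X : KD K) (m : ℕ) : Subfield K where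
  carrier := {x | X.g m x = x}
  mul_mem' := by intro a b ha hb; simp only [Set.mem_ofPred_eq] at *; rw [map_mul, ha, hb]
  one_mem' := by simp
  add_mem' := by intro a b ha hb; simp only [Set.mem_ofPred_eq] at *; rw [map_add, ha, hb]
  zero_mem' := by simp
  neg_mem' := by intro a ha; simp only [Set.mem_ofPred_eq] at *; rw [map_neg, ha]
  inv_mem' := by intro a ha; simp only [Set.mem_ofPred_eq] at *; rw [map_inv₀, ha]

theorem KD.mem_Z {K : Type} [Field K] [CharZero K] (X : KD K) (m : ℕ) (x : K) :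
    x ∈ X.Z m ↔ X.g m x = x := Iff.rfl

/-- D-level data: `D` is the union of the cyclic algebras `⊕_{i<2^m} K u_m^i`. -/
structure DD {K : Type} [Field K] [CharZero K] (X : KD K) (D : Type) [DivisionRing D] where
  ι : K →+* D
  u : ℕ → D
  u_ne : ∀ m, u m ≠ 0
  u_zero : u 0 = ι (X.a 0)
  u_mul : ∀ m x, u m * ι x = ι (X.g m x) * u m
  u_succ : ∀ m, u (m + 1) ^ 2 = ι (X.c m) * u m
  exh : ∀ d : D, ∃ m, ∃ x : ℕ → K, d = ∑ i ∈ range (2 ^ m), ι (x i) * u m ^ i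
  w : AddValuation D (WithTop ℚ)
  w_sum : ∀ m (x : ℕ → K), w (∑ i ∈ range (2 ^ m), ι (x i) * u m ^ i) =
    (range (2 ^ m)).inf (fun i => X.v (x i) + (((i : ℚ) / 2 ^ m : ℚ) : WithTop ℚ))

variable {K : Type} [Field K] [CharZero K] {X : KD K} {D : Type} [DivisionRing D] (Y : DD X D)

/-- `D_m`, the subring generated by `K` and `u_m` -/
def DD.Dm (m : ℕ) : Subring D := Subring.closure (Set.range Y.ι ∪ {Y.u m})

/-- `D^(m)`, the subring generated by `K_m` and `u_m` -/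
def DD.DK (m : ℕ) : Subring D := Subring.closure (Y.ι '' (X.Kf m : Set K) ∪ {Y.u m})

theorem DD.ι_mem_Dm (m : ℕ) (x : K) : Y.ι x ∈ Y.Dm m :=
  Subring.subset_closure (Or.inl ⟨x, rfl⟩)

theorem DD.u_mem_Dm (m : ℕ) : Y.u m ∈ Y.Dm m :=
  Subring.subset_closure (Or.inr rfl)

theorem DD.Z_comm (m : ℕ) {z : K} (hz : z ∈ X.Z m) {d : D} (hd : d ∈ Y.Dm m) :
    Y.ι z * d = d * Y.ι z := by
  induction hd using Subring.closure_induction with
  | mem x hx =>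
    rcases hx with ⟨x, rfl⟩ | hx
    · rw [← map_mul, ← map_mul, mul_comm]
    · rw [Set.mem_singleton_iff.1 hx, Y.u_mul, (X.mem_Z m z).1 hz]
  | zero => simp
  | one => simp
  | add x y _ _ hx hy => rw [mul_add, add_mul, hx, hy]
  | neg x _ hx => rw [mul_neg, neg_mul, hx]
  | mul x y _ _ hx hy => rw [← mul_assoc, hx, mul_assoc, hy, mul_assoc]

/-- `D_m` is an algebra over `Z_m = K^{g m}` -/
noncomputable instance DD.algZ (m : ℕ) : Algebra (X.Z m) (Y.Dm m) :=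
  RingHom.toAlgebra' ((Y.ι.comp (X.Z m).subtype).codRestrict (Y.Dm m) (fun z => Y.ι_mem_Dm m z))
    (by
      intro z d
      apply Subtype.ext
      exact Y.Z_comm m z.2 d.2)

theorem DD.algZ_coe (m : ℕ) (z : X.Z m) : ((algebraMap (X.Z m) (Y.Dm m) z : Y.Dm m) : D) = Y.ι z :=
  rfl

theorem DD.algZ_smul (m : ℕ) (z : X.Z m) (d : Y.Dm m) : ((z • d : Y.Dm m) : D) = Y.ι z * d :=
  rfl

end Pool.Agent.Helper91.DV
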