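import Mathlib

/-!
# MP_5766af_al, module B0: limits of sequences of division rings
-/

set_option autoImplicit false

namespace Pool.Agent.Helper91.DV

namespace B0

section
variable {A : ℕ → Type} [∀ m, DivisionRing (A m)] (φ : ∀ m, A m →+* A (m + 1))

/-- transition maps -/
noncomputable def tr (i j : ℕ) (h : i ≤ j) : A i →+* A j :=
  Nat.leRecOn (C := fun k => A i →+* A k) h (fun {k} f => (φ k).comp f) (RingHom.id (A i))

theorem tr_self (i : ℕ) (h : i ≤ i) : tr φ i i h = RingHom.id (A i) :=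
  Nat.leRecOn_self _

theorem tr_succ (i j : ℕ) (h : i ≤ j) (h' : i ≤ j + 1) :
    tr φ i (j + 1) h' = (φ j).comp (tr φ i j h) :=
  Nat.leRecOn_succ h (h2 := h') _

theorem tr_tr (i j k : ℕ) (hij : i ≤ j) (hjk : j ≤ k) (x : A i) :
    tr φ j k hjk (tr φ i j hij x) = tr φ i k (hij.trans hjk) x := by
  induction k, hjk using Nat.le_induction with
  | base => rw [tr_self]; rfl
  | succ k hjk ih =>
    rw [tr_succ φ j k hjk, tr_succ φ i k (hij.trans hjk), RingHom.comp_apply, RingHom.comp_apply, ih]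

instance dirSys : DirectedSystem A (fun i j h => tr φ i j h) where
  map_self i x := by rw [tr_self]; rfl
  map_map k j i hij hjk x := tr_tr φ _ _ _ _ _ x

end

end B0

open B0 in
/-- B0 : limits of sequences of division rings -/
theorem lim_divisionRing (A : ℕ → Type) [∀ m, DivisionRing (A m)] (φ : ∀ m, A m →+* A (m + 1)) :
    ∃ (L : Type) (_ : DivisionRing L) (j : ∀ m, A m →+* L),
      (∀ m x, j (m + 1) (φ m x) = j m x) ∧ (∀ x : L, ∃ m y, x = j m y) := by
  refine ⟨DirectLimit A (fun i j h => tr φ i j h), inferInstance, fun m =>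
    { toFun := fun x => ⟦⟨m, x⟩⟧
      map_one' := (DirectLimit.one_def m).symm
      map_mul' := fun x y => (DirectLimit.mul_def m x y).symm
      map_zero' := (DirectLimit.zero_def m).symm
      map_add' := fun x y => (DirectLimit.add_def m x y).symm }, ?_, ?_⟩
  · intro m x
    have h := DirectLimit.eq_of_le (f := fun i j h => tr φ i j h) ⟨m, x⟩ (m + 1) (Nat.le_succ m)
    have h2 : tr φ m (m + 1) (Nat.le_succ m) x = φ m x := by
      rw [tr_succ φ m m le_rfl, tr_self]; rfl
    change (⟦⟨m + 1, φ m x⟩⟧ : DirectLimit A (fun i j h => tr φ i j h)) = ⟦⟨m, x⟩⟧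
    rw [h]
    simp only [h2]
  · intro x
    obtain ⟨m, y, h⟩ := DirectLimit.exists_eq_mk _ x
    exact ⟨m, y, h⟩

/-- B0' : functions on the limit -/
theorem lim_lift {A : ℕ → Type} [∀ m, DivisionRing (A m)] (φ : ∀ m, A m →+* A (m + 1))
    {L : Type} [DivisionRing L] (j : ∀ m, A m →+* L) (hj : ∀ m x, j (m + 1) (φ m x) = j m x)
    (hex : ∀ x : L, ∃ m y, x = j m y) {T : Type*} (h : ∀ m, A m → T)
    (hh : ∀ m x, h (m + 1) (φ m x) = h m x) : ∃ H : L → T, ∀ m x, H (j m x) = h m x := by
  classical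
  -- transition by `n` steps
  have key : ∀ (m k : ℕ) (hmk : m ≤ k) (x : A m), j k (B0.tr φ m k hmk x) = j m x ∧
      h k (B0.tr φ m k hmk x) = h m x := by
    intro m k hmk x
    induction k, hmk using Nat.le_induction with
    | base => rw [B0.tr_self]; exact ⟨rfl, rfl⟩
    | succ k hmk ih =>
      rw [B0.tr_succ φ m k hmk, RingHom.comp_apply, hj, hh]
      exact ih
  choose M Yy hY using hex
  refine ⟨fun x => h (M x) (Yy x), ?_⟩
  intro m x
  set k := max m (M (j m x)) with hk
  have h1 := key m k (le_max_left _ _) x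
  have h2 := key (M (j m x)) k (le_max_right _ _) (Yy (j m x))
  change h (M (j m x)) (Yy (j m x)) = h m x
  rw [← h1.2, ← h2.2]
  congr 1
  apply (j k).injective
  rw [h1.1, h2.1, ← hY]

end Pool.Agent.Helper91.DV
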