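import Pool.Agent.Helper91.DV.Defs

set_option autoImplicit false
open Finset
namespace Pool.Agent.Helper91.DV

/-- B1 : cyclic algebras -/
structure Cyc (K : Type) [Field K] (n : ℕ) (σ : K ≃+* K) (a : K) (v : AddValuation K (WithTop ℚ))
    (C : Type) [DivisionRing C] where
  ι : K →+* C
  u : C
  u_mul : ∀ x, u * ι x = ι (σ x) * u
  u_pow : u ^ n = ι a
  exh : ∀ d : C, ∃ x : ℕ → K, d = ∑ i ∈ range n, ι (x i) * u ^ i
  w : AddValuation C (WithTop ℚ)
  w_sum : ∀ (x : ℕ → K), w (∑ i ∈ range n, ι (x i) * u ^ i) =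
    (range n).inf (fun i => v (x i) + (((i : ℚ) / n : ℚ) : WithTop ℚ))

namespace CycAux

section gen

variable {K : Type} [Field K]

/-- coefficients of `u * ∑ x_i u^i` -/
def shift (n : ℕ) (σ : K ≃+* K) (a : K) (x : ℕ → K) : ℕ → K :=
  fun i => if i = 0 then a * σ (x (n - 1)) else σ (x (i - 1))

/-- coefficients of the product -/
def cmul (n : ℕ) (σ : K ≃+* K) (a : K) (x y : ℕ → K) : ℕ → K :=
  fun k => ∑ i ∈ range n, x i * ((shift n σ a)^[i] y) k

/-- the element with coefficients `x` -/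
def ev {B : Type} [Ring B] (n : ℕ) (φ : K →+* B) (b : B) (x : ℕ → K) : B :=
  ∑ i ∈ range n, φ (x i) * b ^ i

variable {B : Type} [Ring B] {n : ℕ} {σ : K ≃+* K} {a : K} {φ : K →+* B} {b : B}

theorem ev_congr {x y : ℕ → K} (h : ∀ i < n, x i = y i) : ev n φ b x = ev n φ b y := by
  unfold ev
  exact sum_congr rfl (fun i hi => by rw [h i (mem_range.1 hi)])

theorem ev_zero : ev n φ b (fun _ => 0) = 0 := by
  unfold ev
  simp

theorem ev_add (x y : ℕ → K) : ev n φ b (fun i => x i + y i) = ev n φ b x + ev n φ b y := by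
  unfold ev
  rw [← sum_add_distrib]
  exact sum_congr rfl (fun i _ => by rw [map_add, add_mul])

theorem ev_neg (x : ℕ → K) : ev n φ b (fun i => - x i) = - ev n φ b x := by
  unfold ev
  rw [← sum_neg_distrib]
  exact sum_congr rfl (fun i _ => by rw [map_neg, neg_mul])

theorem ev_sub (x y : ℕ → K) : ev n φ b (fun i => x i - y i) = ev n φ b x - ev n φ b y := by
  unfold ev
  rw [← sum_sub_distrib]
  exact sum_congr rfl (fun i _ => by rw [map_sub, sub_mul])

theorem ev_sum {ι' : Type} (s : Finset ι') (x : ι' → ℕ → K) :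
    ev n φ b (fun i => ∑ t ∈ s, x t i) = ∑ t ∈ s, ev n φ b (x t) := by
  unfold ev
  rw [sum_comm]
  exact sum_congr rfl (fun i _ => by rw [map_sum, sum_mul])

theorem ev_smul (c : K) (x : ℕ → K) : φ c * ev n φ b x = ev n φ b (fun i => c * x i) := by
  unfold ev
  rw [mul_sum]
  exact sum_congr rfl (fun i _ => by rw [map_mul, mul_assoc])

theorem ev_single (hn : 0 < n) (c : K) :
    ev n φ b (fun i => if i = 0 then c else 0) = φ c := by
  unfold ev
  rw [sum_eq_single 0]
  · simp
  · intro i _ hi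
    simp [hi]
  · intro h
    exact absurd (mem_range.2 hn) h

theorem ev_mono (c : K) (i : ℕ) (hi : i < n) :
    ev n φ b (fun j => if j = i then c else 0) = φ c * b ^ i := by
  unfold ev
  rw [sum_eq_single i]
  · simp
  · intro j _ hj
    simp [hj]
  · intro h
    exact absurd (mem_range.2 hi) h

theorem b_mul_ev (hn : 0 < n) (hb : ∀ x, b * φ x = φ (σ x) * b) (hbn : b ^ n = φ a) (x : ℕ → K) :
    b * ev n φ b x = ev n φ b (shift n σ a x) := by
  obtain ⟨m, rfl⟩ : ∃ m, n = m + 1 := ⟨n - 1, by omega⟩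
  unfold ev
  rw [mul_sum, sum_range_succ, sum_range_succ' (fun i => φ (shift (m + 1) σ a x i) * b ^ i)]
  congr 1
  · refine sum_congr rfl (fun i _ => ?_)
    rw [← mul_assoc, hb, mul_assoc, ← pow_succ']
    simp [shift]
  · rw [← mul_assoc, hb, mul_assoc, ← pow_succ', hbn]
    rw [← map_mul, mul_comm]
    simp [shift]

theorem pow_mul_ev (hn : 0 < n) (hb : ∀ x, b * φ x = φ (σ x) * b) (hbn : b ^ n = φ a)
    (k : ℕ) (x : ℕ → K) :
    b ^ k * ev n φ b x = ev n φ b ((shift n σ a)^[k] x) := by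
  induction k with
  | zero => simp
  | succ k ih => rw [pow_succ', mul_assoc, ih, b_mul_ev hn hb hbn, Function.iterate_succ_apply']

theorem ev_mul_ev (hn : 0 < n) (hb : ∀ x, b * φ x = φ (σ x) * b) (hbn : b ^ n = φ a)
    (x y : ℕ → K) : ev n φ b x * ev n φ b y = ev n φ b (cmul n σ a x y) := by
  unfold cmul
  rw [ev_sum (range n) (fun i k => x i * ((shift n σ a)^[i] y) k)]
  conv_lhs => unfold ev
  rw [sum_mul]
  refine sum_congr rfl (fun i _ => ?_)
  rw [← ev_smul, ← pow_mul_ev hn hb hbn, mul_assoc]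
  rfl

end gen

section model

variable {K : Type} [Field K]

theorem shift_congr {n : ℕ} (hn : 0 < n) {σ : K ≃+* K} {a : K} {x y : ℕ → K}
    (h : ∀ i < n, x i = y i) : ∀ i < n, shift n σ a x i = shift n σ a y i := by
  intro i hi
  unfold shift
  split_ifs with h0
  · rw [h (n - 1) (by omega)]
  · rw [h (i - 1) (by omega)]

theorem shift_iter {n : ℕ} {σ : K ≃+* K} {a : K} (ha : σ a = a) (x : ℕ → K) :
    ∀ k, k ≤ n → ∀ i < n, ((shift n σ a)^[k] x) i =
      if i < k then a * (⇑σ)^[k] (x (n + i - k)) else (⇑σ)^[k] (x (i - k)) := by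
  intro k
  induction k with
  | zero => intro _ i _; simp
  | succ k ih =>
    intro hk i hi
    rw [Function.iterate_succ_apply']
    unfold shift
    rcases Nat.eq_zero_or_pos i with h0 | h0
    · subst h0
      have h1 := ih (by omega) (n - 1) (by omega)
      unfold shift at h1
      rw [if_pos rfl, h1, if_neg (by omega), if_pos (by omega), Function.iterate_succ_apply']
      congr 4
      omega
    · have h1 := ih (by omega) (i - 1) (by omega)
      unfold shift at h1
      rw [if_neg (by omega), h1]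
      by_cases h2 : i < k + 1
      · rw [if_pos (by omega), if_pos h2, map_mul, ha, Function.iterate_succ_apply']
        congr 4
        omega
      · rw [if_neg (by omega), if_neg h2, Function.iterate_succ_apply']
        congr 3
        omega

/-- extension by zero -/
def ext0 {n : ℕ} (y : Fin n → K) : ℕ → K := fun i => if h : i < n then y ⟨i, h⟩ else 0

theorem ext0_lt {n : ℕ} (y : Fin n → K) (i : ℕ) (h : i < n) : ext0 y i = y ⟨i, h⟩ := by
  unfold ext0
  rw [dif_pos h]

theorem ext0_fin {n : ℕ} (y : Fin n → K) (i : Fin n) : ext0 y i = y i := ext0_lt y i i.2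

/-- the operator `u` on the regular module -/
def bV (n : ℕ) (σ : K ≃+* K) (a : K) : AddMonoid.End (Fin n → K) where
  toFun y := fun i => shift n σ a (ext0 y) i
  map_zero' := by
    funext i
    simp only [shift, ext0, Pi.zero_apply]
    split_ifs <;> simp
  map_add' y z := by
    funext i
    simp only [shift, ext0, Pi.add_apply]
    split_ifs <;> simp [mul_add]

theorem bV_pow_apply {n : ℕ} (hn : 0 < n) (σ : K ≃+* K) (a : K) (y : Fin n → K) (k : ℕ) :
    ∀ i : Fin n, ((bV n σ a) ^ k) y i = ((shift n σ a)^[k] (ext0 y)) i := by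
  induction k with
  | zero => intro i; simp [ext0_fin]
  | succ k ih =>
    intro i
    rw [pow_succ', Function.iterate_succ_apply']
    show shift n σ a (ext0 (((bV n σ a) ^ k) y)) i = _
    apply shift_congr hn _ i i.2
    intro j hj
    rw [ext0_lt _ j hj, ih ⟨j, hj⟩]

theorem exists_pre (n : ℕ) (hn : 0 < n) (σ : K ≃+* K) (a : K)
    (hσ : ∀ x, (⇑σ)^[n] x = x) (ha : σ a = a) :
    ∃ (C : Type) (_ : Ring C) (ι : K →+* C) (u : C), (∀ x, u * ι x = ι (σ x) * u) ∧
      u ^ n = ι a ∧ (∀ d : C, ∃ x : ℕ → K, d = ev n ι u x) ∧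
      (∀ x y : ℕ → K, ev n ι u x = ev n ι u y → ∀ i < n, x i = y i) := by
  obtain ⟨φ, hφ⟩ : ∃ φ : K →+* AddMonoid.End (Fin n → K), ∀ c y i, φ c y i = c * y i :=
    ⟨Module.toAddMonoidEnd K (Fin n → K), fun c y i => rfl⟩
  obtain ⟨b, hbd⟩ : ∃ b, b = bV n σ a := ⟨_, rfl⟩
  have hb : ∀ x, b * φ x = φ (σ x) * b := by
    intro x
    refine DFunLike.ext _ _ (fun y => ?_)
    funext i
    show b (φ x y) i = φ (σ x) (b y) i
    rw [hφ, hbd]
    show shift n σ a (ext0 (φ x y)) i = σ x * shift n σ a (ext0 y) i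
    have he : ∀ j, ext0 (φ x y) j = x * ext0 y j := by
      intro j
      unfold ext0
      split_ifs
      · rw [hφ]
      · simp
    unfold shift
    split_ifs
    · rw [he, map_mul]; ring
    · rw [he, map_mul]
  have hbn : b ^ n = φ a := by
    refine DFunLike.ext _ _ (fun y => ?_)
    funext i
    rw [hφ, hbd, bV_pow_apply hn, shift_iter ha _ n le_rfl i i.2, if_pos i.2, hσ,
      Nat.add_sub_cancel_left, ext0_fin]
  -- the subring
  let C : Subring (AddMonoid.End (Fin n → K)) :=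
    { carrier := {f | ∃ x : ℕ → K, f = ev n φ b x}
      mul_mem' := by
        rintro _ _ ⟨x, rfl⟩ ⟨y, rfl⟩
        exact ⟨_, ev_mul_ev hn hb hbn x y⟩
      one_mem' := ⟨_, by rw [ev_single hn (1 : K), map_one]⟩
      add_mem' := by
        rintro _ _ ⟨x, rfl⟩ ⟨y, rfl⟩
        exact ⟨_, (ev_add x y).symm⟩
      zero_mem' := ⟨_, ev_zero.symm⟩
      neg_mem' := by
        rintro _ ⟨x, rfl⟩
        exact ⟨_, (ev_neg x).symm⟩ }
  have hφC : ∀ c, φ c ∈ C := fun c => ⟨_, (ev_single hn c).symm⟩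
  have hbC : b ∈ C := ⟨shift n σ a (fun i => if i = 0 then (1 : K) else 0), by
    rw [← b_mul_ev hn hb hbn, ev_single hn, map_one, mul_one]⟩
  refine ⟨C, inferInstance, φ.codRestrict C hφC, ⟨b, hbC⟩, ?_, ?_, ?_, ?_⟩
  · intro x
    apply Subtype.ext
    exact hb x
  · apply Subtype.ext
    exact hbn
  · rintro ⟨d, x, rfl⟩
    refine ⟨x, ?_⟩
    apply Subtype.ext
    unfold ev
    push_cast
    rfl
  · intro x y hxy i hi
    have h1 : ev n φ b x = ev n φ b y := by
      have := congrArg (fun c : C => (c : AddMonoid.End (Fin n → K))) hxy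
      simp only [ev] at this
      push_cast at this
      exact this
    -- evaluate at the vector `e_0`
    have key : ∀ z : ℕ → K, ∀ i : Fin n,
        ev n φ b z (fun j : Fin n => if (j : ℕ) = 0 then (1 : K) else 0) i = z i := by
      intro z i
      have hsum : ∀ e : Fin n → K, ev n φ b z e i =
          ∑ j ∈ range n, z j * (b ^ j) e i := by
        intro e
        have h5 := map_sum (⟨⟨fun f : AddMonoid.End (Fin n → K) => f e i, rfl⟩, fun _ _ => rfl⟩ :
          AddMonoid.End (Fin n → K) →+ K) (fun j => φ (z j) * b ^ j) (range n)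
        refine h5.trans (sum_congr rfl (fun j _ => ?_))
        exact hφ (z j) ((b ^ j) e) i
      rw [hsum, sum_eq_single (i : ℕ)]
      · rw [hbd, bV_pow_apply hn, shift_iter ha _ _ i.2.le _ i.2,
          if_neg (lt_irrefl _), Nat.sub_self, ext0_lt _ 0 hn]
        simp
      · intro j hj hji
        rw [hbd, bV_pow_apply hn,
          shift_iter ha _ _ (mem_range.1 hj).le _ i.2]
        have hj' := mem_range.1 hj
        have hz : ∀ t : ℕ, t ≠ 0 → ext0 (fun j : Fin n => if (j : ℕ) = 0 then (1 : K) else 0) t = 0 := by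
          intro t ht
          unfold ext0
          split_ifs <;> simp_all
        have hi2 := i.2
        split_ifs with h
        · rw [hz _ (by omega)]
          simp
        · rw [hz _ (by omega)]
          simp
      · intro h
        exact absurd (mem_range.2 i.2) h
    have h2 := key x ⟨i, hi⟩
    have h3 := key y ⟨i, hi⟩
    rw [h1] at h2
    exact h2.symm.trans h3

end model

section valued

variable {K : Type} [Field K] {n : ℕ} {σ : K ≃+* K} {a : K} {v : AddValuation K (WithTop ℚ)}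

/-- weight of a coefficient sequence -/
noncomputable def wt (n : ℕ) (v : AddValuation K (WithTop ℚ)) (x : ℕ → K) : WithTop ℚ :=
  (range n).inf (fun i => v (x i) + (((i : ℚ) / n : ℚ) : WithTop ℚ))

theorem wt_congr {x y : ℕ → K} (h : ∀ i < n, x i = y i) : wt n v x = wt n v y :=
  inf_congr rfl (fun i hi => by rw [h i (mem_range.1 hi)])

theorem wt_le (x : ℕ → K) {i : ℕ} (hi : i < n) :
    wt n v x ≤ v (x i) + (((i : ℚ) / n : ℚ) : WithTop ℚ) :=
  inf_le (f := fun i => v (x i) + (((i : ℚ) / n : ℚ) : WithTop ℚ)) (mem_range.2 hi)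

theorem wt_attained (hn : 0 < n) (x : ℕ → K) :
    ∃ i < n, wt n v x = v (x i) + (((i : ℚ) / n : ℚ) : WithTop ℚ) := by
  obtain ⟨i, hi, h⟩ := exists_mem_eq_inf (range n) ⟨0, mem_range.2 hn⟩
    (fun i => v (x i) + (((i : ℚ) / n : ℚ) : WithTop ℚ))
  exact ⟨i, mem_range.1 hi, h⟩

theorem wt_top (x : ℕ → K) : wt n v x = ⊤ ↔ ∀ i < n, x i = 0 := by
  constructor
  · intro h i hi
    have h1 := wt_le (v := v) x hi
    rw [h, top_le_iff, WithTop.add_eq_top] at h1
    rcases h1 with h1 | h1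
    · exact v.top_iff.1 h1
    · exact absurd h1 WithTop.coe_ne_top
  · intro h
    unfold wt
    rw [Finset.inf_eq_top_iff]
    intro i hi
    rw [h i (mem_range.1 hi), v.map_zero, top_add]

theorem wt_add (x y : ℕ → K) : min (wt n v x) (wt n v y) ≤ wt n v (fun i => x i + y i) := by
  unfold wt
  apply Finset.le_inf
  intro i hi
  have h1 := v.map_add (x i) (y i)
  show _ ≤ v (x i + y i) + _
  rcases min_le_iff.1 h1 with h | h
  · exact (min_le_left _ _).trans ((inf_le hi).trans (by gcongr))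
  · exact (min_le_right _ _).trans ((inf_le hi).trans (by gcongr))

theorem wt_smul (hn : 0 < n) (c : K) (x : ℕ → K) :
    wt n v (fun i => c * x i) = v c + wt n v x := by
  apply le_antisymm
  · obtain ⟨i, hi, h⟩ := wt_attained (v := v) hn x
    rw [h, ← add_assoc, ← v.map_mul]
    exact wt_le (fun i => c * x i) hi
  · obtain ⟨i, hi, h⟩ := wt_attained (v := v) hn (fun i => c * x i)
    rw [h, v.map_mul, add_assoc]
    gcongr
    exact wt_le x hi

theorem wt_neg (x : ℕ → K) : wt n v (fun i => - x i) = wt n v x :=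
  inf_congr rfl (fun i _ => by rw [v.map_neg])

theorem wt_shift (hn : 0 < n) (v_σ : ∀ x, v (σ x) = v x) (v_a : v a = 1) (x : ℕ → K) :
    wt n v (shift n σ a x) = (((1 : ℚ) / n : ℚ) : WithTop ℚ) + wt n v x := by
  have hn' : (n : ℚ) ≠ 0 := by exact_mod_cast hn.ne'
  have h0 : v (shift n σ a x 0) + (((0 : ℕ) : ℚ) / n : ℚ) =
      (((1 : ℚ) / n : ℚ) : WithTop ℚ) + (v (x (n - 1)) + ((((n - 1 : ℕ) : ℚ) / n : ℚ) : WithTop ℚ)) := by
    have e1 : shift n σ a x 0 = a * σ (x (n - 1)) := by simp [shift]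
    rw [e1, v.map_mul, v_a, v_σ, add_left_comm, ← WithTop.coe_add, add_assoc]
    have e2 : (1 : ℚ) / n + ((n - 1 : ℕ) : ℚ) / n = 1 := by
      rw [Nat.cast_sub hn]
      field_simp
      push_cast
      ring
    rw [e2]
    simp [add_comm]
  have h1 : ∀ i, v (shift n σ a x (i + 1)) + ((((i + 1 : ℕ) : ℚ) / n : ℚ) : WithTop ℚ) =
      (((1 : ℚ) / n : ℚ) : WithTop ℚ) + (v (x i) + (((i : ℚ) / n : ℚ) : WithTop ℚ)) := by
    intro i
    have e1 : shift n σ a x (i + 1) = σ (x i) := by simp [shift]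
    rw [e1, v_σ, add_left_comm, ← WithTop.coe_add]
    congr 2
    push_cast
    ring
  apply le_antisymm
  · obtain ⟨i, hi, h⟩ := wt_attained (v := v) hn x
    rw [h]
    rcases Nat.lt_or_ge (i + 1) n with h2 | h2
    · rw [← h1 i]
      exact wt_le _ h2
    · have h3 : i = n - 1 := by omega
      subst h3
      rw [← h0]
      exact wt_le _ hn
  · obtain ⟨i, hi, h⟩ := wt_attained (v := v) hn (shift n σ a x)
    rw [h]
    rcases i with _ | i
    · rw [h0]
      gcongr
      exact wt_le _ (by omega)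
    · rw [h1 i]
      gcongr
      exact wt_le _ (by omega)

theorem wt_iter (hn : 0 < n) (v_σ : ∀ x, v (σ x) = v x) (v_a : v a = 1) (x : ℕ → K) (k : ℕ) :
    wt n v ((shift n σ a)^[k] x) = (((k : ℚ) / n : ℚ) : WithTop ℚ) + wt n v x := by
  induction k with
  | zero => simp
  | succ k ih =>
    rw [Function.iterate_succ_apply', wt_shift hn v_σ v_a, ih, ← add_assoc, ← WithTop.coe_add]
    congr 2
    push_cast
    ring

/-- distinct terms have distinct values -/
theorem term_inj (v_int : ∀ x, x ≠ 0 → ∃ n : ℤ, v x = ((n : ℚ) : WithTop ℚ)) (hn : 0 < n)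
    {x y : K} (hx : x ≠ 0) {i j : ℕ} (hi : i < n) (hj : j < n)
    (h : v x + (((i : ℚ) / n : ℚ) : WithTop ℚ) = v y + (((j : ℚ) / n : ℚ) : WithTop ℚ)) : i = j := by
  obtain ⟨s, hs⟩ := v_int x hx
  have hy : y ≠ 0 := by
    rintro rfl
    rw [v.map_zero, top_add, hs, ← WithTop.coe_add] at h
    exact WithTop.coe_ne_top h
  obtain ⟨t, ht⟩ := v_int y hy
  rw [hs, ht, ← WithTop.coe_add, ← WithTop.coe_add, WithTop.coe_inj] at h
  have hn' : (n : ℚ) ≠ 0 := by exact_mod_cast hn.ne'
  have h2 : ((s * n + i : ℤ) : ℚ) = ((t * n + j : ℤ) : ℚ) := by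
    push_cast
    field_simp at h
    linarith
  have h3 : s * n + i = t * n + j := by exact_mod_cast h2
  have h4 : (s - t) * n = (j : ℤ) - i := by linarith
  have h5 : |(j : ℤ) - i| < n := by
    rw [abs_lt]
    constructor <;> omega
  rcases eq_or_ne (s - t) 0 with h6 | h6
  · rw [h6] at h4
    omega
  · have h7 : (1 : ℤ) ≤ |s - t| := Int.one_le_abs h6
    rw [← h4, abs_mul, Nat.abs_cast] at h5
    nlinarith [h5, h7]

theorem wt_lead (v_int : ∀ x, x ≠ 0 → ∃ n : ℤ, v x = ((n : ℚ) : WithTop ℚ)) (hn : 0 < n)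
    (x : ℕ → K) (hx : wt n v x ≠ ⊤) :
    ∃ i < n, x i ≠ 0 ∧ wt n v x = v (x i) + (((i : ℚ) / n : ℚ) : WithTop ℚ) ∧
      wt n v x < wt n v (fun j => x j - if j = i then x i else 0) := by
  obtain ⟨i, hi, h⟩ := wt_attained (v := v) hn x
  have hxi : x i ≠ 0 := by
    intro h0
    rw [h0, v.map_zero, top_add] at h
    exact hx h
  refine ⟨i, hi, hxi, h, ?_⟩
  conv_rhs => unfold wt
  rw [Finset.lt_inf_iff (lt_top_iff_ne_top.2 hx)]
  intro j hj
  have hj' := mem_range.1 hj
  show wt n v x < v (x j - if j = i then x i else 0) + _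
  by_cases hji : j = i
  · subst hji
    rw [if_pos rfl, sub_self, v.map_zero, top_add]
    exact lt_top_iff_ne_top.2 hx
  · rw [if_neg hji, sub_zero]
    refine lt_of_le_of_ne (wt_le x hj') ?_
    rw [h]
    intro h2
    exact hji (term_inj v_int hn hxi hi hj' h2).symm

end valued

section build

variable {K : Type} [Field K] {n : ℕ} {σ : K ≃+* K} {a : K} {v : AddValuation K (WithTop ℚ)}
  {C : Type} [Ring C] {ι : K →+* C} {u : C}

/-- the facts about `C` before division is known -/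
structure Pre (n : ℕ) (σ : K ≃+* K) (a : K) (v : AddValuation K (WithTop ℚ)) (ι : K →+* C)
    (u : C) : Prop where
  hn : 0 < n
  v_int : ∀ x, x ≠ 0 → ∃ n : ℤ, v x = ((n : ℚ) : WithTop ℚ)
  v_σ : ∀ x, v (σ x) = v x
  v_a : v a = 1
  u_mul : ∀ x, u * ι x = ι (σ x) * u
  u_pow : u ^ n = ι a
  exh : ∀ d : C, ∃ x : ℕ → K, d = ev n ι u x
  uniq : ∀ x y : ℕ → K, ev n ι u x = ev n ι u y → ∀ i < n, x i = y i

variable (P : Pre n σ a v ι u)
include P

/-- coefficients -/
noncomputable def Pre.co (P : Pre n σ a v ι u) (d : C) : ℕ → K := (P.exh d).choose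

theorem Pre.ev_co (d : C) : ev n ι u (P.co d) = d := (P.exh d).choose_spec.symm

/-- the value -/
noncomputable def Pre.W (P : Pre n σ a v ι u) (d : C) : WithTop ℚ := wt n v (P.co d)

theorem Pre.W_ev (x : ℕ → K) : P.W (ev n ι u x) = wt n v x :=
  wt_congr (P.uniq _ _ (P.ev_co _))

theorem Pre.W_top (d : C) : P.W d = ⊤ ↔ d = 0 := by
  conv_rhs => rw [← P.ev_co d]
  unfold Pre.W
  rw [wt_top]
  constructor
  · intro h
    rw [ev_congr (y := fun _ => 0) h, ev_zero]
  · intro h
    exact P.uniq _ (fun _ => 0) (h.trans ev_zero.symm)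

theorem Pre.W_add (d e : C) : min (P.W d) (P.W e) ≤ P.W (d + e) := by
  conv_rhs => rw [← P.ev_co d, ← P.ev_co e, ← ev_add, P.W_ev]
  exact wt_add _ _

theorem Pre.W_neg (d : C) : P.W (-d) = P.W d := by
  conv_lhs => rw [← P.ev_co d, ← ev_neg, P.W_ev]
  exact wt_neg _

theorem Pre.W_sum (s : Finset ℕ) (f : ℕ → C) (t : WithTop ℚ) (h : ∀ i ∈ s, t ≤ P.W (f i)) :
    t ≤ P.W (∑ i ∈ s, f i) := by
  classical
  induction s using Finset.induction_on with
  | empty => rw [sum_empty, (P.W_top 0).2 rfl]; exact le_top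
  | insert i s hi ih =>
    rw [sum_insert hi]
    exact (le_min (h i (mem_insert_self i s))
      (ih (fun j hj => h j (mem_insert_of_mem hj)))).trans (P.W_add _ _)

theorem Pre.W_mono_mul (c : K) (k : ℕ) (e : C) :
    P.W (ι c * u ^ k * e) = v c + (((k : ℚ) / n : ℚ) : WithTop ℚ) + P.W e := by
  conv_lhs => rw [← P.ev_co e, mul_assoc, pow_mul_ev P.hn P.u_mul P.u_pow, ev_smul, P.W_ev,
    wt_smul P.hn, wt_iter P.hn P.v_σ P.v_a]
  rw [add_assoc]
  rfl

theorem Pre.W_mul_ge (d e : C) : P.W d + P.W e ≤ P.W (d * e) := by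
  conv_rhs => rw [← P.ev_co d]
  unfold ev
  rw [sum_mul]
  apply P.W_sum
  intro i hi
  rw [P.W_mono_mul]
  gcongr
  exact wt_le _ (mem_range.1 hi)

theorem Pre.W_mul (d e : C) : P.W (d * e) = P.W d + P.W e := by
  rcases eq_or_ne d 0 with hd | hd
  · rw [hd, zero_mul, (P.W_top 0).2 rfl, top_add]
  rcases eq_or_ne e 0 with he | he
  · rw [he, mul_zero, (P.W_top 0).2 rfl, add_top]
  have hWd : P.W d ≠ ⊤ := fun h => hd ((P.W_top d).1 h)
  have hWe : P.W e ≠ ⊤ := fun h => he ((P.W_top e).1 h)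
  obtain ⟨i, hi, hxi, h1, h2⟩ := wt_lead P.v_int P.hn (P.co d) hWd
  obtain ⟨m, hm⟩ : ∃ m, m = ι (P.co d i) * u ^ i := ⟨_, rfl⟩
  have hd' : d - m = ev n ι u (fun j => P.co d j - if j = i then P.co d i else 0) := by
    rw [ev_sub, P.ev_co, ev_mono _ i hi, hm]
  have h3 : P.W d < P.W (d - m) := by rw [hd', P.W_ev]; exact h2
  have h4 : P.W (m * e) = P.W d + P.W e := by
    rw [hm, P.W_mono_mul]
    congr 1
    exact h1.symm
  have h5 : P.W d + P.W e < P.W ((d - m) * e) :=
    lt_of_lt_of_le (WithTop.add_lt_add_right hWe h3) (P.W_mul_ge _ _)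
  apply le_antisymm
  · by_contra hcon
    push Not at hcon
    have h6 : min (P.W (d * e)) (P.W ((d - m) * e)) ≤ P.W (m * e) := by
      have := P.W_add (d * e) (-((d - m) * e))
      rw [P.W_neg] at this
      have h7 : d * e + -((d - m) * e) = m * e := by noncomm_ring
      rwa [h7] at this
    rw [h4] at h6
    exact absurd h6 (not_le.2 (lt_min hcon h5))
  · exact P.W_mul_ge d e

theorem Pre.W_one : P.W 1 = 0 := by
  have h := ev_single (φ := ι) (b := u) P.hn (1 : K)
  rw [map_one] at h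
  rw [← h, P.W_ev]
  apply le_antisymm
  · have := wt_le (v := v) (fun i => if i = 0 then (1 : K) else 0) P.hn
    simpa [v.map_one] using this
  · unfold wt
    apply Finset.le_inf
    intro i hi
    show _ ≤ v (if i = 0 then (1 : K) else 0) + _
    split_ifs with h0
    · subst h0
      simp [v.map_one]
    · rw [v.map_zero, top_add]
      exact le_top

theorem Pre.mul_eq_zero (d e : C) (h : d * e = 0) : d = 0 ∨ e = 0 := by
  rw [← P.W_top, P.W_mul, WithTop.add_eq_top, P.W_top, P.W_top] at h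
  exact h

theorem Pre.nontrivial : Nontrivial C := by
  refine ⟨⟨0, 1, fun h => ?_⟩⟩
  have h1 := P.W_one
  rw [← h, (P.W_top 0).2 rfl] at h1
  exact WithTop.top_ne_coe h1

theorem Pre.left_inv (d : C) (hd : d ≠ 0) : ∃ e, e * d = 1 := by
  let _ : Module K C := Module.compHom C ι
  have hsm : ∀ (c : K) (x : C), c • x = ι c * x := fun _ _ => rfl
  have _ : Module.Finite K C := by
    let f : (Fin n → K) →ₗ[K] C :=
      { toFun := fun x => ∑ i : Fin n, ι (x i) * u ^ (i : ℕ)
        map_add' := by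
          intro x y
          rw [← sum_add_distrib]
          exact sum_congr rfl (fun i _ => by rw [Pi.add_apply, map_add, add_mul])
        map_smul' := by
          intro c x
          rw [RingHom.id_apply, hsm, mul_sum]
          exact sum_congr rfl (fun i _ => by
            rw [Pi.smul_apply, smul_eq_mul, map_mul, mul_assoc]) }
    apply Module.Finite.of_surjective f
    intro d
    obtain ⟨x, hx⟩ := P.exh d
    refine ⟨fun i => x i, ?_⟩
    rw [hx]
    unfold ev
    exact (Finset.sum_range (fun i => ι (x i) * u ^ i)).symm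
  let g : C →ₗ[K] C :=
    { toFun := fun x => x * d
      map_add' := fun x y => add_mul x y d
      map_smul' := fun c x => by rw [RingHom.id_apply, hsm, hsm, mul_assoc] }
  have hinj : Function.Injective g := by
    intro x y hxy
    have h1 : (x - y) * d = 0 := by
      rw [sub_mul]
      exact sub_eq_zero.2 hxy
    rcases P.mul_eq_zero _ _ h1 with h | h
    · exact sub_eq_zero.1 h
    · exact absurd h hd
  obtain ⟨e, he⟩ := (LinearMap.injective_iff_surjective.1 hinj) 1
  exact ⟨e, he⟩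

theorem Pre.isUnit (d : C) (hd : d ≠ 0) : IsUnit d := by
  obtain ⟨e, he⟩ := P.left_inv d hd
  have h1 : (d * e - 1) * d = 0 := by
    rw [sub_mul, one_mul, mul_assoc, he, mul_one, sub_self]
  rcases P.mul_eq_zero _ _ h1 with h | h
  · exact ⟨⟨d, e, sub_eq_zero.1 h, he⟩, rfl⟩
  · exact absurd h hd

end build

end CycAux

theorem exists_Cyc (K : Type) [Field K] (n : ℕ) (hn : 0 < n) (σ : K ≃+* K) (a : K)
    (hσ : ∀ x, (⇑σ)^[n] x = x) (ha : σ a = a) (v : AddValuation K (WithTop ℚ))
    (v_int : ∀ x, x ≠ 0 → ∃ n : ℤ, v x = ((n : ℚ) : WithTop ℚ)) (v_σ : ∀ x, v (σ x) = v x)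
    (v_a : v a = 1) : ∃ (C : Type) (_ : DivisionRing C), Nonempty (Cyc K n σ a v C) := by
  classical
  obtain ⟨C, hC, ι, u, h1, h2, h3, h4⟩ := CycAux.exists_pre n hn σ a hσ ha
  have P : CycAux.Pre n σ a v ι u := ⟨hn, v_int, v_σ, v_a, h1, h2, h3, h4⟩
  have := P.nontrivial
  let hD : DivisionRing C := DivisionRing.ofIsUnitOrEqZero (fun d => by
    rcases eq_or_ne d 0 with h | h
    · exact Or.inr h
    · exact Or.inl (P.isUnit d h))
  refine ⟨C, hD, ⟨⟨ι, u, h1, h2, h3, AddValuation.of P.W ((P.W_top 0).2 rfl) P.W_one P.W_add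
    P.W_mul, ?_⟩⟩⟩
  intro x
  exact P.W_ev x

/-- universal property -/
theorem Cyc.lift {K : Type} [Field K] {n : ℕ} (hn : 0 < n) {σ : K ≃+* K} {a : K}
    {v : AddValuation K (WithTop ℚ)} {C : Type} [DivisionRing C] (S : Cyc K n σ a v C)
    {B : Type} [Ring B] (φ : K →+* B) (b : B) (hb : ∀ x, b * φ x = φ (σ x) * b)
    (hbn : b ^ n = φ a) : ∃ Φ : C →+* B, (∀ x, Φ (S.ι x) = φ x) ∧ Φ S.u = b := by
  classical
  have huniq : ∀ x y : ℕ → K, CycAux.ev n S.ι S.u x = CycAux.ev n S.ι S.u y →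
      ∀ i < n, x i = y i := by
    intro x y h i hi
    have h1 : CycAux.ev n S.ι S.u (fun i => x i - y i) = 0 := by
      rw [CycAux.ev_sub, h, sub_self]
    have h2 := S.w_sum (fun i => x i - y i)
    have h3 : S.w (∑ i ∈ range n, S.ι (x i - y i) * S.u ^ i) = ⊤ := by
      have : ∑ i ∈ range n, S.ι (x i - y i) * S.u ^ i = 0 := h1
      rw [this, S.w.map_zero]
    rw [h3] at h2
    have h4 := (CycAux.wt_top (v := v) (n := n) (fun i => x i - y i)).1 h2.symm i hi
    exact sub_eq_zero.1 h4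
  obtain ⟨co, hco⟩ : ∃ co : C → ℕ → K, ∀ d, CycAux.ev n S.ι S.u (co d) = d := by
    choose co hco using S.exh
    exact ⟨co, fun d => (hco d).symm⟩
  have hlift : ∀ x : ℕ → K, CycAux.ev n φ b (co (CycAux.ev n S.ι S.u x)) = CycAux.ev n φ b x :=
    fun x => CycAux.ev_congr (huniq _ _ (hco _))
  have hone : CycAux.ev n φ b (co 1) = 1 := by
    have h := CycAux.ev_single (φ := S.ι) (b := S.u) hn (1 : K)
    rw [map_one] at h
    rw [← h, hlift, CycAux.ev_single hn, map_one]
  let Φ : C →+* B :=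
    { toFun := fun d => CycAux.ev n φ b (co d)
      map_one' := hone
      map_mul' := by
        intro d e
        show CycAux.ev n φ b (co (d * e)) = CycAux.ev n φ b (co d) * CycAux.ev n φ b (co e)
        rw [CycAux.ev_mul_ev hn hb hbn, ← hlift (CycAux.cmul n σ a (co d) (co e)),
          ← CycAux.ev_mul_ev hn S.u_mul S.u_pow, hco, hco]
      map_zero' := by
        show CycAux.ev n φ b (co 0) = 0
        have h := CycAux.ev_zero (n := n) (φ := S.ι) (b := S.u)
        rw [← h, hlift, CycAux.ev_zero]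
      map_add' := by
        intro d e
        show CycAux.ev n φ b (co (d + e)) = CycAux.ev n φ b (co d) + CycAux.ev n φ b (co e)
        rw [← CycAux.ev_add, ← hlift (fun i => co d i + co e i), CycAux.ev_add, hco, hco] }
  refine ⟨Φ, ?_, ?_⟩
  · intro x
    show CycAux.ev n φ b (co (S.ι x)) = φ x
    rw [← CycAux.ev_single (φ := S.ι) (b := S.u) hn x, hlift, CycAux.ev_single hn]
  · show CycAux.ev n φ b (co S.u) = b
    have h : S.u = CycAux.ev n S.ι S.u
        (CycAux.shift n σ a (fun i => if i = 0 then (1 : K) else 0)) := by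
      rw [← CycAux.b_mul_ev hn S.u_mul S.u_pow, CycAux.ev_single hn, map_one, mul_one]
    rw [h, hlift, ← CycAux.b_mul_ev hn hb hbn, CycAux.ev_single hn, map_one, mul_one]

end Pool.Agent.Helper91.DV

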