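import Pool.Agent.Helper91.DV.C0K
import Pool.Agent.Helper91.DV.B0
import Pool.Agent.Helper91.DV.B1

/-!
# MP_5766af_al, module B2: the division ring `D` as a limit of cyclic algebras
-/

set_option autoImplicit false
open Finset
namespace Pool.Agent.Helper91.DV

namespace B2

variable {K : Type} [Field K] [CharZero K] (X : KD K)

theorem c_ne (m : ℕ) : X.c m ≠ 0 := by
  intro h
  have := X.v_c m
  rw [h, AddValuation.map_zero] at this
  exact absurd this (by simp)

theorem a_ne (m : ℕ) : X.a m ≠ 0 := by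
  intro h
  have := X.v_a m
  rw [h, AddValuation.map_zero] at this
  exact absurd this (by simp)

/-- the norm of `x` over `k` steps -/
def nrm (m k : ℕ) (x : K) : K := ∏ i ∈ range k, (⇑(X.g m))^[i] x

theorem g_nrm (m k : ℕ) (x : K) : X.g m (nrm X m k x) * x = nrm X m (k + 1) x := by
  unfold nrm
  rw [map_prod, prod_range_succ']
  simp only [Function.iterate_succ_apply', Function.iterate_zero, id]

theorem iter_inv (m i : ℕ) (x : K) : (⇑(X.g m))^[i] x⁻¹ = ((⇑(X.g m))^[i] x)⁻¹ := by
  induction i with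
  | zero => rfl
  | succ i ih => rw [Function.iterate_succ_apply', Function.iterate_succ_apply', ih, map_inv₀]

theorem nrm_inv (m k : ℕ) (x : K) : nrm X m k x⁻¹ = (nrm X m k x)⁻¹ := by
  unfold nrm
  rw [← prod_inv_distrib]
  exact prod_congr rfl fun i _ => iter_inv X m i x

theorem v_iter (m i : ℕ) (x : K) : X.v ((⇑(X.g m))^[i] x) = X.v x := by
  induction i with
  | zero => rfl
  | succ i ih => rw [Function.iterate_succ_apply', X.v_g, ih]

theorem v_nrm (m k : ℕ) (x : K) (h : X.v x = 0) : X.v (nrm X m k x) = 0 := by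
  induction k with
  | zero => simp [nrm]
  | succ k ih => rw [← g_nrm, AddValuation.map_mul, X.v_g, ih, h, add_zero]

theorem v_c_inv (m : ℕ) : X.v (X.c m)⁻¹ = 0 := by
  have h : X.v (X.c m * (X.c m)⁻¹) = 0 := by rw [mul_inv_cancel₀ (c_ne X m), AddValuation.map_one]
  rw [AddValuation.map_mul, X.v_c, zero_add] at h
  exact h

/-- the step map -/
theorem step (m : ℕ) {C C' : Type} [DivisionRing C] [DivisionRing C']
    (S : Cyc K (2 ^ m) (X.g m) (X.a m) X.v C)
    (S' : Cyc K (2 ^ (m + 1)) (X.g (m + 1)) (X.a (m + 1)) X.v C') :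
    ∃ Φ : C →+* C', (∀ x, Φ (S.ι x) = S'.ι x) ∧ S'.u ^ 2 = S'.ι (X.c m) * Φ S.u ∧
      ∀ x, S'.w (Φ x) = S.w x := by
  set b : C' := S'.ι (X.c m)⁻¹ * S'.u ^ 2 with hb
  have hu2 : ∀ x, S'.u ^ 2 * S'.ι x = S'.ι (X.g m x) * S'.u ^ 2 := by
    intro x
    rw [pow_two, mul_assoc, S'.u_mul, ← mul_assoc, S'.u_mul, mul_assoc, X.g_succ]
  have hbx : ∀ x, b * S'.ι x = S'.ι (X.g m x) * b := by
    intro x
    rw [hb, mul_assoc, hu2, ← mul_assoc, ← map_mul, mul_comm, map_mul, mul_assoc]
  have hbk : ∀ k, b ^ k = S'.ι (nrm X m k (X.c m)⁻¹) * S'.u ^ (2 * k) := by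
    intro k
    induction k with
    | zero => simp [nrm]
    | succ k ih =>
      rw [pow_succ', ih, ← mul_assoc, hbx, ← g_nrm, map_mul, hb, mul_assoc, mul_assoc, mul_assoc,
        ← pow_add]
      congr 3
      ring
  have hbn : b ^ 2 ^ m = S'.ι (X.a m) := by
    rw [hbk, nrm_inv]
    have h1 : S'.u ^ (2 * 2 ^ m) = S'.ι (X.a (m + 1)) := by
      rw [← S'.u_pow]; congr 1; ring
    rw [h1, ← map_mul]
    congr 1
    rw [X.a_succ]
    change (nrm X m (2 ^ m) (X.c m))⁻¹ * (X.a m * nrm X m (2 ^ m) (X.c m)) = X.a m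
    have h0 : nrm X m (2 ^ m) (X.c m) ≠ 0 := by
      intro h
      have := v_nrm X m (2 ^ m) _ (X.v_c m)
      rw [h, AddValuation.map_zero] at this
      exact absurd this (by simp)
    field_simp
  obtain ⟨Φ, hΦι, hΦu⟩ := Cyc.lift (by positivity) S S'.ι b hbx hbn
  refine ⟨Φ, hΦι, ?_, ?_⟩
  · rw [hΦu, hb, ← mul_assoc, ← map_mul, mul_inv_cancel₀ (c_ne X m), map_one, one_mul]
  · intro x
    obtain ⟨y, rfl⟩ := S.exh x
    rw [S.w_sum, map_sum]
    have h1 : ∀ i ∈ range (2 ^ m), Φ (S.ι (y i) * S.u ^ i) =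
        S'.ι (y i * nrm X m i (X.c m)⁻¹) * S'.u ^ (2 * i) := by
      intro i _
      rw [map_mul, map_pow, hΦι, hΦu, hbk, ← mul_assoc, ← map_mul]
    rw [sum_congr rfl h1]
    -- pass to a sum over `range (2 ^ (m+1))`
    set z : ℕ → K := fun k => if Even k then y (k / 2) * nrm X m (k / 2) (X.c m)⁻¹ else 0 with hz
    have h2 : ∑ i ∈ range (2 ^ m), S'.ι (y i * nrm X m i (X.c m)⁻¹) * S'.u ^ (2 * i) =
        ∑ k ∈ range (2 ^ (m + 1)), S'.ι (z k) * S'.u ^ k := by
      symm
      rw [← sum_filter_add_sum_filter_not (range (2 ^ (m + 1))) (fun k => Even k)]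
      have h3 : ∑ k ∈ (range (2 ^ (m + 1))).filter (fun k => ¬ Even k), S'.ι (z k) * S'.u ^ k = 0 := by
        apply sum_eq_zero
        intro k hk
        rw [mem_filter] at hk
        rw [hz]
        simp [hk.2]
      rw [h3, add_zero]
      symm
      apply sum_bij (fun i _ => 2 * i)
      · intro i hi
        rw [mem_filter, mem_range]
        rw [mem_range] at hi
        refine ⟨by rw [pow_succ]; omega, even_two_mul i⟩
      · intro i _ j _ h
        omega
      · intro k hk
        rw [mem_filter, mem_range] at hk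
        obtain ⟨r, hr⟩ := hk.2
        refine ⟨r, ?_, by omega⟩
        rw [mem_range]
        have := hk.1
        rw [pow_succ] at this
        omega
      · intro i _
        rw [hz]
        simp
    rw [h2, S'.w_sum]
    apply le_antisymm
    · apply Finset.le_inf
      intro i hi
      rw [mem_range] at hi
      have h4 : 2 * i ∈ range (2 ^ (m + 1)) := by rw [mem_range, pow_succ]; omega
      refine (Finset.inf_le h4).trans ?_
      rw [hz]
      have h5 : X.v (nrm X m i (X.c m)⁻¹) = 0 := v_nrm X m i _ (v_c_inv X m)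
      simp only [even_two_mul, if_true, Nat.mul_div_cancel_left i (two_pos), AddValuation.map_mul, h5, add_zero]
      apply le_of_eq
      congr 2
      push_cast
      rw [pow_succ]
      field_simp
    · apply Finset.le_inf
      intro k hk
      rw [mem_range] at hk
      rw [hz]
      by_cases he : Even k
      · obtain ⟨r, hr⟩ := he
        have hr2 : r ∈ range (2 ^ m) := by
          rw [mem_range]; rw [pow_succ] at hk; omega
        refine (Finset.inf_le hr2).trans ?_
        have h5 : X.v (nrm X m r (X.c m)⁻¹) = 0 := v_nrm X m r _ (v_c_inv X m)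
        have h6 : k / 2 = r := by omega
        have h7 : Even k := ⟨r, hr⟩
        simp only [h7, if_true, h6, AddValuation.map_mul, h5, add_zero]
        apply le_of_eq
        congr 2
        rw [hr]
        push_cast
        rw [pow_succ]
        field_simp
        ring
      · simp [he]

end B2

/-- B2 -/
theorem exists_DD {K : Type} [Field K] [CharZero K] (X : KD K) :
    ∃ (D : Type) (_ : DivisionRing D), Nonempty (DD X D) := by
  have h0 : ∀ m, ∃ (C : Type) (_ : DivisionRing C), Nonempty (Cyc K (2 ^ m) (X.g m) (X.a m) X.v C) :=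
    fun m => exists_Cyc K (2 ^ m) (by positivity) (X.g m) (X.a m) (X.g_order m) (X.g_a m) X.v X.v_int
      (X.v_g m) (X.v_a m)
  choose C instC hS using h0
  choose φ hφι hφu hφw using fun m => B2.step X m (hS m).some (hS (m + 1)).some
  obtain ⟨L, instL, j, hj, hex⟩ := lim_divisionRing C φ
  obtain ⟨W, hW⟩ := lim_lift φ j hj hex (fun m => ⇑(hS m).some.w) hφw
  -- common level
  have up : ∀ m k, m ≤ k → ∀ x : C m, ∃ y : C k, j k y = j m x := by
    intro m k h
    induction k, h using Nat.le_induction with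
    | base => exact fun x => ⟨x, rfl⟩
    | succ k _ ih =>
      intro x
      obtain ⟨y, hy⟩ := ih x
      exact ⟨φ k y, by rw [hj, hy]⟩
  have com : ∀ x y : L, ∃ m, ∃ a b : C m, x = j m a ∧ y = j m b := by
    intro x y
    obtain ⟨m, a, ha⟩ := hex x
    obtain ⟨n, b, hb⟩ := hex y
    obtain ⟨a', ha'⟩ := up m (max m n) (le_max_left _ _) a
    obtain ⟨b', hb'⟩ := up n (max m n) (le_max_right _ _) b
    exact ⟨max m n, a', b', by rw [ha', ha], by rw [hb', hb]⟩
  have hι : ∀ m x, j m ((hS m).some.ι x) = j 0 ((hS 0).some.ι x) := by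
    intro m x
    induction m with
    | zero => rfl
    | succ m ih => rw [← hφι, hj, ih]
  let w : AddValuation L (WithTop ℚ) := AddValuation.of W
    (by rw [← map_zero (j 0), hW, AddValuation.map_zero])
    (by rw [← map_one (j 0), hW, AddValuation.map_one])
    (by
      intro x y
      obtain ⟨m, a, b, rfl, rfl⟩ := com x y
      rw [← map_add, hW, hW, hW]
      exact AddValuation.map_add _ _ _)
    (by
      intro x y
      obtain ⟨m, a, b, rfl, rfl⟩ := com x y
      rw [← map_mul, hW, hW, hW]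
      exact AddValuation.map_mul _ _ _)
  refine ⟨L, instL, ⟨{
    ι := (j 0).comp (hS 0).some.ι
    u := fun m => j m (hS m).some.u
    u_ne := ?_
    u_zero := ?_
    u_mul := ?_
    u_succ := ?_
    exh := ?_
    w := w
    w_sum := ?_ }⟩⟩
  · intro m h
    rw [map_eq_zero] at h
    have h1 := (hS m).some.u_pow
    rw [h, zero_pow (by positivity)] at h1
    exact B2.a_ne X m ((map_eq_zero _).1 h1.symm)
  · have h1 := (hS 0).some.u_pow
    have h2 : (hS 0).some.u = (hS 0).some.ι (X.a 0) := by
      rw [← h1]; exact (pow_one _).symm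
    rw [h2]; rfl
  · intro m x
    rw [RingHom.comp_apply, RingHom.comp_apply, ← hι m, ← hι m, ← map_mul, (hS m).some.u_mul, map_mul]
  · intro m
    rw [RingHom.comp_apply, ← map_pow, hφu, map_mul, hj, hι (m + 1)]
  · intro d
    obtain ⟨m, y, rfl⟩ := hex d
    obtain ⟨x, rfl⟩ := (hS m).some.exh y
    refine ⟨m, x, ?_⟩
    rw [map_sum]
    refine sum_congr rfl fun i _ => ?_
    rw [map_mul, map_pow, hι m, RingHom.comp_apply]
  · intro m x
    have h1 : ∑ i ∈ range (2 ^ m), ((j 0).comp (hS 0).some.ι) (x i) * (j m (hS m).some.u) ^ i =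
        j m (∑ i ∈ range (2 ^ m), (hS m).some.ι (x i) * (hS m).some.u ^ i) := by
      rw [map_sum]
      refine sum_congr rfl fun i _ => ?_
      rw [map_mul, map_pow, hι m, RingHom.comp_apply]
    rw [h1]
    change W (j m _) = _
    rw [hW, (hS m).some.w_sum]
    push_cast
    rfl

end Pool.Agent.Helper91.DV
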