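import Pool.Agent.Helper91.DV.C0K

set_option autoImplicit false
open Finset
namespace Pool.Agent.Helper91.DV

variable {K : Type} [Field K] [CharZero K] {X : KD K} {D : Type} [DivisionRing D] (Y : DD X D)

namespace DD

theorem ι_inj {x y : K} (h : Y.ι x = Y.ι y) : x = y := Y.ι.injective h

theorem ι_ne {x : K} (h : x ≠ 0) : Y.ι x ≠ 0 := by
  intro h2
  exact h (Y.ι_inj (h2.trans (map_zero _).symm))

theorem c_ne (X : KD K) (m : ℕ) : X.c m ≠ 0 := by
  intro h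
  have := X.v_c m
  rw [h, AddValuation.map_zero] at this
  exact absurd this (by simp)

theorem a_ne (X : KD K) (m : ℕ) : X.a m ≠ 0 := by
  intro h
  have := X.v_a m
  rw [h, AddValuation.map_zero] at this
  exact absurd this (by simp)

theorem v_iter (X : KD K) (m n : ℕ) (x : K) : X.v ((⇑(X.g m))^[n] x) = X.v x := by
  induction n generalizing x with
  | zero => rfl
  | succ n ih => rw [Function.iterate_succ_apply, ih, X.v_g]

theorem u_pow_mul (m i : ℕ) (x : K) : Y.u m ^ i * Y.ι x = Y.ι ((⇑(X.g m))^[i] x) * Y.u m ^ i := by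
  induction i generalizing x with
  | zero => simp
  | succ i ih =>
    rw [pow_succ, mul_assoc, Y.u_mul, ← mul_assoc, ih, Function.iterate_succ_apply, mul_assoc]

theorem cu_pow (m : ℕ) (c : K) (n : ℕ) :
    (Y.ι c * Y.u m) ^ n = Y.ι (∏ i ∈ range n, (⇑(X.g m))^[i] c) * Y.u m ^ n := by
  induction n with
  | zero => simp
  | succ n ih =>
    rw [pow_succ, ih, mul_assoc, ← mul_assoc (Y.u m ^ n), Y.u_pow_mul, prod_range_succ, map_mul,
      pow_succ]
    simp only [mul_assoc]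

theorem u_pow (m : ℕ) : Y.u m ^ 2 ^ m = Y.ι (X.a m) := by
  induction m with
  | zero => simpa using Y.u_zero
  | succ m ih =>
    rw [pow_succ', pow_mul, Y.u_succ, Y.cu_pow, ih, ← map_mul, X.a_succ, mul_comm]

theorem u_eq (m : ℕ) : Y.u m = Y.ι (X.c m)⁻¹ * Y.u (m + 1) ^ 2 := by
  rw [Y.u_succ, ← mul_assoc, ← map_mul, inv_mul_cancel₀ (c_ne X m), map_one, one_mul]

/-- general description of the subring generated by a subfield `P` and `u_m` -/
theorem mem_closure_iff (m : ℕ) (P : Subfield K) (hg : ∀ x ∈ P, X.g m x ∈ P) (ha : X.a m ∈ P)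
    (d : D) : d ∈ Subring.closure (Y.ι '' (P : Set K) ∪ {Y.u m}) ↔
      ∃ x : ℕ → K, (∀ i, x i ∈ P) ∧ d = ∑ i ∈ range (2 ^ m), Y.ι (x i) * Y.u m ^ i := by
  obtain ⟨n, hn⟩ : ∃ n, 2 ^ m = n + 1 := ⟨2 ^ m - 1, by have := Nat.one_le_two_pow (n := m); omega⟩
  have hup := Y.u_pow m
  rw [hn] at hup ⊢
  constructor
  · intro hd
    -- T is closed under addition and left multiplication by `ι P` and `u`
    have hι : ∀ c ∈ P, ∀ e : D, (∃ x : ℕ → K, (∀ i, x i ∈ P) ∧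
        e = ∑ i ∈ range (n + 1), Y.ι (x i) * Y.u m ^ i) → (∃ x : ℕ → K, (∀ i, x i ∈ P) ∧
        Y.ι c * e = ∑ i ∈ range (n + 1), Y.ι (x i) * Y.u m ^ i) := by
      rintro c hc e ⟨x, hx, rfl⟩
      refine ⟨fun i => c * x i, fun i => P.mul_mem hc (hx i), ?_⟩
      rw [mul_sum]
      exact sum_congr rfl fun i _ => by rw [map_mul, mul_assoc]
    have hu : ∀ e : D, (∃ x : ℕ → K, (∀ i, x i ∈ P) ∧
        e = ∑ i ∈ range (n + 1), Y.ι (x i) * Y.u m ^ i) → (∃ x : ℕ → K, (∀ i, x i ∈ P) ∧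
        Y.u m * e = ∑ i ∈ range (n + 1), Y.ι (x i) * Y.u m ^ i) := by
      rintro e ⟨x, hx, rfl⟩
      refine ⟨fun i => if i = 0 then X.g m (x n) * X.a m else X.g m (x (i - 1)), ?_, ?_⟩
      · intro i
        dsimp only
        split_ifs
        · exact P.mul_mem (hg _ (hx _)) ha
        · exact hg _ (hx _)
      · rw [mul_sum, sum_range_succ, sum_range_succ' _ n]
        congr 1
        · refine sum_congr rfl fun i _ => ?_
          rw [← mul_assoc, Y.u_mul, mul_assoc, ← pow_succ']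
          rfl
        · rw [← mul_assoc, Y.u_mul, mul_assoc, ← pow_succ', hup, pow_zero, mul_one]
          exact (map_mul _ _ _).symm
    have hadd : ∀ e f : D, (∃ x : ℕ → K, (∀ i, x i ∈ P) ∧
        e = ∑ i ∈ range (n + 1), Y.ι (x i) * Y.u m ^ i) → (∃ x : ℕ → K, (∀ i, x i ∈ P) ∧
        f = ∑ i ∈ range (n + 1), Y.ι (x i) * Y.u m ^ i) → (∃ x : ℕ → K, (∀ i, x i ∈ P) ∧
        e + f = ∑ i ∈ range (n + 1), Y.ι (x i) * Y.u m ^ i) := by
      rintro e f ⟨x, hx, rfl⟩ ⟨y, hy, rfl⟩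
      refine ⟨fun i => x i + y i, fun i => P.add_mem (hx i) (hy i), ?_⟩
      rw [← sum_add_distrib]
      exact sum_congr rfl fun i _ => by rw [map_add, add_mul]
    have hzero : ∃ x : ℕ → K, (∀ i, x i ∈ P) ∧
        (0 : D) = ∑ i ∈ range (n + 1), Y.ι (x i) * Y.u m ^ i :=
      ⟨fun _ => 0, fun _ => P.zero_mem, by simp⟩
    have hone : ∃ x : ℕ → K, (∀ i, x i ∈ P) ∧
        (1 : D) = ∑ i ∈ range (n + 1), Y.ι (x i) * Y.u m ^ i := by
      refine ⟨fun i => if i = 0 then 1 else 0, ?_, ?_⟩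
      · intro i
        dsimp only
        split_ifs
        · exact P.one_mem
        · exact P.zero_mem
      · rw [sum_eq_single 0]
        · simp
        · intro b _ hb
          simp [hb]
        · simp
    have hup : ∀ i (e : D), (∃ x : ℕ → K, (∀ i, x i ∈ P) ∧
        e = ∑ i ∈ range (n + 1), Y.ι (x i) * Y.u m ^ i) → (∃ x : ℕ → K, (∀ i, x i ∈ P) ∧
        Y.u m ^ i * e = ∑ i ∈ range (n + 1), Y.ι (x i) * Y.u m ^ i) := by
      intro i
      induction i with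
      | zero => intro e he; simpa using he
      | succ i ih =>
        intro e he
        rw [pow_succ, mul_assoc]
        exact ih _ (hu _ he)
    have hsum : ∀ (s : Finset ℕ) (f : ℕ → D), (∀ i ∈ s, ∃ x : ℕ → K, (∀ i, x i ∈ P) ∧
        f i = ∑ i ∈ range (n + 1), Y.ι (x i) * Y.u m ^ i) → ∃ x : ℕ → K, (∀ i, x i ∈ P) ∧
        ∑ i ∈ s, f i = ∑ i ∈ range (n + 1), Y.ι (x i) * Y.u m ^ i := by
      intro s f
      induction s using Finset.induction_on with
      | empty => intro _; simpa using hzero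
      | insert a s ha ih =>
        intro h
        rw [sum_insert ha]
        exact hadd _ _ (h a (mem_insert_self _ _)) (ih fun i hi => h i (mem_insert_of_mem hi))
    induction hd using Subring.closure_induction with
    | mem x hx =>
      rcases hx with ⟨x, hx, rfl⟩ | hx
      · have := hι x hx 1 hone
        rwa [mul_one] at this
      · rw [Set.mem_singleton_iff.1 hx]
        have := hu 1 hone
        rwa [mul_one] at this
    | zero => exact hzero
    | one => exact hone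
    | add x y _ _ hx hy => exact hadd _ _ hx hy
    | neg x _ hx =>
      have := hι (-1) (P.neg_mem P.one_mem) x hx
      rwa [map_neg, map_one, neg_one_mul] at this
    | mul x y _ _ hx hy =>
      obtain ⟨x, hx, rfl⟩ := hx
      rw [sum_mul]
      refine hsum _ _ fun i _ => ?_
      rw [mul_assoc]
      exact hι _ (hx i) _ (hup i _ hy)
  · rintro ⟨x, hx, rfl⟩
    refine Subring.sum_mem _ fun i _ => Subring.mul_mem _ ?_ (Subring.pow_mem _ ?_ _)
    · exact Subring.subset_closure (Or.inl ⟨x i, hx i, rfl⟩)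
    · exact Subring.subset_closure (Or.inr rfl)

theorem mem_Dm_iff (m : ℕ) (d : D) :
    d ∈ Y.Dm m ↔ ∃ x : ℕ → K, d = ∑ i ∈ range (2 ^ m), Y.ι (x i) * Y.u m ^ i := by
  have h := Y.mem_closure_iff m ⊤ (fun _ _ => trivial) trivial d
  have h2 : Y.ι '' ((⊤ : Subfield K) : Set K) = Set.range Y.ι := by
    rw [Subfield.coe_top, Set.image_univ]
  rw [h2] at h
  refine h.trans ⟨fun ⟨x, _, h⟩ => ⟨x, h⟩, fun ⟨x, h⟩ => ⟨x, fun _ => trivial, h⟩⟩

theorem mem_DK_iff (m : ℕ) (d : D) :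
    d ∈ Y.DK m ↔ ∃ x : ℕ → K, (∀ i, x i ∈ X.Kf m) ∧
      d = ∑ i ∈ range (2 ^ m), Y.ι (x i) * Y.u m ^ i :=
  Y.mem_closure_iff m (X.Kf m) (X.g_Kf m m le_rfl) (X.a_mem m) d

theorem v_eq_top (X : KD K) {x : K} (h : X.v x = ⊤) : x = 0 := by
  by_contra hx
  obtain ⟨n, hn⟩ := X.v_int x hx
  rw [hn] at h
  exact absurd h (by simp)

theorem coeff_zero (m : ℕ) (x : ℕ → K)
    (h : ∑ i ∈ range (2 ^ m), Y.ι (x i) * Y.u m ^ i = 0) : ∀ i < 2 ^ m, x i = 0 := by
  intro i hi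
  have h2 := Y.w_sum m x
  rw [h, AddValuation.map_zero] at h2
  have h3 := (Finset.inf_eq_top_iff _ _).1 h2.symm i (mem_range.2 hi)
  refine v_eq_top X ?_
  by_contra h4
  have h5 : X.v (x i) ≠ ⊤ := h4
  obtain ⟨q, hq⟩ := WithTop.ne_top_iff_exists.1 h5
  rw [← hq, ← WithTop.coe_add] at h3
  exact absurd h3 (by simp)

theorem coeff_unique (m : ℕ) (x y : ℕ → K)
    (h : ∑ i ∈ range (2 ^ m), Y.ι (x i) * Y.u m ^ i = ∑ i ∈ range (2 ^ m), Y.ι (y i) * Y.u m ^ i) :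
    ∀ i < 2 ^ m, x i = y i := by
  intro i hi
  have := Y.coeff_zero m (fun i => x i - y i) (by
    simp only [map_sub, sub_mul, sum_sub_distrib]
    rw [h, sub_self]) i hi
  exact sub_eq_zero.1 this

theorem Dm_mono {m n : ℕ} (h : m ≤ n) : Y.Dm m ≤ Y.Dm n := by
  induction n, h using Nat.le_induction with
  | base => exact le_rfl
  | succ n _ ih =>
    refine ih.trans ?_
    refine Subring.closure_le.2 ?_
    rintro x (⟨x, rfl⟩ | hx)
    · exact Y.ι_mem_Dm _ _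
    · rw [Set.mem_singleton_iff.1 hx, Y.u_eq]
      exact Subring.mul_mem _ (Y.ι_mem_Dm _ _) (Subring.pow_mem _ (Y.u_mem_Dm _) _)

theorem DK_le_Dm (m : ℕ) : Y.DK m ≤ Y.Dm m := by
  refine Subring.closure_mono ?_
  refine Set.union_subset_union_left _ ?_
  rintro _ ⟨x, _, rfl⟩
  exact ⟨x, rfl⟩

theorem ι_mem_DK (m : ℕ) (x : K) (h : x ∈ X.Kf m) : Y.ι x ∈ Y.DK m :=
  Subring.subset_closure (Or.inl ⟨x, h, rfl⟩)

theorem u_mem_DK (m : ℕ) : Y.u m ∈ Y.DK m := Subring.subset_closure (Or.inr rfl)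

theorem DK_mono {m n : ℕ} (h : m ≤ n) : Y.DK m ≤ Y.DK n := by
  induction n, h using Nat.le_induction with
  | base => exact le_rfl
  | succ n _ ih =>
    refine ih.trans ?_
    refine Subring.closure_le.2 ?_
    rintro x (⟨x, hx, rfl⟩ | hx)
    · exact Y.ι_mem_DK _ _ (X.Kf_mono n hx)
    · rw [Set.mem_singleton_iff.1 hx, Y.u_eq]
      exact Subring.mul_mem _ (Y.ι_mem_DK _ _ ((X.Kf (n + 1)).inv_mem (X.c_mem n)))
        (Subring.pow_mem _ (Y.u_mem_DK _) _)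

theorem exists_DK (d : D) : ∃ m, d ∈ Y.DK m := by
  obtain ⟨m, x, rfl⟩ := Y.exh d
  have : ∀ n : ℕ, ∃ M, m ≤ M ∧ ∀ i < n, x i ∈ X.Kf M := by
    intro n
    induction n with
    | zero => exact ⟨m, le_rfl, fun i hi => absurd hi (Nat.not_lt_zero _)⟩
    | succ n ih =>
      obtain ⟨M, hM, h⟩ := ih
      obtain ⟨j, hj⟩ := X.Kf_exh (x n)
      refine ⟨max M j, hM.trans (le_max_left _ _), fun i hi => ?_⟩
      rcases Nat.lt_succ_iff_lt_or_eq.1 hi with h1 | rfl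
      · exact X.Kf_mono' (le_max_left _ _) (h i h1)
      · exact X.Kf_mono' (le_max_right _ _) hj
  obtain ⟨M, hM, h⟩ := this (2 ^ m)
  refine ⟨M, Subring.sum_mem _ fun i hi => Subring.mul_mem _ ?_ (Subring.pow_mem _ ?_ _)⟩
  · exact Y.ι_mem_DK _ _ (h i (mem_range.1 hi))
  · exact Y.DK_mono hM (Y.u_mem_DK m)

/-- inverses -/
theorem inv_mem_closure (m : ℕ) (P : Subfield K) (hg : ∀ x ∈ P, X.g m x ∈ P) (ha : X.a m ∈ P)
    (d : D) (hd : d ∈ Subring.closure (Y.ι '' (P : Set K) ∪ {Y.u m})) :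
    d⁻¹ ∈ Subring.closure (Y.ι '' (P : Set K) ∪ {Y.u m}) := by
  rcases eq_or_ne d 0 with rfl | hd0
  · rw [inv_zero]; exact Subring.zero_mem _
  set T := Subring.closure (Y.ι '' (P : Set K) ∪ {Y.u m}) with hT
  let _i : Module P D := Module.compHom D (Y.ι.comp P.subtype)
  have hsm : ∀ (c : P) (e : D), c • e = Y.ι (c : K) * e := fun c e => rfl
  have hιT : ∀ c ∈ P, Y.ι c ∈ T := fun c hc => Subring.subset_closure (Or.inl ⟨c, hc, rfl⟩)
  let W : Submodule P D :=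
    { carrier := {e | e ∈ T}
      add_mem' := fun h1 h2 => T.add_mem h1 h2
      zero_mem' := T.zero_mem
      smul_mem' := fun c e he => by
        rw [hsm]
        exact T.mul_mem (hιT _ c.2) he }
  have hW : ∀ e, e ∈ W ↔ e ∈ T := fun e => Iff.rfl
  have _i2 : FiniteDimensional P W := by
    have hspan : W ≤ Submodule.span P ((fun i : ℕ => Y.u m ^ i) '' (range (2 ^ m) : Set ℕ)) := by
      intro e he
      obtain ⟨x, hx, rfl⟩ := (Y.mem_closure_iff m P hg ha e).1 he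
      refine Submodule.sum_mem _ fun i hi => ?_
      have : Y.ι (x i) * Y.u m ^ i = (⟨x i, hx i⟩ : P) • Y.u m ^ i := rfl
      rw [this]
      exact Submodule.smul_mem _ _ (Submodule.subset_span ⟨i, by simpa using hi, rfl⟩)
    have _i3 : FiniteDimensional P
        (Submodule.span P ((fun i : ℕ => Y.u m ^ i) '' (range (2 ^ m) : Set ℕ))) :=
      FiniteDimensional.span_of_finite P ((Finset.finite_toSet _).image _)
    exact Submodule.finiteDimensional_of_le hspan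
  let R : W →ₗ[P] W :=
    { toFun := fun e => ⟨e.1 * d, T.mul_mem e.2 hd⟩
      map_add' := fun e f => Subtype.ext (by simp [add_mul])
      map_smul' := fun c e => Subtype.ext (by
        simp only [Submodule.coe_smul, hsm, RingHom.id_apply, mul_assoc]) }
  have hinj : Function.Injective R := by
    intro e f hef
    have : e.1 * d = f.1 * d := congrArg Subtype.val hef
    exact Subtype.ext (mul_right_cancel₀ hd0 this)
  obtain ⟨e, he⟩ := (LinearMap.injective_iff_surjective.1 hinj) ⟨1, T.one_mem⟩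
  have he' : e.1 * d = 1 := congrArg Subtype.val he
  have : e.1 = d⁻¹ := eq_inv_of_mul_eq_one_left he'
  rw [← this]
  exact e.2

theorem inv_mem_Dm (m : ℕ) (d : D) (h : d ∈ Y.Dm m) : d⁻¹ ∈ Y.Dm m := by
  have h2 : Y.ι '' ((⊤ : Subfield K) : Set K) = Set.range Y.ι := by
    rw [Subfield.coe_top, Set.image_univ]
  have h3 := Y.inv_mem_closure m ⊤ (fun _ _ => trivial) trivial d (by rw [h2]; exact h)
  rw [h2] at h3
  exact h3

theorem inv_mem_DK (m : ℕ) (d : D) (h : d ∈ Y.DK m) : d⁻¹ ∈ Y.DK m :=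
  Y.inv_mem_closure m (X.Kf m) (X.g_Kf m m le_rfl) (X.a_mem m) d h

theorem sq_mem (m : ℕ) : Y.u (m + 1) ^ 2 ∈ Y.Dm m := by
  rw [Y.u_succ]
  exact Subring.mul_mem _ (Y.ι_mem_Dm _ _) (Y.u_mem_Dm _)

/-- `D_{m+1} = D_m ⊕ D_m u_{m+1}` -/
theorem decomp (m : ℕ) (d : D) (h : d ∈ Y.Dm (m + 1)) :
    ∃ x ∈ Y.Dm m, ∃ y ∈ Y.Dm m, d = x + y * Y.u (m + 1) := by
  obtain ⟨x, rfl⟩ := (Y.mem_Dm_iff _ _).1 h
  have key : ∀ n (f : ℕ → D), ∑ i ∈ range (2 * n), f i =
      ∑ i ∈ range n, f (2 * i) + ∑ i ∈ range n, f (2 * i + 1) := by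
    intro n f
    induction n with
    | zero => simp
    | succ n ih =>
      rw [show 2 * (n + 1) = 2 * n + 1 + 1 by ring, sum_range_succ, sum_range_succ, ih,
        sum_range_succ, sum_range_succ]
      abel
  rw [pow_succ', key]
  refine ⟨∑ i ∈ range (2 ^ m), Y.ι (x (2 * i)) * Y.u (m + 1) ^ (2 * i), ?_,
    ∑ i ∈ range (2 ^ m), Y.ι (x (2 * i + 1)) * Y.u (m + 1) ^ (2 * i), ?_, ?_⟩
  · refine Subring.sum_mem _ fun i _ => Subring.mul_mem _ (Y.ι_mem_Dm _ _) ?_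
    rw [pow_mul]
    exact Subring.pow_mem _ (Y.sq_mem m) _
  · refine Subring.sum_mem _ fun i _ => Subring.mul_mem _ (Y.ι_mem_Dm _ _) ?_
    rw [pow_mul]
    exact Subring.pow_mem _ (Y.sq_mem m) _
  · congr 1
    rw [sum_mul]
    exact sum_congr rfl fun i _ => by rw [pow_succ, mul_assoc]

theorem w_ι (x : K) : Y.w (Y.ι x) = X.v x := by
  have h := Y.w_sum 0 (fun _ => x)
  simpa using h

theorem w_eq_top {d : D} (h : Y.w d = ⊤) : d = 0 := (AddValuation.top_iff _).1 h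

/-- values on `D_m` -/
theorem w_Dm (m : ℕ) (d : D) (hd : d ∈ Y.Dm m) (h0 : d ≠ 0) :
    ∃ n : ℤ, Y.w d = (((n : ℚ) / 2 ^ m : ℚ) : WithTop ℚ) := by
  obtain ⟨x, rfl⟩ := (Y.mem_Dm_iff _ _).1 hd
  have h := Y.w_sum m x
  obtain ⟨i, hi, h2⟩ := Finset.exists_mem_eq_inf (range (2 ^ m)) (by simp)
    (fun i => X.v (x i) + (((i : ℚ) / 2 ^ m : ℚ) : WithTop ℚ))
  rw [h2] at h
  have hx : x i ≠ 0 := by
    intro hx
    rw [hx, AddValuation.map_zero, top_add] at h
    exact h0 (Y.w_eq_top h)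
  obtain ⟨n, hn⟩ := X.v_int _ hx
  refine ⟨n * 2 ^ m + i, ?_⟩
  rw [h, hn, ← WithTop.coe_add]
  congr 1
  push_cast
  field_simp

theorem w_u (m : ℕ) : Y.w (Y.u m) = (((1 : ℚ) / 2 ^ m : ℚ) : WithTop ℚ) := by
  have h1 : Y.w (Y.u m ^ 2 ^ m) = 1 := by rw [Y.u_pow, Y.w_ι, X.v_a]
  have h2 : Y.w (Y.u m) ≠ ⊤ := fun h => Y.u_ne m (Y.w_eq_top h)
  obtain ⟨q, hq⟩ := WithTop.ne_top_iff_exists.1 h2
  rw [AddValuation.map_pow, ← hq] at h1
  rw [← hq]
  have h3 : ((2 ^ m • q : ℚ) : WithTop ℚ) = ((1 : ℚ) : WithTop ℚ) := by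
    rw [WithTop.coe_nsmul]; exact h1
  have h4 := WithTop.coe_injective h3
  rw [nsmul_eq_mul] at h4
  push_cast at h4
  congr 1
  field_simp
  linarith

theorem u_notMem (m : ℕ) : Y.u (m + 1) ∉ Y.Dm m := by
  intro h
  obtain ⟨n, hn⟩ := Y.w_Dm m _ h (Y.u_ne _)
  rw [Y.w_u] at hn
  have h2 := WithTop.coe_injective hn
  rw [pow_succ] at h2
  field_simp at h2
  have h3 : (1 : ℤ) = n * 2 ∨ (1 : ℤ) = 2 * n := by
    first
      | exact Or.inl (by exact_mod_cast h2)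
      | exact Or.inr (by exact_mod_cast h2)
  omega

theorem decomp_unique (m : ℕ) (x y : D) (hx : x ∈ Y.Dm m) (hy : y ∈ Y.Dm m)
    (h : x + y * Y.u (m + 1) = 0) : x = 0 ∧ y = 0 := by
  have hy0 : y = 0 := by
    by_contra hy0
    apply Y.u_notMem m
    have : Y.u (m + 1) = y⁻¹ * (-x) := by
      rw [eq_neg_of_add_eq_zero_left h, neg_neg, ← mul_assoc, inv_mul_cancel₀ hy0, one_mul]
    rw [this]
    exact Subring.mul_mem _ (Y.inv_mem_Dm _ _ hy) (Subring.neg_mem _ hx)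
  refine ⟨?_, hy0⟩
  rw [hy0, zero_mul, add_zero] at h
  exact h

theorem conj_mem (m : ℕ) (x : D) (hx : x ∈ Y.Dm m) :
    Y.u (m + 1) * x * (Y.u (m + 1))⁻¹ ∈ Y.Dm m := by
  have hu := Y.u_ne (m + 1)
  induction hx using Subring.closure_induction with
  | mem x hx =>
    rcases hx with ⟨x, rfl⟩ | hx
    · rw [Y.u_mul, mul_assoc, mul_inv_cancel₀ hu, mul_one]
      exact Y.ι_mem_Dm _ _
    · have : Y.u (m + 1) * x * (Y.u (m + 1))⁻¹ =
          Y.ι (X.g (m + 1) (X.c m)⁻¹) * Y.u (m + 1) ^ 2 := by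
        rw [Set.mem_singleton_iff.1 hx, Y.u_eq m, ← mul_assoc, Y.u_mul, mul_assoc, mul_assoc,
          ← mul_assoc (Y.u (m + 1)), ← pow_succ', pow_succ, mul_assoc, mul_inv_cancel₀ hu, mul_one]
      rw [this]
      exact Subring.mul_mem _ (Y.ι_mem_Dm _ _) (Y.sq_mem m)
  | zero => simp
  | one => rw [mul_one, mul_inv_cancel₀ hu]; exact Subring.one_mem _
  | add x y _ _ hx hy => rw [mul_add, add_mul]; exact Subring.add_mem _ hx hy
  | neg x _ hx => rw [mul_neg, neg_mul]; exact Subring.neg_mem _ hx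
  | mul x y _ _ hx hy =>
    have : Y.u (m + 1) * (x * y) * (Y.u (m + 1))⁻¹ =
        (Y.u (m + 1) * x * (Y.u (m + 1))⁻¹) * (Y.u (m + 1) * y * (Y.u (m + 1))⁻¹) := by
      simp only [mul_assoc, inv_mul_cancel_left₀ hu]
    rw [this]
    exact Subring.mul_mem _ hx hy

theorem ι_mem_iff_center (m : ℕ) (d : D) (hd : d ∈ Y.Dm m) (h : ∀ x ∈ Y.Dm m, d * x = x * d) :
    ∃ z ∈ X.Z m, d = Y.ι z := by
  obtain ⟨x, hx⟩ := (Y.mem_Dm_iff _ _).1 hd
  obtain ⟨z0, hz0, hz0F⟩ := X.exists_Kf_zero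
  have h1 := h _ (Y.ι_mem_Dm m z0)
  have h2 : ∑ i ∈ range (2 ^ m), Y.ι (x i * ((⇑(X.g m))^[i] z0 - z0)) * Y.u m ^ i = 0 := by
    have e1 : d * Y.ι z0 = ∑ i ∈ range (2 ^ m), Y.ι (x i * (⇑(X.g m))^[i] z0) * Y.u m ^ i := by
      rw [hx, sum_mul]
      exact sum_congr rfl fun i _ => by rw [mul_assoc, Y.u_pow_mul, ← mul_assoc, ← map_mul]
    have e2 : Y.ι z0 * d = ∑ i ∈ range (2 ^ m), Y.ι (x i * z0) * Y.u m ^ i := by
      rw [hx, mul_sum]
      exact sum_congr rfl fun i _ => by rw [← mul_assoc, ← map_mul, mul_comm z0]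
    rw [e1, e2] at h1
    simp only [mul_sub, map_sub, sub_mul, sum_sub_distrib]
    rw [h1, sub_self]
  have h3 := Y.coeff_zero m _ h2
  have h4 : ∀ i, i < 2 ^ m → 0 < i → x i = 0 := by
    intro i hi hi0
    rcases mul_eq_zero.1 (h3 i hi) with h5 | h5
    · exact h5
    · exact absurd (sub_eq_zero.1 h5) (X.g_faithful m i hi0 hi z0 hz0 hz0F)
  have h5 : d = Y.ι (x 0) := by
    rw [hx, sum_eq_single 0]
    · simp
    · intro i hi hi0
      rw [h4 i (mem_range.1 hi) (Nat.pos_of_ne_zero hi0), map_zero, zero_mul]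
    · intro h
      exact absurd (mem_range.2 (by positivity)) h
  refine ⟨x 0, ?_, h5⟩
  rw [X.mem_Z]
  have h6 := h _ (Y.u_mem_Dm m)
  rw [h5, Y.u_mul] at h6
  exact (Y.ι_inj (mul_right_cancel₀ (Y.u_ne m) h6)).symm

theorem center_eq (d : D) (h : ∀ x : D, d * x = x * d) : ∃ c ∈ X.F, d = Y.ι c := by
  obtain ⟨m, hm⟩ := Y.exists_DK d
  have hm' := Y.DK_le_Dm m hm
  obtain ⟨z, hz, rfl⟩ := Y.ι_mem_iff_center m d hm' fun x _ => h x
  refine ⟨z, ?_, rfl⟩
  apply X.mem_F_of_g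
  intro n
  rcases le_total n m with hn | hn
  · exact (X.mem_Z n z).1 (X.Z_anti' hn hz)
  · obtain ⟨z', hz', he⟩ := Y.ι_mem_iff_center n (Y.ι z) (Y.ι_mem_Dm n z) fun x _ => h x
    rw [Y.ι_inj he]
    exact (X.mem_Z n z').1 hz'

theorem F_central (c : K) (hc : c ∈ X.F) (d : D) : Y.ι c * d = d * Y.ι c := by
  obtain ⟨m, hm⟩ := Y.exists_DK d
  exact Y.Z_comm m (X.F_le_Z m hc) (Y.DK_le_Dm m hm)

theorem ι_mem_Dm_Z (m n : ℕ) (x : K) (d : D) (hx : x ∈ X.Z m) (hn : n ≤ m) (hd : d ∈ Y.Dm n) :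
    Y.ι x * d = d * Y.ι x := Y.Z_comm m hx (Y.Dm_mono hn hd)

instance finiteDimensional (m : ℕ) : FiniteDimensional (X.Z m) (Y.Dm m) := by
  have _i := X.finiteDimensional_Z m
  let f : (Fin (2 ^ m) → K) →ₗ[X.Z m] Y.Dm m :=
    { toFun := fun x => ⟨∑ i : Fin (2 ^ m), Y.ι (x i) * Y.u m ^ (i : ℕ),
        Subring.sum_mem _ fun i _ => Subring.mul_mem _ (Y.ι_mem_Dm _ _)
          (Subring.pow_mem _ (Y.u_mem_Dm _) _)⟩
      map_add' := fun x y => Subtype.ext (by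
        simp only [Pi.add_apply, map_add, add_mul, sum_add_distrib]; rfl)
      map_smul' := fun c x => Subtype.ext (by
        rw [RingHom.id_apply, Y.algZ_smul]
        simp only [Pi.smul_apply, mul_sum]
        refine sum_congr rfl fun i _ => ?_
        rw [← mul_assoc, ← map_mul]
        rfl) }
  refine Module.Finite.of_surjective f ?_
  rintro ⟨d, hd⟩
  obtain ⟨x, rfl⟩ := (Y.mem_Dm_iff _ _).1 hd
  refine ⟨fun i => x i, Subtype.ext ?_⟩
  change ∑ i : Fin (2 ^ m), Y.ι (x i) * Y.u m ^ (i : ℕ) = _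
  exact (Finset.sum_range (fun i => Y.ι (x i) * Y.u m ^ i)).symm

/-- leading term of an element of `D_m` -/
theorem leading (m : ℕ) (d : D) (hd : d ∈ Y.Dm m) (h0 : d ≠ 0) :
    ∃ i : ℕ, i < 2 ^ m ∧ ∃ x : K, x ≠ 0 ∧ Y.w d = X.v x + (((i : ℚ) / 2 ^ m : ℚ) : WithTop ℚ) ∧
      Y.w d < Y.w (d - Y.ι x * Y.u m ^ i) := by
  obtain ⟨x, rfl⟩ := (Y.mem_Dm_iff _ _).1 hd
  have h := Y.w_sum m x
  obtain ⟨i, hi, h2⟩ := Finset.exists_mem_eq_inf (range (2 ^ m)) (by simp)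
    (fun i => X.v (x i) + (((i : ℚ) / 2 ^ m : ℚ) : WithTop ℚ))
  have h' := h
  rw [h2] at h'
  have hx : x i ≠ 0 := by
    intro hx
    rw [hx, AddValuation.map_zero, top_add] at h'
    exact h0 (Y.w_eq_top h')
  refine ⟨i, mem_range.1 hi, x i, hx, h', ?_⟩
  have h3 : ∑ j ∈ range (2 ^ m), Y.ι (x j) * Y.u m ^ j - Y.ι (x i) * Y.u m ^ i =
      ∑ j ∈ range (2 ^ m), Y.ι (Function.update x i 0 j) * Y.u m ^ j := by
    rw [← Finset.add_sum_erase _ _ hi, ← Finset.add_sum_erase (range (2 ^ m)) (fun j =>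
      Y.ι (Function.update x i 0 j) * Y.u m ^ j) hi]
    rw [Function.update_self, map_zero, zero_mul, zero_add, add_sub_cancel_left]
    refine sum_congr rfl fun j hj => ?_
    rw [Function.update_of_ne (Finset.ne_of_mem_erase hj)]
  rw [h3, Y.w_sum m (Function.update x i 0), h']
  obtain ⟨n, hn⟩ := X.v_int _ hx
  have hlt : X.v (x i) + (((i : ℚ) / 2 ^ m : ℚ) : WithTop ℚ) < ⊤ := by
    rw [hn, ← WithTop.coe_add]
    exact WithTop.coe_lt_top _
  rw [Finset.lt_inf_iff hlt]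
  intro j hj
  rcases eq_or_ne j i with rfl | hji
  · rw [Function.update_self, AddValuation.map_zero, top_add]
    exact hlt
  · rw [Function.update_of_ne hji]
    refine lt_of_le_of_ne ?_ ?_
    · rw [← h2]
      exact Finset.inf_le hj
    · intro heq
      have hxj : x j ≠ 0 := by
        intro hxj
        rw [hxj, AddValuation.map_zero, top_add] at heq
        exact absurd heq hlt.ne
      obtain ⟨n', hn'⟩ := X.v_int _ hxj
      rw [hn, hn', ← WithTop.coe_add, ← WithTop.coe_add] at heq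
      have h4 := WithTop.coe_injective heq
      have h5 : (n : ℚ) * 2 ^ m + i = n' * 2 ^ m + j := by
        field_simp at h4
        linarith
      have h6 : n * 2 ^ m + i = n' * 2 ^ m + j := by exact_mod_cast h5
      have h7 : ((i : ℤ)) % (2 ^ m : ℤ) = (j : ℤ) % (2 ^ m : ℤ) := by
        have e1 : (n * 2 ^ m + i) % (2 ^ m : ℤ) = (i : ℤ) % (2 ^ m : ℤ) := by
          rw [add_comm, Int.add_mul_emod_self_right]
        have e2 : (n' * 2 ^ m + j) % (2 ^ m : ℤ) = (j : ℤ) % (2 ^ m : ℤ) := by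
          rw [add_comm, Int.add_mul_emod_self_right]
        rw [← e1, ← e2, h6]
      have hi' : (i : ℤ) < 2 ^ m := by exact_mod_cast mem_range.1 hi
      have hj' : (j : ℤ) < 2 ^ m := by exact_mod_cast mem_range.1 hj
      rw [Int.emod_eq_of_lt (by positivity) hi', Int.emod_eq_of_lt (by positivity) hj'] at h7
      exact hji (by exact_mod_cast h7.symm)

theorem u_pow_eq (m i : ℕ) : ∃ C : K, X.v C = 0 ∧ Y.u m ^ i = Y.ι C * Y.u (m + 1) ^ (2 * i) := by
  induction i with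
  | zero => exact ⟨1, by simp, by simp⟩
  | succ i ih =>
    obtain ⟨C, hC, h⟩ := ih
    refine ⟨C * (⇑(X.g (m + 1)))^[2 * i] (X.c m)⁻¹, ?_, ?_⟩
    · rw [AddValuation.map_mul, hC, v_iter, zero_add]
      have h1 : X.v (X.c m)⁻¹ + X.v (X.c m) = 0 := by
        rw [← AddValuation.map_mul, inv_mul_cancel₀ (c_ne X m), AddValuation.map_one]
      rwa [X.v_c, add_zero] at h1
    · rw [pow_succ, h, Y.u_eq m, mul_assoc, ← mul_assoc (Y.u (m + 1) ^ (2 * i)), Y.u_pow_mul,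
        map_mul, mul_add, mul_one, pow_add]
      simp only [mul_assoc]

/-- leading term of an element of `D_m u_{m+1}` : the index is odd -/
theorem leading_odd (m : ℕ) (d : D) (hd : d ∈ Y.Dm m) (h0 : d ≠ 0) :
    ∃ i : ℕ, i < 2 ^ (m + 1) ∧ Odd i ∧ ∃ x : K, x ≠ 0 ∧
      Y.w (d * Y.u (m + 1)) = X.v x + (((i : ℚ) / 2 ^ (m + 1) : ℚ) : WithTop ℚ) ∧
      Y.w (d * Y.u (m + 1)) < Y.w (d * Y.u (m + 1) - Y.ι x * Y.u (m + 1) ^ i) := by
  obtain ⟨i, hi, x, hx, h1, h2⟩ := Y.leading m d hd h0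
  obtain ⟨C, hC, hu⟩ := Y.u_pow_eq m i
  have hC0 : C ≠ 0 := by
    rintro rfl
    rw [AddValuation.map_zero] at hC
    exact absurd hC (by simp)
  refine ⟨2 * i + 1, by rw [pow_succ]; omega, ⟨i, rfl⟩, x * C, mul_ne_zero hx hC0, ?_, ?_⟩
  · rw [AddValuation.map_mul, h1, Y.w_u, AddValuation.map_mul, hC, add_zero, add_assoc,
      ← WithTop.coe_add]
    congr 2
    push_cast
    field_simp
    try ring
  · have h3 : d * Y.u (m + 1) - Y.ι (x * C) * Y.u (m + 1) ^ (2 * i + 1) =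
        (d - Y.ι x * Y.u m ^ i) * Y.u (m + 1) := by
      rw [sub_mul, hu, pow_succ, map_mul]
      simp only [mul_assoc]
    rw [h3, AddValuation.map_mul, AddValuation.map_mul, Y.w_u]
    exact WithTop.add_lt_add_right (by simp) h2

/-- an element of integral value is approximated by an element of `K` -/
theorem approx_K (d : D) (n : ℤ) (hd : Y.w d = ((n : ℚ) : WithTop ℚ)) :
    ∃ x : K, X.v x = ((n : ℚ) : WithTop ℚ) ∧ ((n : ℚ) : WithTop ℚ) < Y.w (d - Y.ι x) := by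
  obtain ⟨m, hm⟩ := Y.exists_DK d
  have hm' := Y.DK_le_Dm m hm
  have h0 : d ≠ 0 := by
    rintro rfl
    rw [AddValuation.map_zero] at hd
    exact absurd hd (by simp)
  obtain ⟨i, hi, x, hx, h1, h2⟩ := Y.leading m d hm' h0
  obtain ⟨n', hn'⟩ := X.v_int _ hx
  have hi0 : i = 0 := by
    rw [hd, hn', ← WithTop.coe_add] at h1
    have h4 := WithTop.coe_injective h1
    have h5 : (n : ℚ) * 2 ^ m = n' * 2 ^ m + i := by
      field_simp at h4
      linarith
    have h6 : n * 2 ^ m = n' * 2 ^ m + i := by exact_mod_cast h5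
    have h7 : ((i : ℤ)) % (2 ^ m : ℤ) = 0 := by
      have : (i : ℤ) = (n - n') * 2 ^ m := by linarith
      rw [this]
      exact Int.mul_emod_left _ _
    have hi' : (i : ℤ) < 2 ^ m := by exact_mod_cast hi
    rw [Int.emod_eq_of_lt (by positivity) hi'] at h7
    exact_mod_cast h7
  subst hi0
  refine ⟨x, ?_, ?_⟩
  · rw [← hd, h1]
    simp
  · rw [← hd]
    simpa using h2

end DD

end Pool.Agent.Helper91.DV
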