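import Pool.Agent.Helper91.DV.Defs

/-!
# MP_5766af_al : module C0K, basics on the K-level data
-/

set_option autoImplicit false

open Finset

namespace Pool.Agent.Helper91.DV

variable {K : Type} [Field K] [CharZero K]

namespace KD

theorem g_iter (X : KD K) (m n : ℕ) (x : K) : (⇑(X.g (m + n)))^[2 ^ n] x = X.g m x := by
  induction n with
  | zero => rfl
  | succ n ih =>
    have h2 : (⇑(X.g (m + (n + 1))))^[2] = ⇑(X.g (m + n)) := by
      funext y
      exact X.g_succ (m + n) y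
    rw [pow_succ, mul_comm, Function.iterate_mul, h2, ih]

theorem g_order (X : KD K) (m : ℕ) (x : K) : (⇑(X.g m))^[2 ^ m] x = x := by
  have h := X.g_iter 0 m x
  rwa [Nat.zero_add, X.g_zero] at h

theorem Z_anti (X : KD K) (m : ℕ) : X.Z (m + 1) ≤ X.Z m := by
  intro x hx
  rw [X.mem_Z] at hx ⊢
  have h := X.g_succ m x
  rw [hx, hx] at h
  exact h.symm

theorem Z_anti' (X : KD K) {m n : ℕ} (h : m ≤ n) : X.Z n ≤ X.Z m :=
  antitone_nat_of_succ_le X.Z_anti h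

theorem F_le_Z (X : KD K) (m : ℕ) : X.F ≤ X.Z m := fun x hx => X.g_F m x hx

theorem Kf_mono' (X : KD K) {m n : ℕ} (h : m ≤ n) : X.Kf m ≤ X.Kf n :=
  monotone_nat_of_le_succ X.Kf_mono h

/-- elements of `K_m \ F` are moved by `g (m + 1)` -/
theorem g_ne (X : KD K) (m : ℕ) (z : K) (hz : z ∈ X.Kf m) (hF : z ∉ X.F) :
    X.g (m + 1) z ≠ z := by
  intro h
  have h3 := X.F3 m z hz hF
  rw [h] at h3
  exact h3 (isAlgebraic_algebraMap (⟨z, hz⟩ : X.Kf m))

theorem mem_F_of_g (X : KD K) (x : K) (h : ∀ m, X.g m x = x) : x ∈ X.F := by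
  obtain ⟨m, hm⟩ := X.Kf_exh x
  by_contra hF
  exact X.g_ne m x hm hF (h (m + 1))

theorem a_not_mem_F (X : KD K) (m : ℕ) : X.a m ∉ X.F := by
  intro h
  have h0 : X.a m ≠ 0 := by
    intro h0
    have h1 := X.v_a m
    rw [h0, AddValuation.map_zero] at h1
    exact absurd h1 (by simp)
  obtain ⟨n, hn⟩ := X.v_F _ h h0
  rw [X.v_a m] at hn
  have h2 : (1 : ℚ) = 2 * (n : ℚ) := by
    have h3 : ((1 : ℚ) : WithTop ℚ) = ((2 * (n : ℚ) : ℚ) : WithTop ℚ) := by
      rw [← hn]; rfl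
    exact_mod_cast h3
  have h4 : (1 : ℤ) = 2 * n := by exact_mod_cast h2
  omega

theorem exists_Kf_zero (X : KD K) : ∃ z ∈ X.Kf 0, z ∉ X.F := ⟨X.a 0, X.a_mem 0, X.a_not_mem_F 0⟩

/-- an odd power of `g m`, `m ≥ 1`, moves every element of `K_{m-1} \ F` -/
theorem g_odd_ne (X : KD K) (m : ℕ) (i : ℕ) (hi : Odd i) (z : K) (hz : z ∈ X.Kf m) (hF : z ∉ X.F) :
    (⇑(X.g (m + 1)))^[i] z ≠ z := by
  intro h
  have h1 : Function.IsPeriodicPt (⇑(X.g (m + 1))) i z := h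
  have h2 : Function.IsPeriodicPt (⇑(X.g (m + 1))) (2 ^ (m + 1)) z := X.g_order (m + 1) z
  have h3 := h1.gcd h2
  have h4 : Nat.gcd i (2 ^ (m + 1)) = 1 := by
    have : Nat.Coprime i 2 := Nat.coprime_two_right.2 hi
    exact this.pow_right _
  rw [h4] at h3
  exact X.g_ne m z hz hF h3

/-- elements of `K_0 \ F` have trivial stabilizer -/
theorem g_faithful (X : KD K) (m i : ℕ) (hi : 0 < i) (hi2 : i < 2 ^ m) (z : K) (hz : z ∈ X.Kf 0)
    (hF : z ∉ X.F) : (⇑(X.g m))^[i] z ≠ z := by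
  obtain ⟨s, o, ho, rfl⟩ := Nat.exists_eq_two_pow_mul_odd hi.ne'
  have hs : s < m := by
    by_contra hcon
    push Not at hcon
    have h1 : 2 ^ m ≤ 2 ^ s := Nat.pow_le_pow_right (by norm_num) hcon
    have h2 : 2 ^ s ≤ 2 ^ s * o := Nat.le_mul_of_pos_right _ ho.pos
    omega
  obtain ⟨k, rfl⟩ : ∃ k, m = (k + 1) + s := ⟨m - s - 1, by omega⟩
  have h2 : (⇑(X.g (k + 1 + s)))^[2 ^ s] = ⇑(X.g (k + 1)) := by
    funext y
    exact X.g_iter (k + 1) s y
  rw [Function.iterate_mul, h2]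
  exact X.g_odd_ne k o ho z (X.Kf_mono' (Nat.zero_le k) hz) hF

theorem exists_Z (X : KD K) (m : ℕ) : ∃ z, z ∈ X.Z m ∧ z ∈ X.Kf m ∧ z ∉ X.F :=
  ⟨X.a m, X.g_a m, X.a_mem m, X.a_not_mem_F m⟩

theorem exists_Z_not (X : KD K) (m : ℕ) : ∃ z, z ∈ X.Z m ∧ z ∉ X.Z (m + 1) :=
  ⟨X.a m, X.g_a m, fun h => X.g_ne m _ (X.a_mem m) (X.a_not_mem_F m) h⟩

theorem finiteDimensional_Z (X : KD K) (m : ℕ) : FiniteDimensional (X.Z m) K := by
  let G : Subgroup (RingAut K) := Subgroup.zpowers (X.g m : RingAut K)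
  have hpow : ∀ (i : ℕ) (x : K), ((X.g m : RingAut K) ^ i) x = (⇑(X.g m))^[i] x := by
    intro i
    induction i with
    | zero => intro x; rfl
    | succ i ih =>
      intro x
      rw [pow_succ, Function.iterate_succ_apply, ← ih]
      rfl
  have hfin : IsOfFinOrder (X.g m : RingAut K) := by
    rw [isOfFinOrder_iff_pow_eq_one]
    refine ⟨2 ^ m, by positivity, ?_⟩
    ext x
    rw [hpow]
    exact X.g_order m x
  have : Finite G := (finite_zpowers.2 hfin).to_subtype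
  have h : FixedPoints.subfield G K = X.Z m := by
    ext x
    constructor
    · intro hx
      exact hx ⟨X.g m, Subgroup.mem_zpowers _⟩
    · intro hx g
      have h1 : (X.g m : RingAut K) ∈ MulAction.stabilizer (RingAut K) x := hx
      have h2 : G ≤ MulAction.stabilizer (RingAut K) x := (Subgroup.zpowers_le).2 h1
      exact h2 g.2
  rw [← h]
  infer_instance

end KD

end Pool.Agent.Helper91.DV
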