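import Pool.Agent.Helper91.DV.C0D

/-!
# MODULE C1 : elements of `D` algebraic over `F` lie in `F`
-/

set_option autoImplicit false
open Finset
namespace Pool.Agent.Helper91.DV

variable {K : Type} [Field K] [CharZero K] {X : KD K} {D : Type} [DivisionRing D] (Y : DD X D)

namespace C1

/-- local algebra structure -/
@[reducible] noncomputable def algF (Y : DD X D) : Algebra X.F D :=
  RingHom.toAlgebra' (Y.ι.comp X.F.subtype) (fun c d => Y.F_central c c.2 d)

/-- `e` is killed by a nonzero polynomial over `F` -/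
def Alg (Y : DD X D) (e : D) : Prop :=
  ∃ q : Polynomial K, q ≠ 0 ∧ (∀ i, q.coeff i ∈ X.F) ∧ q.eval₂ Y.ι e = 0

theorem alg_of_isIntegral (Y : DD X D) (e : D) (h : letI := algF Y; IsIntegral X.F e) : Alg Y e := by
  let _ := algF Y
  obtain ⟨q, hq, he⟩ := h
  refine ⟨q.map X.F.subtype, ?_, ?_, ?_⟩
  · exact (hq.map X.F.subtype).ne_zero
  · intro i
    rw [Polynomial.coeff_map]
    exact (q.coeff i).2
  · rw [Polynomial.eval₂_map]
    exact he

theorem isIntegral_of_alg (Y : DD X D) (e : D) (h : Alg Y e) : letI := algF Y; IsIntegral X.F e := by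
  let _ := algF Y
  obtain ⟨q, hq, hF, he⟩ := h
  have hlift : q ∈ Polynomial.lifts X.F.subtype := by
    rw [Polynomial.lifts_iff_coeff_lifts]
    intro i
    exact ⟨⟨q.coeff i, hF i⟩, rfl⟩
  obtain ⟨r, hr⟩ := hlift
  have hr' : r.map X.F.subtype = q := hr
  have hr0 : r ≠ 0 := by
    intro h0
    rw [h0, Polynomial.map_zero] at hr'
    exact hq hr'.symm
  have hre : r.eval₂ (algebraMap X.F D) e = 0 := by
    have : q.eval₂ Y.ι e = r.eval₂ (Y.ι.comp X.F.subtype) e := by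
      rw [← hr', Polynomial.eval₂_map]
    rw [he] at this
    exact this.symm
  exact (isAlgebraic_iff_isIntegral.1 ⟨r, hr0, hre⟩)

/-- the normalised polynomial: coefficients of value `≥ 0`, one of value `0` -/
theorem normalise (q : Polynomial K) (hq : q ≠ 0) (hF : ∀ i, q.coeff i ∈ X.F) :
    ∃ c ∈ X.F, c ≠ 0 ∧ (∀ i, 0 ≤ X.v (c * q.coeff i)) ∧ ∃ i, X.v (c * q.coeff i) = 0 := by
  classical
  obtain ⟨i0, hi0, hmin⟩ := Finset.exists_min_image q.support (fun i => X.v (q.coeff i))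
    (Polynomial.support_nonempty.2 hq)
  have hne : q.coeff i0 ≠ 0 := Polynomial.mem_support_iff.1 hi0
  refine ⟨(q.coeff i0)⁻¹, X.F.inv_mem (hF i0), inv_ne_zero hne, ?_, i0, ?_⟩
  · intro i
    by_cases hi : q.coeff i = 0
    · rw [hi, mul_zero, AddValuation.map_zero]; exact le_top
    · have h1 : X.v (q.coeff i0) ≤ X.v (q.coeff i) := hmin i (Polynomial.mem_support_iff.2 hi)
      have h2 : X.v (q.coeff i) = X.v (q.coeff i0) + X.v ((q.coeff i0)⁻¹ * q.coeff i) := by
        rw [← AddValuation.map_mul, mul_inv_cancel_left₀ hne]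
      obtain ⟨n, hn⟩ := X.v_int _ hne
      rw [h2, hn] at h1
      generalize X.v ((q.coeff i0)⁻¹ * q.coeff i) = t at h1
      cases t with
      | top => exact le_top
      | coe t =>
        norm_cast at h1 ⊢
        linarith
  · rw [inv_mul_cancel₀ hne, AddValuation.map_one]

theorem wt_add_pos {a b : WithTop ℚ} (ha : 0 ≤ a) (hb : 0 < b) : 0 < a + b := by
  cases a with
  | top => simp
  | coe a =>
    cases b with
    | top => simp
    | coe b =>
      norm_cast at ha hb ⊢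
      linarith

theorem wt1 (t : WithTop ℚ) (ht : 1 < t) : 2 < 1 + t := by
  cases t with
  | top => exact WithTop.coe_lt_top (2 : ℚ)
  | coe t =>
    have h1 : (1 : ℚ) < t := WithTop.coe_lt_coe.1 ht
    have h2 : ((2 : ℚ) : WithTop ℚ) < ((1 + t : ℚ) : WithTop ℚ) :=
      WithTop.coe_lt_coe.2 (by linarith)
    exact h2

theorem wt2 (t : WithTop ℚ) (ht : 2 < t) : 0 < t + ((-2 : ℚ) : WithTop ℚ) := by
  cases t with
  | top => exact WithTop.coe_lt_top (0 : ℚ)
  | coe t =>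
    have h1 : (2 : ℚ) < t := WithTop.coe_lt_coe.1 ht
    have h2 : ((0 : ℚ) : WithTop ℚ) < ((t + (-2) : ℚ) : WithTop ℚ) :=
      WithTop.coe_lt_coe.2 (by linarith)
    exact h2

theorem wt3 (t : WithTop ℚ) (ht : 0 < t) : 2 < t + 2 := by
  cases t with
  | top => exact WithTop.coe_lt_top (2 : ℚ)
  | coe t =>
    have h1 : (0 : ℚ) < t := WithTop.coe_lt_coe.1 ht
    have h2 : ((2 : ℚ) : WithTop ℚ) < ((t + 2 : ℚ) : WithTop ℚ) :=
      WithTop.coe_lt_coe.2 (by linarith)
    exact h2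

theorem lemmaL (e : D) (he : Alg Y e) (l : K) (hl : X.v l = 0) (hel : 0 < Y.w (e - Y.ι l)) :
    ∃ c ∈ X.F, 0 < X.v (l - c) := by
  obtain ⟨q, hq, hF, hqe⟩ := he
  obtain ⟨c, hc, hc0, hnn, i0, hi0⟩ := normalise q hq hF
  have hq' : ∀ i, (Polynomial.C c * q).coeff i = c * q.coeff i := fun i => by
    rw [Polynomial.coeff_C_mul]
  refine X.A1 l hl (Polynomial.C c * q) ?_ ?_ ⟨i0, ?_⟩ ?_
  · intro i; rw [hq']; exact X.F.mul_mem hc (hF i)
  · intro i; rw [hq']; exact hnn i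
  · rw [hq']; exact hi0
  · -- 0 < v (q l)
    have hwe : Y.w e = 0 := by
      have h1 : Y.w (Y.ι l) = 0 := by rw [Y.w_ι, hl]
      have h2 : e = Y.ι l + (e - Y.ι l) := by abel
      rw [h2, AddValuation.map_add_eq_of_lt_left Y.w (by rw [h1]; exact hel), h1]
    have hpow : ∀ n : ℕ, 0 < Y.w (e ^ n - Y.ι l ^ n) := by
      intro n
      induction n with
      | zero => simp
      | succ n ih =>
        have : e ^ (n + 1) - Y.ι l ^ (n + 1) = e ^ n * (e - Y.ι l) + (e ^ n - Y.ι l ^ n) * Y.ι l := by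
          rw [pow_succ, pow_succ]; noncomm_ring
        rw [this]
        refine AddValuation.map_lt_add Y.w ?_ ?_
        · rw [AddValuation.map_mul, AddValuation.map_pow, hwe, smul_zero, zero_add]; exact hel
        · rw [AddValuation.map_mul, Y.w_ι, hl, add_zero]; exact ih
    have hev : (Polynomial.C c * q).eval₂ Y.ι e = 0 := by
      rw [Polynomial.eval₂_eq_sum_range]
      have : ∑ i ∈ range ((Polynomial.C c * q).natDegree + 1), Y.ι ((Polynomial.C c * q).coeff i) * e ^ i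
          = Y.ι c * ∑ i ∈ range (q.natDegree + 1), Y.ι (q.coeff i) * e ^ i := by
        rw [Polynomial.natDegree_C_mul hc0, Finset.mul_sum]
        refine Finset.sum_congr rfl (fun i _ => ?_)
        rw [hq', map_mul, mul_assoc]
      rw [this, ← Polynomial.eval₂_eq_sum_range, hqe, mul_zero]
    have hkey : Y.ι ((Polynomial.C c * q).eval l) =
        - ∑ i ∈ range ((Polynomial.C c * q).natDegree + 1),
          Y.ι ((Polynomial.C c * q).coeff i) * (e ^ i - Y.ι l ^ i) := by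
      rw [Polynomial.eval_eq_sum_range, map_sum]
      have h3 := hev
      rw [Polynomial.eval₂_eq_sum_range] at h3
      rw [← sub_zero (∑ x ∈ _, _), ← h3, ← Finset.sum_sub_distrib, ← Finset.sum_neg_distrib]
      refine Finset.sum_congr rfl (fun i _ => ?_)
      rw [map_mul, map_pow]; noncomm_ring
    rw [← Y.w_ι, hkey, AddValuation.map_neg]
    refine AddValuation.map_lt_sum Y.w (by simp) (fun i _ => ?_)
    rw [AddValuation.map_mul, Y.w_ι, hq']
    have h4 := hnn i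
    have h5 := hpow i
    exact wt_add_pos h4 h5

omit [CharZero K] in
theorem v_zpow (v : AddValuation K (WithTop ℚ)) (x : K) (q : ℚ) (hx : v x = ((q : ℚ) : WithTop ℚ))
    (hx0 : x ≠ 0) (n : ℤ) : v (x ^ n) = (((n : ℚ) * q : ℚ) : WithTop ℚ) := by
  have hnat : ∀ k : ℕ, v (x ^ k) = (((k : ℚ) * q : ℚ) : WithTop ℚ) := by
    intro k
    induction k with
    | zero => simp [AddValuation.map_one]
    | succ k ih =>
      rw [pow_succ, AddValuation.map_mul, ih, hx, ← WithTop.coe_add]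
      congr 1
      push_cast; ring
  cases n with
  | ofNat k => 
    have := hnat k
    simpa using this
  | negSucc k =>
    have h1 := hnat (k + 1)
    have h2 : v (x ^ (Int.negSucc k)) + v (x ^ (k + 1)) = 0 := by
      rw [← AddValuation.map_mul, zpow_negSucc, inv_mul_cancel₀ (pow_ne_zero _ hx0),
        AddValuation.map_one]
    rw [h1] at h2
    generalize v (x ^ (Int.negSucc k)) = t at h2 ⊢
    cases t with
    | top => simp at h2
    | coe t =>
      norm_cast at h2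
      congr 1
      push_cast at h2 ⊢
      linarith

theorem dyadic (m : ℕ) : ∀ r : ℤ, (∃ n : ℤ, (r : ℚ) / 2 ^ m = 2 * n) ∨
    (∃ (j : ℕ) (s : ℤ), Odd s ∧ (r : ℚ) / 2 ^ m * 2 ^ j = s) := by
  induction m with
  | zero =>
    intro r
    rcases Int.even_or_odd' r with ⟨k, hk | hk⟩
    · left; exact ⟨k, by rw [hk]; push_cast; ring⟩
    · right; exact ⟨0, r, ⟨k, hk⟩, by simp⟩
  | succ m ih =>
    intro r
    rcases Int.even_or_odd' r with ⟨k, hk | hk⟩
    · have : (r : ℚ) / 2 ^ (m + 1) = (k : ℚ) / 2 ^ m := by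
        rw [hk]; push_cast; rw [pow_succ]; field_simp
      rw [this]; exact ih k
    · right; refine ⟨m + 1, r, ⟨k, hk⟩, ?_⟩
      field_simp

end C1

open C1 in
theorem DD.alg_F (y : D) (p : Polynomial K) (hp : p ≠ 0) (hpF : ∀ i, p.coeff i ∈ X.F)
    (h : p.eval₂ Y.ι y = 0) : ∃ c ∈ X.F, y = Y.ι c := by
  classical
  let _ := algF Y
  have hyint : IsIntegral X.F y := isIntegral_of_alg Y y ⟨p, hp, hpF, h⟩
  -- the algebra `E = F[y]`
  let E : Subalgebra X.F D := Algebra.adjoin X.F {y}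
  have hE : ∀ e ∈ E, Alg Y e := fun e he =>
    alg_of_isIntegral Y e (IsIntegral.of_mem_of_fg E hyint.fg_adjoin_singleton e he)
  have hyE : y ∈ E := Algebra.subset_adjoin rfl
  have hFE : ∀ c ∈ X.F, Y.ι c ∈ E := fun c hc => E.algebraMap_mem ⟨c, hc⟩
  have hϖ0 : X.ϖ ≠ 0 := by
    intro h0
    have := X.v_ϖ
    rw [h0, AddValuation.map_zero] at this
    exact absurd this (by decide)
  -- zpow of ϖ
  have hzF : ∀ n : ℤ, X.ϖ ^ n ∈ X.F := fun n => X.F.zpow_mem X.ϖ_mem n
  have hvz : ∀ n : ℤ, X.v (X.ϖ ^ n) = (((2 * n : ℤ) : ℚ) : WithTop ℚ) := by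
    intro n
    rw [v_zpow X.v X.ϖ 2 (by rw [X.v_ϖ]; rfl) hϖ0 n]
    congr 1
    push_cast; ring
  -- (1) no element of value 1
  have h1 : ∀ e ∈ E, Y.w e ≠ 1 := by
    intro e he hw
    obtain ⟨μ, hμ, hμe⟩ := Y.approx_K e 1 (by rw [hw]; norm_cast)
    have hμ1 : X.v μ = 1 := by rw [hμ]; norm_cast
    have hμe1 : 1 < Y.w (e - Y.ι μ) := by
      refine lt_of_eq_of_lt ?_ hμe
      norm_cast
    have hv1 : X.v (X.ϖ⁻¹) = ((-2 : ℚ) : WithTop ℚ) := by
      have := hvz (-1)
      rw [zpow_neg_one] at this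
      rw [this]; norm_cast
    have hsq : 2 < Y.w (e * e - Y.ι (μ ^ 2)) := by
      have : e * e - Y.ι (μ ^ 2) = e * (e - Y.ι μ) + (e - Y.ι μ) * Y.ι μ := by
        rw [map_pow, pow_two]; noncomm_ring
      rw [this]
      refine AddValuation.map_lt_add Y.w ?_ ?_
      · rw [AddValuation.map_mul, hw]; exact wt1 _ hμe1
      · rw [AddValuation.map_mul, Y.w_ι, hμ1, add_comm]; exact wt1 _ hμe1
    obtain ⟨c, hc, hlc⟩ := lemmaL Y (e * e * Y.ι (X.ϖ⁻¹))
      (hE _ (E.mul_mem (E.mul_mem he he) (hFE _ (X.F.inv_mem X.ϖ_mem)))) (μ ^ 2 * X.ϖ⁻¹)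
      (by
        rw [AddValuation.map_mul, pow_two, AddValuation.map_mul, hμ1, hv1]
        have : (((1 + 1 + (-2) : ℚ)) : WithTop ℚ) = ((0 : ℚ) : WithTop ℚ) := by norm_num
        exact this)
      (by
        have : e * e * Y.ι (X.ϖ⁻¹) - Y.ι (μ ^ 2 * X.ϖ⁻¹) = (e * e - Y.ι (μ ^ 2)) * Y.ι (X.ϖ⁻¹) := by
          rw [map_mul]; noncomm_ring
        rw [this, AddValuation.map_mul, Y.w_ι, hv1]
        exact wt2 _ hsq)
    apply X.A2 μ hμ1 c hc
    have : μ ^ 2 - c * X.ϖ = (μ ^ 2 * X.ϖ⁻¹ - c) * X.ϖ := by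
      field_simp
    rw [this, AddValuation.map_mul, X.v_ϖ]
    exact wt3 _ hlc
  -- (2) values are even integers
  have h2 : ∀ e ∈ E, e ≠ 0 → ∃ n : ℤ, Y.w e = (((2 * n : ℤ) : ℚ) : WithTop ℚ) := by
    intro e he he0
    obtain ⟨m, hm⟩ := Y.exists_DK e
    obtain ⟨i, -, x, hx0, hxw, -⟩ := Y.leading m e (Y.DK_le_Dm m hm) he0
    obtain ⟨n, hn⟩ := X.v_int x hx0
    have hwe : Y.w e = ((((n * 2 ^ m + i : ℤ) : ℚ) / 2 ^ m : ℚ) : WithTop ℚ) := by
      rw [hxw, hn, ← WithTop.coe_add]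
      congr 1
      push_cast
      field_simp
    rcases dyadic m (n * 2 ^ m + i) with ⟨k, hk⟩ | ⟨j, s, ⟨k, hs⟩, hjs⟩
    · refine ⟨k, ?_⟩
      rw [hwe, hk]
      norm_cast
    · exfalso
      apply h1 (e ^ (2 ^ j) * Y.ι (X.ϖ ^ (-k))) (E.mul_mem (E.pow_mem he _) (hFE _ (hzF _)))
      rw [AddValuation.map_mul, AddValuation.map_pow, Y.w_ι, hvz, hwe, ← WithTop.coe_nsmul,
        ← WithTop.coe_add]
      have : (2 ^ j : ℕ) • (((n * 2 ^ m + i : ℤ) : ℚ) / 2 ^ m) + (((2 * (-k) : ℤ)) : ℚ) = 1 := by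
        rw [nsmul_eq_mul, mul_comm]
        push_cast at hjs ⊢
        rw [hjs, hs]
        push_cast
        ring
      rw [this]; rfl
  -- (3)
  have h3 : ∀ e ∈ E, Y.w e = 0 → ∃ c ∈ X.F, 0 < Y.w (e - Y.ι c) := by
    intro e he hw
    obtain ⟨l, hl, hle⟩ := Y.approx_K e 0 (by rw [hw]; norm_cast)
    have hl0 : X.v l = 0 := by rw [hl]; norm_cast
    have hle0 : 0 < Y.w (e - Y.ι l) := lt_of_eq_of_lt (by norm_cast) hle
    obtain ⟨c, hc, hlc⟩ := lemmaL Y e (hE e he) l hl0 hle0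
    refine ⟨c, hc, ?_⟩
    have : e - Y.ι c = (e - Y.ι l) + Y.ι (l - c) := by rw [map_sub]; abel
    rw [this]
    exact AddValuation.map_lt_add Y.w hle0 (by rw [Y.w_ι]; exact hlc)
  by_cases hy0 : y = 0
  · exact ⟨0, X.F.zero_mem, by rw [hy0, map_zero]⟩
  obtain ⟨n0, hn0⟩ := h2 y hyE hy0
  -- (4)
  have h4 : ∀ k : ℕ, ∃ c ∈ X.F, (((2 * (n0 + k) : ℤ) : ℚ) : WithTop ℚ) ≤ Y.w (y - Y.ι c) := by
    intro k
    induction k with
    | zero => exact ⟨0, X.F.zero_mem, by rw [map_zero, sub_zero, hn0]; simp⟩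
    | succ k ih =>
      obtain ⟨c, hc, hk⟩ := ih
      by_cases hz : y - Y.ι c = 0
      · exact ⟨c, hc, by rw [hz, AddValuation.map_zero]; exact le_top⟩
      · have hcE : y - Y.ι c ∈ E := E.sub_mem hyE (hFE c hc)
        obtain ⟨n, hn⟩ := h2 _ hcE hz
        obtain ⟨c', hc', hcw⟩ := h3 ((y - Y.ι c) * Y.ι (X.ϖ ^ (-n)))
          (E.mul_mem hcE (hFE _ (hzF _))) (by
            rw [AddValuation.map_mul, Y.w_ι, hvz, hn, ← WithTop.coe_add]
            have : (((2 * n : ℤ) : ℚ)) + ((2 * -n : ℤ) : ℚ) = 0 := by push_cast; ring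
            rw [this]; rfl)
        refine ⟨c + c' * X.ϖ ^ n, X.F.add_mem hc (X.F.mul_mem hc' (hzF n)), ?_⟩
        have hf : y - Y.ι (c + c' * X.ϖ ^ n) =
            ((y - Y.ι c) * Y.ι (X.ϖ ^ (-n)) - Y.ι c') * Y.ι (X.ϖ ^ n) := by
          rw [sub_mul, mul_assoc, ← map_mul, ← zpow_add₀ hϖ0, neg_add_cancel, zpow_zero, map_one,
            mul_one, map_add, map_mul]
          abel
        by_cases hf0 : y - Y.ι (c + c' * X.ϖ ^ n) = 0
        · rw [hf0, AddValuation.map_zero]; exact le_top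
        · obtain ⟨n', hn'⟩ := h2 _ (E.sub_mem hyE (hFE _ (X.F.add_mem hc (X.F.mul_mem hc' (hzF n))))) hf0
          rw [hn']
          rw [hf, AddValuation.map_mul, Y.w_ι, hvz] at hn'
          rw [hn] at hk
          generalize Y.w ((y - Y.ι c) * Y.ι (X.ϖ ^ (-n)) - Y.ι c') = t at hcw hn'
          cases t with
          | top => exact absurd hn' (by rw [WithTop.top_add]; exact WithTop.top_ne_coe)
          | coe t =>
            rw [← WithTop.coe_add] at hn'
            replace hn' := WithTop.coe_injective hn'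
            replace hcw : (0 : ℚ) < t := WithTop.coe_lt_coe.1 hcw
            replace hk := WithTop.coe_le_coe.1 hk
            refine WithTop.coe_le_coe.2 ?_
            norm_cast at hk ⊢
            have h5 : (n : ℚ) < n' := by
              have : (t : ℚ) + ((2 * n : ℤ) : ℚ) = ((2 * n' : ℤ) : ℚ) := hn'
              push_cast at this
              linarith
            have h6 : n < n' := by exact_mod_cast h5
            have h7 : 2 * (n0 + (k : ℤ)) ≤ 2 * n := by exact_mod_cast hk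
            push_cast
            omega
  -- (5)
  apply Y.center_eq
  intro x
  by_contra hne
  have hsub : y * x - x * y ≠ 0 := sub_ne_zero.2 hne
  have hx0 : x ≠ 0 := by rintro rfl; simp at hne
  obtain ⟨t, ht⟩ := WithTop.ne_top_iff_exists.1 (mt (AddValuation.top_iff Y.w).1 hsub)
  obtain ⟨q, hq⟩ := WithTop.ne_top_iff_exists.1 (mt (AddValuation.top_iff Y.w).1 hx0)
  obtain ⟨k, hk⟩ := exists_nat_gt (t - q - 2 * n0)
  obtain ⟨c, hc, hkc⟩ := h4 k
  have hid : y * x - x * y = (y - Y.ι c) * x - x * (y - Y.ι c) := by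
    rw [sub_mul, mul_sub, Y.F_central c hc x]; abel
  have hge : (((2 * (n0 + k) : ℤ) : ℚ) : WithTop ℚ) + (q : WithTop ℚ) ≤ Y.w (y * x - x * y) := by
    rw [hid]
    refine AddValuation.map_le_sub Y.w ?_ ?_
    · rw [AddValuation.map_mul, ← hq]; exact add_le_add_left hkc _
    · rw [AddValuation.map_mul, ← hq, add_comm]; exact add_le_add_right hkc _
  rw [← ht] at hge
  norm_cast at hge
  push_cast at hge
  have hk0 : (0 : ℚ) ≤ k := Nat.cast_nonneg k
  linarith

end Pool.Agent.Helper91.DV
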