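import Pool.Agent.Helper91.DV.Defs2
import Pool.Agent.Helper91.DV.C0K
import Pool.Agent.Helper91.DV.C0D
import Pool.Agent.Helper91.DV.C1

/-!
# Module C2 (MP_5766af_al): the key lemma on `h(L_y, R_y)`

`lemma4a`: some nonzero two-variable polynomial `h` over `F_k` has `h(L_y,R_y) = 0` on `D_k`;
`lemma4b`: no nonzero `h(L_y,R_y)` kills an element `x u_{k+1}`, `0 ≠ x ∈ D_k`;
`centralizer_sub`: the centralizer of `y ∈ D^(m) \ F` is contained in `D_m`.
-/

set_option autoImplicit false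
open Finset Polynomial
namespace Pool.Agent.Helper91.DV.C2

/-- transitivity of algebraicity, concrete form -/
theorem rs {R S B : Type*} [CommRing R] [CommRing S] [NoZeroDivisors S] [Ring B]
    (f : R →+* S) (hf : ∀ s : S, ∃ p : R[X], p ≠ 0 ∧ p.eval₂ f s = 0)
    [Algebra S B] (b : B) (hb : ∃ p : S[X], p ≠ 0 ∧ p.eval₂ (algebraMap S B) b = 0) :
    ∃ q : R[X], q ≠ 0 ∧ q.eval₂ ((algebraMap S B).comp f) b = 0 := by
  let _ : Algebra R S := f.toAlgebra
  let _ : Algebra R B := Algebra.compHom B f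
  have : IsScalarTower R S B := IsScalarTower.of_algebraMap_eq' rfl
  have : Algebra.IsAlgebraic R S := ⟨fun s => by
    obtain ⟨p, hp, h⟩ := hf s
    exact ⟨p, hp, by rw [aeval_def]; exact h⟩⟩
  have h1 : IsAlgebraic S b := by
    obtain ⟨p, hp, h⟩ := hb
    exact ⟨p, hp, by rw [aeval_def]; exact h⟩
  obtain ⟨q, hq, h⟩ := IsAlgebraic.restrictScalars R h1
  exact ⟨q, hq, by rw [aeval_def] at h; exact h⟩

/-- the polynomial with coefficients `c i j` -/
noncomputable def bp {k : Type*} [CommRing k] (n : ℕ) (c : ℕ → ℕ → k) : k[X][X] :=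
  ∑ j ∈ range n, C (∑ i ∈ range n, monomial i (c i j)) * X ^ j

theorem bp_coeff {k : Type*} [CommRing k] (n : ℕ) (c : ℕ → ℕ → k) (i j : ℕ) (hi : i < n)
    (hj : j < n) : ((bp n c).coeff j).coeff i = c i j := by
  unfold bp
  rw [finsetSum_coeff, Finset.sum_eq_single j]
  · rw [coeff_C_mul, coeff_X_pow_self, mul_one, finsetSum_coeff, Finset.sum_eq_single i]
    · rw [coeff_monomial, if_pos rfl]
    · intro b _ hb; rw [coeff_monomial, if_neg hb]
    · intro h; exact absurd (mem_range.2 hi) h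
  · intro b _ hb; rw [coeff_C_mul, coeff_X_pow, if_neg (fun h => hb h.symm), mul_zero]
  · intro h; exact absurd (mem_range.2 hj) h

theorem bp_ne {k : Type*} [CommRing k] (n : ℕ) (c : ℕ → ℕ → k)
    (hc : ∃ i < n, ∃ j < n, c i j ≠ 0) : bp n c ≠ 0 := by
  obtain ⟨i, hi, j, hj, h⟩ := hc
  intro h0
  apply h
  rw [← bp_coeff n c i j hi hj, h0]
  simp

theorem bp_eval {k S : Type*} [CommRing k] [Ring S] (f : k[X] →+* S) (s : S) (n : ℕ)
    (c : ℕ → ℕ → k) : (bp n c).eval₂ f s =
      ∑ j ∈ range n, ∑ i ∈ range n, f (C (c i j)) * f X ^ i * s ^ j := by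
  unfold bp
  rw [eval₂_finsetSum]
  refine Finset.sum_congr rfl fun j _ => ?_
  rw [C_mul_X_pow_eq_monomial, eval₂_monomial, map_sum, Finset.sum_mul]
  refine Finset.sum_congr rfl fun i _ => ?_
  rw [← C_mul_X_pow_eq_monomial, map_mul, map_pow]

theorem exists_table {k S : Type*} [CommRing k] [Ring S] (f : k[X] →+* S)
    (q : k[X][X]) (hq : q ≠ 0) : ∃ (N : ℕ) (H : ℕ → ℕ → k),
      (∃ i < N, ∃ j < N, H i j ≠ 0) ∧ (∀ s, q.eval₂ f s =
      ∑ i ∈ range N, ∑ j ∈ range N, f (C (H i j)) * f X ^ i * s ^ j) := by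
  classical
  let N := q.natDegree + 1 + (range (q.natDegree + 1)).sup (fun j => (q.coeff j).natDegree + 1)
  refine ⟨N, fun i j => (q.coeff j).coeff i, ?_, ?_⟩
  · refine ⟨(q.coeff q.natDegree).natDegree, ?_, q.natDegree, ?_, ?_⟩
    · have := Finset.le_sup (f := fun j => (q.coeff j).natDegree + 1)
        (mem_range.2 (Nat.lt_succ_self q.natDegree))
      simp only [N]
      beta_reduce at this
      rw [Nat.succ_eq_add_one] at this
      omega
    · simp only [N]; omega
    · show (q.coeff q.natDegree).coeff (q.coeff q.natDegree).natDegree ≠ 0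
      rw [coeff_natDegree, coeff_natDegree]
      exact leadingCoeff_ne_zero.2 (leadingCoeff_ne_zero.2 hq)
  · intro s
    rw [eval₂_eq_sum_range' f (n := N) (by simp only [N]; omega), Finset.sum_comm]
    refine Finset.sum_congr rfl fun j hj => ?_
    have hd : (q.coeff j).natDegree < N := by
      by_cases hj2 : j < q.natDegree + 1
      · have := Finset.le_sup (f := fun j => (q.coeff j).natDegree + 1) (mem_range.2 hj2)
        simp only [N]
        beta_reduce at this
        omega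
      · rw [coeff_eq_zero_of_natDegree_lt (by omega)]
        simp only [N, natDegree_zero]; omega
    conv_lhs => rw [(q.coeff j).as_sum_range' N hd]
    rw [map_sum, Finset.sum_mul]
    refine Finset.sum_congr rfl fun i _ => ?_
    rw [← C_mul_X_pow_eq_monomial, map_mul, map_pow]

theorem coreA {k : Type*} {A : Type*} [Field k] [Ring A] [IsDomain A] [Algebra k A] (y z : A)
    (hz : ∀ a, z * a = a * z)
    (ty : ∀ p : k[X], p ≠ 0 → aeval y p ≠ 0)
    (tz : ∀ p : k[X], p ≠ 0 → aeval z p ≠ 0)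
    (n : ℕ) (c : ℕ → ℕ → k) (hc : ∃ i < n, ∃ j < n, c i j ≠ 0)
    (h : ∑ i ∈ range n, ∑ j ∈ range n, c i j • (z ^ i * y ^ j) = 0) :
    ∃ (N : ℕ) (H : ℕ → ℕ → k), (∃ i < N, ∃ j < N, H i j ≠ 0) ∧
      ∀ x, ∑ i ∈ range N, ∑ j ∈ range N, H i j • (y ^ i * x * y ^ j) = 0 := by
  have hzc : ∀ a ∈ ({y, z} : Set A), ∀ b ∈ ({y, z} : Set A), a * b = b * a := by
    intro a ha b hb
    rcases ha with rfl | ha <;> rcases hb with rfl | hb
    · rfl
    · rw [Set.mem_singleton_iff.1 hb]; exact (hz _).symm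
    · rw [Set.mem_singleton_iff.1 ha]; exact hz _
    · rw [Set.mem_singleton_iff.1 ha, Set.mem_singleton_iff.1 hb]
  let S0 := Algebra.adjoin k ({y, z} : Set A)
  let iC : CommRing S0 := Algebra.adjoinCommRingOfComm k hzc
  have : NoZeroDivisors S0 := inferInstance
  let y0 : S0 := ⟨y, Algebra.subset_adjoin (Or.inl rfl)⟩
  let z0 : S0 := ⟨z, Algebra.subset_adjoin (Or.inr rfl)⟩
  let f : k[X] →+* S0 := (aeval y0).toRingHom
  have hf : ∀ s : S0, ∃ p : k[X][X], p ≠ 0 ∧ p.eval₂ f s = 0 := by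
    let _ : Algebra k[X] S0 := f.toAlgebra
    have hz0 : IsAlgebraic k[X] z0 := by
      refine ⟨bp n (fun j i => c i j), bp_ne _ _ ?_, ?_⟩
      · obtain ⟨i, hi, j, hj, h⟩ := hc
        exact ⟨j, hj, i, hi, h⟩
      · rw [aeval_def, bp_eval]
        apply Subtype.ext
        have e : ∀ i j, (f (C (c i j)) * f X ^ j * z0 ^ i : S0) = 
            c i j • (z0 ^ i * y0 ^ j) := by
          intro i j
          simp only [f, AlgHom.toRingHom_eq_coe, RingHom.coe_coe, aeval_C, aeval_X]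
          rw [mul_assoc, mul_comm (y0 ^ j), Algebra.smul_def]
        have e2 : ∑ j ∈ range n, ∑ i ∈ range n, (algebraMap k[X] S0) (C (c j i)) *
            (algebraMap k[X] S0) X ^ i * z0 ^ j = ∑ i ∈ range n, ∑ j ∈ range n,
            c i j • (z0 ^ i * y0 ^ j) :=
          Finset.sum_congr rfl fun i _ => Finset.sum_congr rfl fun j _ => e i j
        rw [e2]
        simpa [z0, y0] using h
    have hall : ∀ s : S0, IsAlgebraic k[X] s := by
      intro s
      obtain ⟨s, hs⟩ := s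
      induction hs using Algebra.adjoin_induction with
      | mem x hx =>
        rcases hx with hx | hx
        · have : (⟨x, Algebra.subset_adjoin (Or.inl hx)⟩ : S0) = algebraMap k[X] S0 X := by
            show _ = f X
            apply Subtype.ext
            simp [f, y0, hx]
          rw [this]
          exact isAlgebraic_algebraMap X
        · rw [Set.mem_singleton_iff] at hx
          subst hx
          exact hz0
      | algebraMap r =>
        have : (⟨algebraMap k A r, Subalgebra.algebraMap_mem _ r⟩ : S0) =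
            algebraMap k[X] S0 (C r) := by
          show _ = f (C r)
          simp only [f, AlgHom.toRingHom_eq_coe, RingHom.coe_coe, aeval_C]
          rfl
        rw [this]
        exact isAlgebraic_algebraMap (C r)
      | add a b ha hb h1 h2 => exact h1.add h2
      | mul a b ha hb h1 h2 => exact h1.mul h2
    intro s
    obtain ⟨p, hp, h⟩ := hall s
    exact ⟨p, hp, by rw [aeval_def] at h; exact h⟩
  let B := Module.End S0 A
  let ry : B := {
    toFun := fun a => a * y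
    map_add' := fun a b => add_mul a b y
    map_smul' := fun s a => mul_assoc (s : A) a y }
  have hryp : ∀ j (a : A), (ry ^ j) a = a * y ^ j := by
    intro j
    induction j with
    | zero => intro a; rw [pow_zero, pow_zero, mul_one]; rfl
    | succ j ih => intro a; rw [pow_succ', Module.End.mul_apply, ih, pow_succ, ← mul_assoc]; rfl
  have hb : ∃ p : S0[X], p ≠ 0 ∧ p.eval₂ (algebraMap S0 B) ry = 0 := by
    refine ⟨∑ j ∈ range n, C (∑ i ∈ range n, c i j • z0 ^ i) * X ^ j, ?_, ?_⟩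
    · obtain ⟨i, hi, j, hj, hij⟩ := hc
      intro h0
      have h1 : (∑ i ∈ range n, c i j • z0 ^ i : S0) = 0 := by
        have := congrArg (fun p : S0[X] => p.coeff j) h0
        simp only [finsetSum_coeff, coeff_C_mul, coeff_X_pow, coeff_zero] at this
        rw [Finset.sum_eq_single j] at this
        · simpa using this
        · intro b _ hb; rw [if_neg (fun h => hb h.symm), mul_zero]
        · intro h; exact absurd (mem_range.2 hj) h
      apply tz (∑ i ∈ range n, monomial i (c i j))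
      · intro h2
        apply hij
        have := congrArg (fun p : k[X] => p.coeff i) h2
        simp only [finsetSum_coeff, coeff_monomial, coeff_zero] at this
        rw [Finset.sum_eq_single i] at this
        · simpa using this
        · intro b _ hb; rw [if_neg hb]
        · intro h; exact absurd (mem_range.2 hi) h
      · rw [map_sum]
        have := congrArg (fun s : S0 => (s : A)) h1
        simp only [AddSubmonoidClass.coe_finsetSum] at this
        simp only [aeval_monomial]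
        refine Eq.trans ?_ (Eq.trans this ?_)
        · refine Finset.sum_congr rfl fun i _ => ?_
          rw [← Algebra.smul_def]
          rfl
        · rfl
    · rw [eval₂_finsetSum]
      simp only [C_mul_X_pow_eq_monomial, eval₂_monomial]
      refine LinearMap.ext fun a => ?_
      rw [LinearMap.sum_apply]
      have e1 : ∀ j, ((algebraMap S0 B) (∑ i ∈ range n, c i j • z0 ^ i) * ry ^ j) a =
          a * ∑ i ∈ range n, c i j • (z ^ i * y ^ j) := by
        intro j
        have e2 : ((algebraMap S0 B) (∑ i ∈ range n, c i j • z0 ^ i) * ry ^ j) a =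
          ((∑ i ∈ range n, c i j • z0 ^ i : S0) : A) * (a * y ^ j) := by
          rw [Module.End.mul_apply, hryp]
          rfl
        rw [e2]
        have e3 : ((∑ i ∈ range n, c i j • z0 ^ i : S0) : A) = ∑ i ∈ range n, c i j • z ^ i := by
          rw [AddSubmonoidClass.coe_finsetSum]
          rfl
        rw [e3, Finset.sum_mul, Finset.mul_sum]
        refine Finset.sum_congr rfl fun i _ => ?_
        have e4 : z ^ i * a = a * z ^ i := ((show Commute z a from hz a).pow_left i).eq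
        rw [smul_mul_assoc, ← mul_assoc, e4, mul_smul_comm, mul_assoc]
      rw [Finset.sum_congr rfl fun j _ => e1 j, ← Finset.mul_sum, Finset.sum_comm, h, mul_zero]
      rfl
  obtain ⟨q, hq, h2⟩ := rs f hf ry hb
  obtain ⟨N, H, hH, hN⟩ := exists_table ((algebraMap S0 B).comp f) q hq
  refine ⟨N, H, hH, fun x => ?_⟩
  rw [hN] at h2
  have h3 := congrArg (fun b : B => b x) h2
  rw [LinearMap.zero_apply] at h3
  rw [← h3, LinearMap.sum_apply]
  refine Finset.sum_congr rfl fun i _ => ?_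
  rw [LinearMap.sum_apply]
  refine Finset.sum_congr rfl fun j _ => ?_
  rw [Module.End.mul_apply, hryp]
  rw [← map_pow, ← map_mul]
  have e5 : ((algebraMap S0 B).comp f) (C (H i j) * X ^ i) (x * y ^ j) =
    ((f (C (H i j) * X ^ i) : S0) : A) * (x * y ^ j) := rfl
  rw [e5]
  have e6 : ((f (C (H i j) * X ^ i) : S0) : A) = H i j • y ^ i := by
    simp only [f, AlgHom.toRingHom_eq_coe, RingHom.coe_coe, map_mul, map_pow, aeval_C, aeval_X]
    rw [← Algebra.smul_def]
    rfl
  rw [e6, smul_mul_assoc, mul_assoc]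


/-- a nonzero table has a last nonzero column -/
theorem exists_last (n : ℕ) (P : ℕ → Prop) (h : ∃ j < n, P j) :
    ∃ N < n, P N ∧ ∀ j < n, N < j → ¬ P j := by
  classical
  obtain ⟨j, hj, hP⟩ := h
  let S := (range n).filter P
  have hS : S.Nonempty := ⟨j, by simp [S, hj, hP]⟩
  have hm := S.max'_mem hS
  simp only [S, mem_filter, mem_range] at hm
  refine ⟨S.max' hS, hm.1, hm.2, fun i hi hlt hPi => ?_⟩
  have : i ≤ S.max' hS := S.le_max' i (by simp [S, hi, hPi])
  omega

theorem fd_cyc {E V : Type*} [DivisionRing E] [AddCommGroup V] [Module E V] (R : V →ₗ[E] V) (x : V)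
    (n : ℕ) (e : ℕ → E) (he : ∃ j < n, e j ≠ 0) (h : ∑ j ∈ range n, e j • (R ^ j) x = 0) :
    FiniteDimensional E (Submodule.span E (Set.range fun j : ℕ => (R ^ j) x)) := by
  obtain ⟨N, hN, hne, hz⟩ := exists_last n (fun j => e j ≠ 0) he
  let W := Submodule.span E ((fun j => (R ^ j) x) '' (Set.Iio N))
  have hW : FiniteDimensional E W :=
    FiniteDimensional.span_of_finite E ((Set.finite_Iio N).image _)
  have key : ∀ j, (R ^ j) x ∈ W := by
    intro j
    induction j using Nat.strong_induction_on with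
    | _ j ih =>
      by_cases hj : j < N
      · exact Submodule.subset_span ⟨j, hj, rfl⟩
      · have h1 : ∑ i ∈ range (N + 1), e i • (R ^ i) x = 0 := by
          rw [← h]
          refine Finset.sum_subset (fun i hi => ?_) (fun i hi hi2 => ?_)
          · rw [mem_range] at hi ⊢; omega
          · rw [mem_range] at hi hi2
            have := hz i hi (by omega)
            rw [not_not] at this
            rw [this, zero_smul]
        rw [Finset.sum_range_succ] at h1
        have h2 : (R ^ N) x = - ((e N)⁻¹ • ∑ i ∈ range N, e i • (R ^ i) x) := by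
          rw [← smul_neg, eq_inv_smul_iff₀ hne]
          exact eq_neg_of_add_eq_zero_right h1
        have h3 : (R ^ j) x = - ((e N)⁻¹ • ∑ i ∈ range N, e i • (R ^ (j - N + i)) x) := by
          have h7 : j = (j - N) + N := by omega
          conv_lhs => rw [h7, pow_add, Module.End.mul_apply, h2, map_neg, map_smul, map_sum]
          congr 2
          refine Finset.sum_congr rfl fun i _ => ?_
          rw [map_smul, pow_add, Module.End.mul_apply]
        rw [h3]
        refine Submodule.neg_mem _ (Submodule.smul_mem _ _ (Submodule.sum_mem _ fun i hi =>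
          Submodule.smul_mem _ _ ?_))
        rw [mem_range] at hi
        exact ih _ (by omega)
  have hle : Submodule.span E (Set.range fun j : ℕ => (R ^ j) x) ≤ W := by
    rw [Submodule.span_le]
    rintro _ ⟨j, rfl⟩
    exact key j
  exact Submodule.finiteDimensional_of_le hle

theorem fd_alg {E V : Type*} [DivisionRing E] [AddCommGroup V] [Module E V]
    (W1 : Submodule E V) [FiniteDimensional E W1] (σ : ℕ → V →ₗ[E] V) (R : V →ₗ[E] V) (d : ℕ)
    (h1 : ∀ i, ∀ w ∈ W1, σ i w ∈ W1) (h2 : ∀ w ∈ W1, σ d w = 0 → w = 0)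
    (h3 : ∀ w ∈ W1, ∑ i ∈ range (d + 1), (R ^ i) (σ i w) = 0) :
    ∃ W2 : Submodule E V, FiniteDimensional E W2 ∧ ∀ n, ∀ w ∈ W1, (R ^ n) w ∈ W2 := by
  refine ⟨(range d).sup (fun i => W1.map (R ^ i)), inferInstance, ?_⟩
  have hsurj : ∀ w ∈ W1, ∃ w' ∈ W1, σ d w' = w := by
    intro w hw
    have hinj : Function.Injective ((σ d).restrict (h1 d)) := by
      rw [← LinearMap.ker_eq_bot, LinearMap.ker_eq_bot']
      intro m hm
      apply Subtype.ext
      exact h2 m m.2 (congrArg Subtype.val hm)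
    obtain ⟨w', hw'⟩ := LinearMap.surjective_of_injective hinj ⟨w, hw⟩
    exact ⟨w', w'.2, congrArg Subtype.val hw'⟩
  intro n
  induction n using Nat.strong_induction_on with
  | _ n ih =>
    intro w hw
    by_cases hn : n < d
    · exact (Finset.le_sup (f := fun i => W1.map (R ^ i)) (mem_range.2 hn)) ⟨w, hw, rfl⟩
    · obtain ⟨w', hw', rfl⟩ := hsurj w hw
      have h4 := h3 w' hw'
      rw [Finset.sum_range_succ] at h4
      have h5 : (R ^ n) (σ d w') = - ∑ i ∈ range d, (R ^ (n - d + i)) (σ i w') := by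
        have h6 : (R ^ d) (σ d w') = - ∑ i ∈ range d, (R ^ i) (σ i w') :=
          (eq_neg_of_add_eq_zero_right h4)
        have h7 : n = (n - d) + d := by omega
        conv_lhs => rw [h7, pow_add, Module.End.mul_apply, h6, map_neg, map_sum]
        congr 1
        refine Finset.sum_congr rfl fun i _ => ?_
        rw [pow_add, Module.End.mul_apply]
      rw [h5]
      refine Submodule.neg_mem _ (Submodule.sum_mem _ fun i hi => ?_)
      rw [mem_range] at hi
      exact ih (n - d + i) (by omega) _ (h1 i w' hw')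

variable {K : Type} [Field K] [CharZero K] {X : KD K} {D : Type} [DivisionRing D] (Y : DD X D)

theorem alg_Kf (X : KD K) (k : ℕ) (z : K) (hz : z ∈ X.Kf k) (hzF : z ∉ X.F)
    (f : (↥(X.F ⊓ X.Kf k))[X] →+* X.Kf k) (hfC : ∀ c : ↥(X.F ⊓ X.Kf k), ((f (C c) : X.Kf k) : K) = c)
    (hfX : ((f Polynomial.X : X.Kf k) : K) = z) (s : X.Kf k) :
    ∃ p : (↥(X.F ⊓ X.Kf k))[X][X], p ≠ 0 ∧ p.eval₂ f s = 0 := by
  let _ : Algebra (↥(X.F ⊓ X.Kf k))[X] K := ((X.Kf k).subtype.comp f).toAlgebra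
  have h1 : ∀ l ∈ Subfield.closure (((X.F : Set K) ∩ (X.Kf k : Set K)) ∪ {z}),
      IsAlgebraic (↥(X.F ⊓ X.Kf k))[X] l := by
    intro l hl
    induction hl using Subfield.closure_induction with
    | mem x hx =>
      rcases hx with hx | hx
      · have : x = algebraMap (↥(X.F ⊓ X.Kf k))[X] K (C ⟨x, hx⟩) := (hfC ⟨x, hx⟩).symm
        rw [this]
        exact isAlgebraic_algebraMap _
      · have : x = algebraMap (↥(X.F ⊓ X.Kf k))[X] K Polynomial.X := by
          rw [Set.mem_singleton_iff.1 hx]; exact hfX.symm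
        rw [this]
        exact isAlgebraic_algebraMap _
    | one => exact isAlgebraic_one
    | add x y _ _ hx hy => exact hx.add hy
    | neg x _ hx => exact hx.neg
    | inv x _ hx => exact hx.inv
    | mul x y _ _ hx hy => exact hx.mul hy
  -- `L0`
  let L0 : Subfield K := Subfield.closure (((X.F : Set K) ∩ (X.Kf k : Set K)) ∪ {z})
  have hfL : ∀ p, ((X.Kf k).subtype.comp f) p ∈ L0 := by
    intro p
    induction p using Polynomial.induction_on' with
    | add p q hp hq => rw [map_add]; exact L0.add_mem hp hq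
    | monomial n a =>
      rw [← C_mul_X_pow_eq_monomial, map_mul, map_pow]
      refine L0.mul_mem ?_ (L0.pow_mem ?_ n)
      · have : ((X.Kf k).subtype.comp f) (C a) = a := hfC a
        rw [this]
        exact Subfield.subset_closure (Or.inl a.2)
      · have : ((X.Kf k).subtype.comp f) Polynomial.X = z := hfX
        rw [this]
        exact Subfield.subset_closure (Or.inr rfl)
  let f' : (↥(X.F ⊓ X.Kf k))[X] →+* L0 := ((X.Kf k).subtype.comp f).codRestrict L0 hfL
  have h2 : ∀ l : L0, ∃ p : (↥(X.F ⊓ X.Kf k))[X][X], p ≠ 0 ∧ p.eval₂ f' l = 0 := by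
    intro l
    obtain ⟨p, hp, h⟩ := h1 l l.2
    refine ⟨p, hp, ?_⟩
    rw [aeval_def] at h
    apply Subtype.ext
    have : ((p.eval₂ f' l : L0) : K) = L0.subtype (p.eval₂ f' l) := rfl
    rw [this, hom_eval₂]
    exact h
  have h3 : IsAlgebraic L0 (s : K) := X.F2 k z hz hzF s s.2
  obtain ⟨p, hp, h⟩ := h3
  rw [aeval_def] at h
  obtain ⟨q, hq, h4⟩ := rs f' h2 (s : K) ⟨p, hp, h⟩
  refine ⟨q, hq, ?_⟩
  apply Subtype.ext
  have : ((q.eval₂ f s : X.Kf k) : K) = (X.Kf k).subtype (q.eval₂ f s) := rfl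
  rw [this, hom_eval₂]
  exact h4

theorem star (k : ℕ) (z : K) (hz : z ∈ X.Kf k) (hzF : z ∉ X.F) (y : D) (hy : y ∈ Y.DK k) :
    ∃ (n : ℕ) (c : ℕ → ℕ → ↥(X.F ⊓ X.Kf k)), (∃ i < n, ∃ j < n, c i j ≠ 0) ∧
      ∑ i ∈ range n, ∑ j ∈ range n, Y.ι (c i j) * (Y.ι z ^ i * y ^ j) = 0 := by
  let f : (↥(X.F ⊓ X.Kf k))[X] →+* X.Kf k :=
    eval₂RingHom (Subfield.inclusion inf_le_right) (⟨z, hz⟩ : X.Kf k)
  have hfC : ∀ c : ↥(X.F ⊓ X.Kf k), ((f (C c) : X.Kf k) : K) = c := by
    intro c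
    simp only [f, coe_eval₂RingHom, eval₂_C]
    rfl
  have hfX : ((f Polynomial.X : X.Kf k) : K) = z := by
    simp [f]
  let φ : X.Kf k →+* Y.DK k :=
    (Y.ι.comp (X.Kf k).subtype).codRestrict (Y.DK k) (fun x => Y.ι_mem_DK k x x.2)
  let _ : Module (X.Kf k) (Y.DK k) := Module.compHom (Y.DK k) φ
  have hsm : ∀ (c : X.Kf k) (d : Y.DK k), ((c • d : Y.DK k) : D) = Y.ι c * d := fun c d => rfl
  have : Module.Finite (X.Kf k) (Y.DK k) := by
    classical
    have hu : Y.u k ∈ Y.DK k := Subring.subset_closure (Or.inr rfl)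
    refine ⟨⟨(range (2 ^ k)).image (fun l => (⟨Y.u k, hu⟩ : Y.DK k) ^ l), ?_⟩⟩
    rw [eq_top_iff]
    intro d _
    obtain ⟨x, hx, hd⟩ := (Y.mem_DK_iff k d).1 d.2
    have : d = ∑ i ∈ range (2 ^ k), (⟨x i, hx i⟩ : X.Kf k) • (⟨Y.u k, hu⟩ : Y.DK k) ^ i := by
      apply Subtype.ext
      rw [AddSubmonoidClass.coe_finsetSum, hd]
      rfl
    rw [this]
    refine Submodule.sum_mem _ fun i hi => Submodule.smul_mem _ _ (Submodule.subset_span ?_)
    exact Finset.mem_coe.2 (Finset.mem_image_of_mem _ hi)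
  let B := Module.End (X.Kf k) (Y.DK k)
  let y' : Y.DK k := ⟨y, hy⟩
  let ry : B := {
    toFun := fun a => a * y'
    map_add' := fun a b => add_mul a b y'
    map_smul' := fun s a => mul_assoc (φ s) a y' }
  have hryp : ∀ j (a : Y.DK k), (ry ^ j) a = a * y' ^ j := by
    intro j
    induction j with
    | zero => intro a; rw [pow_zero, pow_zero, mul_one]; rfl
    | succ j ih => intro a; rw [pow_succ', Module.End.mul_apply, ih, pow_succ, ← mul_assoc]; rfl
  have hb : IsAlgebraic (X.Kf k) ry := IsAlgebraic.of_finite _ _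
  obtain ⟨p, hp, h⟩ := hb
  rw [aeval_def] at h
  obtain ⟨q, hq, h2⟩ := rs f (alg_Kf X k z hz hzF f hfC hfX) ry ⟨p, hp, h⟩
  obtain ⟨N, H, hH, hN⟩ := exists_table ((algebraMap (X.Kf k) B).comp f) q hq
  refine ⟨N, H, hH, ?_⟩
  rw [hN] at h2
  have h3 := congrArg (fun b : B => ((b 1 : Y.DK k) : D)) h2
  rw [LinearMap.zero_apply] at h3
  refine Eq.trans ?_ (h3.trans rfl)
  rw [LinearMap.sum_apply, AddSubmonoidClass.coe_finsetSum]
  refine Finset.sum_congr rfl fun i _ => ?_
  rw [LinearMap.sum_apply, AddSubmonoidClass.coe_finsetSum]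
  refine Finset.sum_congr rfl fun j _ => ?_
  have e8 : ((algebraMap (X.Kf k) B).comp f) (C (H i j)) *
      ((algebraMap (X.Kf k) B).comp f) Polynomial.X ^ i =
      ((algebraMap (X.Kf k) B).comp f) (C (H i j) * Polynomial.X ^ i) := by rw [map_mul, map_pow]
  rw [e8, Module.End.mul_apply, hryp, one_mul]
  have e5 : ((((algebraMap (X.Kf k) B).comp f) (C (H i j) * Polynomial.X ^ i) (y' ^ j) : Y.DK k) : D) =
    Y.ι (f (C (H i j) * Polynomial.X ^ i) : X.Kf k) * (y ^ j) := rfl
  have e9 : ((f (C (H i j) * Polynomial.X ^ i) : X.Kf k) : K) = H i j * z ^ i := by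
    rw [map_mul, map_pow]
    push_cast
    rw [hfC, hfX]
  rw [e5, e9, map_mul, map_pow, mul_assoc]

theorem transc (k : ℕ) (y : D) (hyF : ∀ c ∈ X.F, y ≠ Y.ι c) (p : (↥(X.F ⊓ X.Kf k))[X])
    (hp : p ≠ 0) : p.eval₂ (Y.ι.comp (X.F ⊓ X.Kf k).subtype) y ≠ 0 := by
  intro h
  obtain ⟨c, hc, h1⟩ := Y.alg_F y (p.map (X.F ⊓ X.Kf k).subtype)
    (by rwa [Ne, Polynomial.map_eq_zero])
    (by intro i; rw [coeff_map]; exact (p.coeff i).2.1) (by rw [eval₂_map]; exact h)
  exact hyF c hc h1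


theorem tsum_ne (k n : ℕ) (y : D) (hyF : ∀ c ∈ X.F, y ≠ Y.ι c) (c : ℕ → K)
    (hcF : ∀ i, c i ∈ X.F) (hcK : ∀ i, c i ∈ X.Kf k) (hc : ∃ i < n, c i ≠ 0) :
    ∑ i ∈ range n, Y.ι (c i) * y ^ i ≠ 0 := by
  obtain ⟨i, hi, hci⟩ := hc
  intro h
  apply transc Y k y hyF (∑ i ∈ range n, monomial i (⟨c i, hcF i, hcK i⟩ : ↥(X.F ⊓ X.Kf k)))
  · intro h0
    have h5 := congrArg (fun p : (↥(X.F ⊓ X.Kf k))[X] => p.coeff i) h0
    simp only [finsetSum_coeff, coeff_monomial, coeff_zero] at h5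
    rw [Finset.sum_eq_single i] at h5
    · rw [if_pos rfl] at h5
      exact hci (congrArg Subtype.val h5)
    · intro b _ hb; rw [if_neg hb]
    · intro h; exact absurd (mem_range.2 hi) h
  · rw [eval₂_finsetSum, ← h]
    refine Finset.sum_congr rfl fun j _ => ?_
    rw [eval₂_monomial]
    rfl

noncomputable abbrev divDK (k : ℕ) : DivisionRing (Y.DK k) :=
  DivisionRing.ofIsUnitOrEqZero (R := Y.DK k) (by
    intro a
    by_cases h : a = 0
    · exact Or.inr h
    · left
      have ha : (a : D) ≠ 0 := fun h0 => h (Subtype.ext h0)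
      exact ⟨⟨a, ⟨(a : D)⁻¹, Y.inv_mem_DK k a a.2⟩, Subtype.ext (mul_inv_cancel₀ ha),
        Subtype.ext (inv_mul_cancel₀ ha)⟩, rfl⟩)

theorem indep (k : ℕ) (w : K) (hw : w ∈ X.Z k) (htr : Transcendental (X.Kf k) w)
    (S : Finset ℕ) (e : ℕ → D) (he : ∀ n, e n ∈ Y.DK k)
    (h : ∑ n ∈ S, e n * Y.ι w ^ n = 0) : ∀ n ∈ S, e n = 0 := by
  choose x hx hxe using fun n => (Y.mem_DK_iff k (e n)).1 (he n)
  have hcomm : ∀ l n : ℕ, Y.u k ^ l * Y.ι w ^ n = Y.ι w ^ n * Y.u k ^ l := by
    intro l n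
    have : Commute (Y.u k) (Y.ι w) := (Y.Z_comm k hw (Y.u_mem_Dm k)).symm
    exact (this.pow_pow l n).eq
  have h1 : ∑ l ∈ range (2 ^ k), Y.ι (∑ n ∈ S, x n l * w ^ n) * Y.u k ^ l =
      ∑ l ∈ range (2 ^ k), Y.ι 0 * Y.u k ^ l := by
    have : ∑ l ∈ range (2 ^ k), Y.ι 0 * Y.u k ^ l = 0 := by simp
    rw [this, ← h]
    rw [Finset.sum_congr rfl fun n (_ : n ∈ S) => by rw [hxe n, Finset.sum_mul], Finset.sum_comm]
    refine Finset.sum_congr rfl fun l _ => ?_
    rw [map_sum, Finset.sum_mul]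
    refine Finset.sum_congr rfl fun n _ => ?_
    rw [map_mul, map_pow, mul_assoc, mul_assoc, hcomm]
  have h2 := Y.coeff_unique k _ _ h1
  have h3 : ∀ n ∈ S, ∀ l < 2 ^ k, x n l = 0 := by
    intro n hn l hl
    have h4 := h2 l hl
    by_contra hne
    apply htr
    refine ⟨∑ m ∈ S, monomial m (⟨x m l, hx m l⟩ : X.Kf k), ?_, ?_⟩
    · intro h0
      have h5 := congrArg (fun p : (X.Kf k)[X] => p.coeff n) h0
      simp only [finsetSum_coeff, coeff_monomial, coeff_zero] at h5
      rw [Finset.sum_eq_single n] at h5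
      · rw [if_pos rfl] at h5
        exact hne (congrArg Subtype.val h5)
      · intro b _ hb; rw [if_neg hb]
      · intro h; exact absurd hn h
    · rw [map_sum, ← h4]
      refine Finset.sum_congr rfl fun m _ => ?_
      rw [aeval_monomial]
      rfl
  intro n hn
  rw [hxe n]
  refine Finset.sum_eq_zero fun l hl => ?_
  rw [h3 n hn l (mem_range.1 hl), map_zero, zero_mul]

end Pool.Agent.Helper91.DV.C2

namespace Pool.Agent.Helper91.DV
open C2

variable {K : Type} [Field K] [CharZero K] {X : KD K} {D : Type} [DivisionRing D] (Y : DD X D)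

theorem DD.lemma4a (m k : ℕ) (hmk : m ≤ k) (y : D) (hy : y ∈ Y.DK m)
    (hyF : ∀ c ∈ X.F, y ≠ Y.ι c) : ∃ H : Biv X k, ∀ x ∈ Y.Dm k, Y.act H y x = 0 := by
  obtain ⟨z, hzZ, hzK, hzF⟩ := X.exists_Z k
  have hyk : y ∈ Y.DK k := Y.DK_mono hmk hy
  have hyD : y ∈ Y.Dm k := Y.DK_le_Dm k hyk
  obtain ⟨n, c, hc, hs⟩ := star Y k z hzK hzF y hyk
  let φ : ↥(X.F ⊓ X.Kf k) →+* Y.Dm k :=
    (Y.ι.comp (X.F ⊓ X.Kf k).subtype).codRestrict (Y.Dm k) (fun x => Y.ι_mem_Dm k x)
  let _ : Algebra ↥(X.F ⊓ X.Kf k) (Y.Dm k) := RingHom.toAlgebra' φ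
    (fun c d => Subtype.ext (Y.F_comm c c.2.1 d))
  have hsm : ∀ (c : ↥(X.F ⊓ X.Kf k)) (d : Y.Dm k), ((c • d : Y.Dm k) : D) = Y.ι c * d :=
    fun c d => rfl
  have htr : ∀ (a : Y.Dm k) (p : (↥(X.F ⊓ X.Kf k))[X]), ((aeval a p : Y.Dm k) : D) =
      p.eval₂ (Y.ι.comp (X.F ⊓ X.Kf k).subtype) a := by
    intro a p
    have : ((aeval a p : Y.Dm k) : D) = (Y.Dm k).subtype (aeval a p) := rfl
    rw [this, aeval_def, hom_eval₂]
    rfl
  obtain ⟨N, H, hH, hN⟩ := coreA (k := ↥(X.F ⊓ X.Kf k)) (A := Y.Dm k) ⟨y, hyD⟩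
    ⟨Y.ι z, Y.ι_mem_Dm k z⟩ (fun a => Subtype.ext (Y.Z_comm k hzZ a.2))
    (fun p hp h => transc Y k y hyF p hp (by rw [← htr ⟨y, hyD⟩, h]; rfl))
    (fun p hp h => transc Y k (Y.ι z) (fun c hc h => hzF (Y.ι.injective h ▸ hc)) p hp
      (by rw [← htr ⟨Y.ι z, Y.ι_mem_Dm k z⟩, h]; rfl)) n c hc
    (by
      apply Subtype.ext
      rw [AddSubmonoidClass.coe_finsetSum]
      refine Eq.trans ?_ hs
      refine Finset.sum_congr rfl fun i _ => ?_
      rw [AddSubmonoidClass.coe_finsetSum]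
      rfl)
  refine ⟨⟨N, fun i j => H i j, fun i j => (H i j).2.1, fun i j => (H i j).2.2, ?_⟩, ?_⟩
  · obtain ⟨i, hi, j, hj, h⟩ := hH
    exact ⟨i, hi, j, hj, fun h0 => h (Subtype.ext h0)⟩
  · intro x hx
    have h1 := congrArg (fun a : Y.Dm k => (a : D)) (hN ⟨x, hx⟩)
    refine Eq.trans ?_ (h1.trans rfl)
    unfold DD.act
    rw [AddSubmonoidClass.coe_finsetSum]
    refine Finset.sum_congr rfl fun i _ => ?_
    rw [AddSubmonoidClass.coe_finsetSum]
    rfl


theorem DD.lemma4b (m k : ℕ) (hmk : m ≤ k) (y : D) (hy : y ∈ Y.DK m)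
    (hyF : ∀ c ∈ X.F, y ≠ Y.ι c) (H : Biv X k) (x : D) (hx : x ∈ Y.Dm k) (hx0 : x ≠ 0) :
    Y.act H y (x * Y.u (k + 1)) ≠ 0 := by
  intro h0
  obtain ⟨z, hzZ, hzK, hzF⟩ := X.exists_Z k
  have hyk : y ∈ Y.DK k := Y.DK_mono hmk hy
  have hyD : y ∈ Y.Dm k := Y.DK_le_Dm k hyk
  obtain ⟨n, c, hc, hs⟩ := star Y k z hzK hzF y hyk
  have hu := Y.u_ne (k + 1)
  obtain ⟨t, ht⟩ : ∃ t : D, t = Y.u (k + 1) * y * (Y.u (k + 1))⁻¹ := ⟨_, rfl⟩
  have htu : ∀ j, Y.u (k + 1) * y ^ j = t ^ j * Y.u (k + 1) := by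
    intro j
    induction j with
    | zero => simp
    | succ j ih =>
      have : t * Y.u (k + 1) = Y.u (k + 1) * y := by
        rw [ht, inv_mul_cancel_right₀ hu]
      rw [pow_succ, ← mul_assoc, ih, mul_assoc, ← this, ← mul_assoc, ← pow_succ]
  have htD : t ∈ Y.Dm k := ht ▸ Y.conj_mem k y hyD
  obtain ⟨w, hw⟩ : ∃ w : K, w = X.g (k + 1) z := ⟨_, rfl⟩
  have hwZ : w ∈ X.Z k := by
    have h := congrArg (X.g (k + 1)) ((X.g_succ k z).trans ((X.mem_Z k z).1 hzZ))
    rw [X.mem_Z, ← X.g_succ, hw]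
    exact h
  have hwtr : Transcendental (X.Kf k) w := hw ▸ X.F3 k z hzK hzF
  have huc : ∀ c ∈ X.F, Y.u (k + 1) * Y.ι c = Y.ι c * Y.u (k + 1) := by
    intro c hc
    rw [Y.u_mul, X.g_F _ c hc]
  have hut : ∀ i, Y.u (k + 1) * Y.ι z ^ i = Y.ι w ^ i * Y.u (k + 1) := by
    intro i
    rw [← map_pow, Y.u_mul, map_pow, ← hw, map_pow]
  have hyF' : ∀ c ∈ X.F, t ≠ Y.ι c := by
    intro c hc h
    apply hyF c hc
    have h1 : Y.u (k + 1) * y = Y.u (k + 1) * Y.ι c := by
      rw [huc c hc, ← h, ht, inv_mul_cancel_right₀ hu]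
    exact mul_left_cancel₀ hu h1
  have hwt : ∀ i (a : D), a ∈ Y.Dm k → Y.ι w ^ i * a = a * Y.ι w ^ i := by
    intro i a ha
    exact ((show Commute (Y.ι w) a from Y.Z_comm k hwZ ha).pow_left i).eq
  -- the relation for `w, t`
  have hs' : ∑ i ∈ range n, (∑ j ∈ range n, Y.ι (c i j) * t ^ j) * Y.ι w ^ i = 0 := by
    have h1 := congrArg (fun a => Y.u (k + 1) * a) hs
    simp only [mul_zero] at h1
    have h2 : (∑ i ∈ range n, (∑ j ∈ range n, Y.ι (c i j) * t ^ j) * Y.ι w ^ i) * Y.u (k + 1)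
        = 0 := by
      rw [← h1, Finset.sum_mul, Finset.mul_sum]
      refine Finset.sum_congr rfl fun i _ => ?_
      rw [Finset.mul_sum, Finset.sum_mul, Finset.sum_mul]
      refine Finset.sum_congr rfl fun j _ => ?_
      rw [← mul_assoc (Y.u (k + 1)), huc _ (c i j).2.1, mul_assoc (Y.ι (c i j)) (Y.u (k + 1)),
        ← mul_assoc (Y.u (k + 1)), hut, mul_assoc (Y.ι w ^ i), htu, ← mul_assoc (Y.ι w ^ i),
        hwt i _ (pow_mem htD j), ← mul_assoc, ← mul_assoc]
    exact (mul_eq_zero.1 h2).resolve_right hu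
  -- the relation for `x, t`
  have hx' : ∑ j ∈ range H.n, (∑ i ∈ range H.n, Y.ι (H.h i j) * y ^ i) * (x * t ^ j) = 0 := by
    have h2 : (∑ j ∈ range H.n, (∑ i ∈ range H.n, Y.ι (H.h i j) * y ^ i) * (x * t ^ j)) *
        Y.u (k + 1) = 0 := by
      rw [← h0]
      unfold DD.act
      rw [Finset.sum_comm, Finset.sum_mul]
      refine Finset.sum_congr rfl fun j _ => ?_
      rw [Finset.sum_mul, Finset.sum_mul]
      refine Finset.sum_congr rfl fun i _ => ?_
      rw [mul_assoc (Y.ι (H.h i j) * y ^ i), mul_assoc x, ← htu]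
      simp only [mul_assoc]
    exact (mul_eq_zero.1 h2).resolve_right hu
  let iE : DivisionRing (Y.DK k) := divDK Y k
  let rm : D → (D →ₗ[Y.DK k] D) := fun t => {
    toFun := fun a => a * t
    map_add' := fun a b => add_mul a b t
    map_smul' := fun s a => mul_assoc (s : D) a t }
  have hrt : ∀ t j (a : D), (rm t ^ j) a = a * t ^ j := by
    intro t j
    induction j with
    | zero => intro a; rw [pow_zero, pow_zero, mul_one]; rfl
    | succ j ih => intro a; rw [pow_succ', Module.End.mul_apply, ih, pow_succ, ← mul_assoc]; rfl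
  have hsmul : ∀ (s : Y.DK k) (a : D), s • a = (s : D) * a := fun s a => rfl
  let W1 := Submodule.span (Y.DK k) (Set.range fun j : ℕ => (rm t ^ j) x)
  have hW1 : FiniteDimensional (Y.DK k) W1 := by
    refine fd_cyc (rm t) x H.n (fun j => ⟨∑ i ∈ range H.n, Y.ι (H.h i j) * y ^ i,
      sum_mem fun i _ => mul_mem (Y.ι_mem_DK k _ (H.mem_K i j)) (pow_mem hyk i)⟩) ?_ ?_
    · obtain ⟨i, hi, j, hj, hij⟩ := H.ne
      refine ⟨j, hj, fun h1 => ?_⟩
      exact tsum_ne Y k H.n y hyF (fun i => H.h i j) (fun i => H.mem_F i j)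
        (fun i => H.mem_K i j) ⟨i, hi, hij⟩ (congrArg Subtype.val h1)
    · rw [← hx']
      refine Finset.sum_congr rfl fun j _ => ?_
      rw [hsmul, hrt]
  -- `W1` is stable under right multiplication by `t` and by polynomials in `t`
  have hW1t : ∀ v ∈ W1, v * t ∈ W1 := by
    intro v hv
    induction hv using Submodule.span_induction with
    | mem v hv =>
      obtain ⟨j, rfl⟩ := hv
      refine Submodule.subset_span ⟨j + 1, ?_⟩
      show (rm t ^ (j + 1)) x = (rm t ^ j) x * t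
      rw [hrt, hrt, pow_succ, mul_assoc]
    | zero => rw [zero_mul]; exact W1.zero_mem
    | add a b _ _ ha hb => rw [add_mul]; exact W1.add_mem ha hb
    | smul s a _ ha => rw [hsmul, mul_assoc, ← hsmul]; exact W1.smul_mem s ha
  have hW1t' : ∀ j, ∀ v ∈ W1, v * t ^ j ∈ W1 := by
    intro j
    induction j with
    | zero => intro v hv; rwa [pow_zero, mul_one]
    | succ j ih => intro v hv; rw [pow_succ, ← mul_assoc]; exact hW1t _ (ih v hv)
  have hW1c : ∀ i, ∀ v ∈ W1, v * (∑ j ∈ range n, Y.ι (c i j) * t ^ j) ∈ W1 := by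
    intro i v hv
    rw [Finset.mul_sum]
    refine Submodule.sum_mem _ fun j _ => ?_
    rw [← mul_assoc, ← Y.F_comm _ (c i j).2.1, mul_assoc]
    exact W1.smul_mem ⟨Y.ι (c i j), Y.ι_mem_DK k _ (c i j).2.2⟩ (hW1t' j v hv)
  obtain ⟨d, hd, ⟨j0, hj0, hj0'⟩, hlast⟩ := exists_last n (fun i => ∃ j < n, c i j ≠ 0) hc
  obtain ⟨W2, hW2, hW2'⟩ := fd_alg W1 (fun i => rm (∑ j ∈ range n, Y.ι (c i j) * t ^ j))
    (rm (Y.ι w)) d hW1c
    (by
      intro v hv h1
      refine (mul_eq_zero.1 h1).resolve_right ?_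
      exact tsum_ne Y k n t hyF' (fun j => c d j) (fun j => (c d j).2.1) (fun j => (c d j).2.2)
        ⟨j0, hj0, fun h => hj0' (Subtype.ext h)⟩)
    (by
      intro v hv
      have h1 : ∑ i ∈ range (d + 1), (∑ j ∈ range n, Y.ι (c i j) * t ^ j) * Y.ι w ^ i = 0 := by
        rw [← hs']
        refine Finset.sum_subset (fun i hi => ?_) (fun i hi hi2 => ?_)
        · rw [mem_range] at hi ⊢; omega
        · rw [mem_range] at hi hi2
          have h2 := hlast i hi (by omega)
          push Not at h2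
          rw [Finset.sum_eq_zero, zero_mul]
          intro j hj
          rw [h2 j (mem_range.1 hj)]
          simp
      have h3 : ∑ i ∈ range (d + 1), (rm (Y.ι w) ^ i) (rm (∑ j ∈ range n, Y.ι (c i j) * t ^ j) v)
          = v * ∑ i ∈ range (d + 1), (∑ j ∈ range n, Y.ι (c i j) * t ^ j) * Y.ι w ^ i := by
        rw [Finset.mul_sum]
        refine Finset.sum_congr rfl fun i _ => ?_
        rw [hrt]
        exact mul_assoc _ _ _
      rw [h3, h1, mul_zero])
  have hxW : x ∈ W1 := Submodule.subset_span ⟨0, by simp⟩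
  -- the independent family
  have hli : LinearIndependent (Y.DK k) (fun i : ℕ => (⟨(rm (Y.ι w) ^ i) x, hW2' i x hxW⟩ : W2)) := by
    rw [linearIndependent_iff']
    intro S e he i hi
    have h1 := congrArg Subtype.val he
    rw [AddSubmonoidClass.coe_finsetSum] at h1
    have h2 : (∑ i ∈ S, (e i : D) * Y.ι w ^ i) * x = 0 := by
      rw [Finset.sum_mul]
      refine Eq.trans ?_ (h1.trans rfl)
      refine Finset.sum_congr rfl fun i _ => ?_
      rw [mul_assoc, hwt i x hx, ← hrt]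
      rfl
    have h3 := (mul_eq_zero.1 h2).resolve_right hx0
    exact Subtype.ext (indep Y k w hwZ hwtr S (fun i => e i) (fun i => (e i).2) h3 i hi)
  have := hli.finite
  exact not_finite ℕ

theorem DD.centralizer_sub (m : ℕ) (y : D) (hy : y ∈ Y.DK m) (hyF : ∀ c ∈ X.F, y ≠ Y.ι c)
    (d : D) (hd : d * y = y * d) : d ∈ Y.Dm m := by
  classical
  by_contra hdm
  have hex : ∃ n, d ∈ Y.Dm n := by
    obtain ⟨n, hn⟩ := Y.exists_DK d
    exact ⟨n, Y.DK_le_Dm n hn⟩
  let n := Nat.find hex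
  have hn : d ∈ Y.Dm n := Nat.find_spec hex
  have hmn : m < n := by
    by_contra h
    exact hdm (Y.Dm_mono (not_lt.1 h) hn)
  obtain ⟨k, hk⟩ : ∃ k, n = k + 1 := ⟨n - 1, by omega⟩
  have hmk : m ≤ k := by omega
  have hdk : d ∉ Y.Dm k := Nat.find_min hex (show k < n by omega)
  rw [hk] at hn
  obtain ⟨x, hx, x', hx', hdx⟩ := Y.decomp k d hn
  have hx0 : x' ≠ 0 := by
    rintro rfl
    rw [zero_mul, add_zero] at hdx
    exact hdk (hdx ▸ hx)
  have hyk : y ∈ Y.Dm k := Y.DK_le_Dm k (Y.DK_mono hmk hy)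
  have hu := Y.u_ne (k + 1)
  have huy : Y.u (k + 1) * y = Y.u (k + 1) * y * (Y.u (k + 1))⁻¹ * Y.u (k + 1) := by
    rw [inv_mul_cancel_right₀ hu]
  have h1 := Y.decomp_unique k (x * y - y * x)
    (x' * (Y.u (k + 1) * y * (Y.u (k + 1))⁻¹) - y * x')
    (sub_mem (mul_mem hx hyk) (mul_mem hyk hx))
    (sub_mem (mul_mem hx' (Y.conj_mem k y hyk)) (mul_mem hyk hx'))
    (by
      have h2 : x' * (Y.u (k + 1) * y * (Y.u (k + 1))⁻¹) * Y.u (k + 1) = x' * Y.u (k + 1) * y := by
        rw [mul_assoc, ← huy, mul_assoc]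
      rw [sub_mul, h2]
      rw [hdx] at hd
      have h3 := sub_eq_zero.2 hd
      rw [← h3]
      noncomm_ring)
  have h4 : x' * Y.u (k + 1) * y = y * (x' * Y.u (k + 1)) := by
    have h5 := congrArg (fun a => a * Y.u (k + 1)) (sub_eq_zero.1 h1.2)
    beta_reduce at h5
    rw [mul_assoc, ← huy, ← mul_assoc, mul_assoc y] at h5
    exact h5
  refine Y.lemma4b m k hmk y hy hyF
    ⟨2, fun i j => if i = 1 ∧ j = 0 then 1 else if i = 0 ∧ j = 1 then -1 else 0, ?_, ?_, ?_⟩
    x' hx' hx0 ?_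
  · intro i j
    split_ifs
    · exact X.F.one_mem
    · exact X.F.neg_mem X.F.one_mem
    · exact X.F.zero_mem
  · intro i j
    split_ifs
    · exact (X.Kf k).one_mem
    · exact (X.Kf k).neg_mem (X.Kf k).one_mem
    · exact (X.Kf k).zero_mem
  · exact ⟨1, by norm_num, 0, by norm_num, by simp⟩
  · unfold DD.act
    simp only [Finset.sum_range_succ, Finset.sum_range_zero, zero_add]
    simp [h4]

end Pool.Agent.Helper91.DV
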