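import Pool.Agent.Helper91.DV.C0D

/-!
# Part C3A: the two claims on centralizers
-/

set_option autoImplicit false

open Finset

namespace Pool.Agent.Helper91.DV

variable {K : Type} [Field K] [CharZero K] {X : KD K} {D : Type} [DivisionRing D] (Y : DD X D)

/-! ### Auxiliary facts on valuations -/

theorem c3a_mul_lt_left {R : Type} [Ring R] (v : AddValuation R (WithTop ℚ)) {x y : R}
    {a b : WithTop ℚ} (hx : v x = a) (ha : a ≠ ⊤) (hy : b < v y) : a + b < v (x * y) := by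
  rw [AddValuation.map_mul, hx]
  exact (WithTop.add_lt_add_iff_left ha).2 hy

theorem c3a_mul_lt_right {R : Type} [Ring R] (v : AddValuation R (WithTop ℚ)) {x y : R}
    {a b : WithTop ℚ} (hx : v x = a) (ha : a ≠ ⊤) (hy : b < v y) : b + a < v (y * x) := by
  rw [AddValuation.map_mul, hx]
  exact (WithTop.add_lt_add_iff_right ha).2 hy

namespace KD

theorem c3a_v_iter (X : KD K) (m t : ℕ) (x : K) : X.v ((⇑(X.g m))^[t] x) = X.v x := by
  induction t with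
  | zero => rfl
  | succ t ih => rw [Function.iterate_succ_apply', X.v_g, ih]

theorem c3a_iter_sub (X : KD K) (m t : ℕ) (x y : K) :
    (⇑(X.g m))^[t] (x - y) = (⇑(X.g m))^[t] x - (⇑(X.g m))^[t] y := by
  induction t with
  | zero => rfl
  | succ t ih =>
    rw [Function.iterate_succ_apply', Function.iterate_succ_apply', Function.iterate_succ_apply',
      ih, map_sub]

theorem c3a_iter_step (X : KD K) (m i : ℕ) (x : K) (n : WithTop ℚ)
    (h : n < X.v (x - (⇑(X.g m))^[i] x)) (s : ℕ) : n < X.v (x - (⇑(X.g m))^[i * s] x) := by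
  induction s with
  | zero =>
    rw [mul_zero, Function.iterate_zero_apply, sub_self, AddValuation.map_zero]
    exact lt_of_lt_of_le h le_top
  | succ s ih =>
    have e : x - (⇑(X.g m))^[i * (s + 1)] x = (x - (⇑(X.g m))^[i * s] x) +
        (⇑(X.g m))^[i * s] (x - (⇑(X.g m))^[i] x) := by
      rw [X.c3a_iter_sub, ← Function.iterate_add_apply, mul_add, mul_one]
      ring
    rw [e]
    refine AddValuation.map_lt_add _ ih ?_
    rw [X.c3a_v_iter]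
    exact h

theorem c3a_iter_mul_order (X : KD K) (m c : ℕ) (x : K) : (⇑(X.g m))^[2 ^ m * c] x = x := by
  induction c with
  | zero => rfl
  | succ c ih => rw [mul_add, mul_one, Function.iterate_add_apply, X.g_order, ih]

/-- from an odd power to the first power -/
theorem c3a_odd (X : KD K) (m i : ℕ) (hi : Odd i) (x : K) (n : WithTop ℚ)
    (h : n < X.v (x - (⇑(X.g m))^[i] x)) : n < X.v (x - X.g m x) := by
  have hco : Nat.Coprime i (2 ^ m) := Nat.Coprime.pow_right m (Nat.coprime_two_right.2 hi)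
  rcases Nat.lt_or_ge 1 (2 ^ m) with h1 | h1
  · obtain ⟨s, hs⟩ := Nat.exists_mul_mod_eq_one_of_coprime hco h1
    have h2 := X.c3a_iter_step m i x n h s
    have h3 : i * s = 1 + 2 ^ m * (i * s / 2 ^ m) := by
      have := Nat.mod_add_div (i * s) (2 ^ m)
      omega
    rw [h3, Function.iterate_add_apply, X.c3a_iter_mul_order, Function.iterate_one] at h2
    exact h2
  · have hm : m = 0 := by
      by_contra hm
      have := Nat.one_lt_two_pow hm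
      omega
    subst hm
    rw [X.g_zero, sub_self, AddValuation.map_zero]
    exact lt_of_lt_of_le h le_top

/-- averaging over the group generated by `g m` -/
theorem c3a_avg (X : KD K) (m : ℕ) (x : K) (n : WithTop ℚ) (h : n < X.v (x - X.g m x)) :
    ∃ z ∈ X.Z m, n < X.v (x - z) := by
  have h2K : (2 : K) ≠ 0 := two_ne_zero
  have h2m : (2 ^ m : K) ≠ 0 := pow_ne_zero m h2K
  refine ⟨(2 ^ m)⁻¹ * ∑ t ∈ range (2 ^ m), (⇑(X.g m))^[t] x, ?_, ?_⟩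
  · rw [X.mem_Z, map_mul, map_inv₀, map_pow, map_sum]
    have e1 : X.g m 2 = 2 := by
      have := map_ofNat (X.g m) 2
      exact this
    rw [e1]
    congr 1
    have e2 : ∀ t ∈ range (2 ^ m), X.g m ((⇑(X.g m))^[t] x) = (⇑(X.g m))^[t + 1] x := by
      intro t _
      rw [Function.iterate_succ_apply']
    rw [Finset.sum_congr rfl e2]
    have e3 := Finset.sum_range_succ (fun t => (⇑(X.g m))^[t] x) (2 ^ m)
    have e4 := Finset.sum_range_succ' (fun t => (⇑(X.g m))^[t] x) (2 ^ m)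
    rw [e3] at e4
    simp only [Function.iterate_zero, id_eq, X.g_order] at e4
    exact (add_right_cancel e4).symm
  · have e : x - (2 ^ m)⁻¹ * ∑ t ∈ range (2 ^ m), (⇑(X.g m))^[t] x =
        (2 ^ m)⁻¹ * ∑ t ∈ range (2 ^ m), (x - (⇑(X.g m))^[t] x) := by
      rw [Finset.sum_sub_distrib, Finset.sum_const, Finset.card_range, nsmul_eq_mul, mul_sub]
      congr 1
      push_cast
      rw [← mul_assoc, inv_mul_cancel₀ h2m, one_mul]
    rw [e, AddValuation.map_mul]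
    have e5 : X.v ((2 ^ m)⁻¹) = 0 := by
      rw [AddValuation.map_inv, AddValuation.map_pow, X.v_two]
      simp
    rw [e5, zero_add]
    refine AddValuation.map_lt_sum' _ (lt_of_lt_of_le h le_top) fun t _ => ?_
    have := X.c3a_iter_step m 1 x n (by simpa using h) t
    rwa [one_mul] at this

end KD

namespace DD

theorem c3a_w_mul_comm_ne (x : D) (hx : x ≠ 0) : Y.w x ≠ ⊤ := (AddValuation.ne_top_iff _).2 hx

/-- leading terms and commutation -/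
theorem comm_leading (k : ℕ) (x : D) (hx : x ∈ Y.Dm k) (hx0 : x ≠ 0) (q : D) (l : K) (n : ℚ)
    (hq : Y.w q = (n : WithTop ℚ)) (hl : (n : WithTop ℚ) < Y.w (q - Y.ι l))
    (hc : q * (x * Y.u (k + 1)) = (x * Y.u (k + 1)) * q) :
    (n : WithTop ℚ) < X.v (l - X.g (k + 1) l) := by
  obtain ⟨i, _, hodd, ε, hε0, _, hlt⟩ := Y.leading_odd k x hx hx0
  obtain ⟨e, he⟩ : ∃ e, e = x * Y.u (k + 1) := ⟨_, rfl⟩
  rw [← he] at hc hlt
  obtain ⟨m, hm⟩ : ∃ m, m = Y.ι ε * Y.u (k + 1) ^ i := ⟨_, rfl⟩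
  rw [← hm] at hlt
  have he0 : e ≠ 0 := by
    rw [he]
    exact mul_ne_zero hx0 (Y.u_ne _)
  have hwe : Y.w e ≠ ⊤ := (AddValuation.ne_top_iff _).2 he0
  have hlt' : Y.w e < Y.w (m - e) := by
    rw [AddValuation.map_sub_swap]
    exact hlt
  have hwm : Y.w m = Y.w e := AddValuation.map_eq_of_lt_sub _ hlt'
  have hn : ((n : WithTop ℚ)) ≠ ⊤ := WithTop.coe_ne_top
  -- the commutator
  have hT : Y.ι (l - (⇑(X.g (k + 1)))^[i] l) * m =
      (Y.ι l - q) * m + q * (m - e) + (e - m) * q + m * (q - Y.ι l) := by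
    have h1 : Y.ι l * m - m * Y.ι l = Y.ι (l - (⇑(X.g (k + 1)))^[i] l) * m := by
      rw [hm, mul_assoc (Y.ι ε), Y.u_pow_mul, ← mul_assoc (Y.ι ε), ← map_mul, mul_comm ε, map_mul,
        mul_assoc, ← sub_mul, ← map_sub]
    rw [← h1]
    have h2 : (Y.ι l - q) * m + q * (m - e) + (e - m) * q + m * (q - Y.ι l) =
        Y.ι l * m - m * Y.ι l - (q * e - e * q) := by
      noncomm_ring
    rw [h2, hc, sub_self, sub_zero]
  have hwT : (n : WithTop ℚ) + Y.w e < Y.w (Y.ι (l - (⇑(X.g (k + 1)))^[i] l) * m) := by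
    rw [hT]
    refine AddValuation.map_lt_add _ (AddValuation.map_lt_add _ (AddValuation.map_lt_add _ ?_ ?_)
      ?_) ?_
    · refine c3a_mul_lt_right Y.w hwm hwe ?_
      rw [AddValuation.map_sub_swap]
      exact hl
    · exact c3a_mul_lt_left Y.w hq hn hlt'
    · rw [add_comm]
      exact c3a_mul_lt_right Y.w hq hn hlt
    · rw [add_comm]
      exact c3a_mul_lt_left Y.w hwm hwe hl
  rw [AddValuation.map_mul, hwm, Y.w_ι] at hwT
  exact X.c3a_odd (k + 1) i hodd l n ((WithTop.add_lt_add_iff_right hwe).1 hwT)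

/-- C3.2, Claim A -/
theorem claimA (k : ℕ) (x : D) (hx : x ∈ Y.Dm k) (hx0 : x ≠ 0) (q : D) (_hq : q ∈ Y.Dm k)
    (hw : Y.w q = 0) (hc : q * (x * Y.u (k + 1)) = (x * Y.u (k + 1)) * q) :
    ∃ z ∈ X.Z (k + 1), 0 < Y.w (q - Y.ι z) := by
  obtain ⟨l, _, hl⟩ := Y.approx_K q 0 (by rw [hw]; simp)
  simp only [Int.cast_zero, WithTop.coe_zero] at hl
  have h1 : ((0 : ℚ) : WithTop ℚ) < X.v (l - X.g (k + 1) l) :=
    Y.comm_leading k x hx hx0 q l 0 (by rw [hw]; simp) (by simpa using hl) hc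
  obtain ⟨z, hz, hz2⟩ := X.c3a_avg (k + 1) l _ h1
  refine ⟨z, hz, ?_⟩
  have e : q - Y.ι z = (q - Y.ι l) + Y.ι (l - z) := by
    rw [map_sub]
    abel
  rw [e]
  refine AddValuation.map_lt_add _ hl ?_
  rw [Y.w_ι]
  simpa using hz2

/-- C3.3, Claim B -/
theorem claimB (k1 : ℕ) (x1 : D) (hx1 : x1 ∈ Y.Dm k1) (hx10 : x1 ≠ 0) (q1 : D)
    (hq1 : q1 ∈ Y.Dm k1) (hw1 : Y.w q1 = (((1 : ℚ) / 2 : ℚ) : WithTop ℚ))
    (hc1 : q1 * (x1 * Y.u (k1 + 1)) = (x1 * Y.u (k1 + 1)) * q1) :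
    ∃ K0, ∀ k, K0 ≤ k → ∀ x ∈ Y.Dm k, x ≠ 0 → ∀ q ∈ Y.Dm k1,
      Y.w q = (((1 : ℚ) / 2 : ℚ) : WithTop ℚ) →
      q * (x1 * Y.u (k1 + 1)) = (x1 * Y.u (k1 + 1)) * q →
      q * (x * Y.u (k + 1)) = (x * Y.u (k + 1)) * q → False := by
  have hq10 : q1 ≠ 0 := by
    intro h
    rw [h, AddValuation.map_zero] at hw1
    exact WithTop.top_ne_coe hw1
  -- the leading term of `q1`
  obtain ⟨i, hi, ξ, hξ0, hwξ, hlt⟩ := Y.leading k1 q1 hq1 hq10
  obtain ⟨n, hn⟩ := X.v_int ξ hξ0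
  have hnum : (n : ℚ) + (i : ℚ) / 2 ^ k1 = 1 / 2 := by
    rw [hw1, hn] at hwξ
    have : (((1 : ℚ) / 2 : ℚ) : WithTop ℚ) = (((n : ℚ) + (i : ℚ) / 2 ^ k1 : ℚ) : WithTop ℚ) := by
      rw [hwξ]
      rfl
    exact (WithTop.coe_injective this).symm
  have h2pos : (0 : ℚ) < 2 ^ k1 := by positivity
  have hfr0 : 0 ≤ (i : ℚ) / 2 ^ k1 := by positivity
  have hfr1 : (i : ℚ) / 2 ^ k1 < 1 := by
    rw [div_lt_one h2pos]
    exact_mod_cast hi
  have hn0 : n = 0 := by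
    have h1 : (n : ℚ) < 1 := by linarith
    have h2 : (-1 : ℚ) < n := by linarith
    have h1' : n < 1 := by exact_mod_cast h1
    have h2' : -1 < n := by exact_mod_cast h2
    omega
  rw [hn0] at hnum hn
  have hi2 : 2 * i = 2 ^ k1 := by
    have : (i : ℚ) / 2 ^ k1 = 1 / 2 := by simpa using hnum
    rw [div_eq_div_iff h2pos.ne' (by norm_num)] at this
    have h3 : (2 * i : ℚ) = 2 ^ k1 := by linarith
    exact_mod_cast h3
  obtain ⟨s, hs⟩ : ∃ s, k1 = s + 1 := by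
    cases k1 with
    | zero => simp at hi2
    | succ s => exact ⟨s, rfl⟩
  have hi3 : i = 2 ^ s := by
    rw [hs, pow_succ] at hi2
    omega
  have hvξ : X.v ξ = 0 := by rw [hn]; simp
  -- the element `μ`
  obtain ⟨μ, hμ⟩ : ∃ μ, μ = ξ * X.g 1 ξ * X.a k1 := ⟨_, rfl⟩
  have hvμ : X.v μ = 1 := by
    rw [hμ, AddValuation.map_mul, AddValuation.map_mul, X.v_g, hvξ, X.v_a]
    simp
  have hgi : ∀ z, (⇑(X.g k1))^[i] z = X.g 1 z := by
    intro z
    rw [hi3, hs, add_comm s 1]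
    exact X.g_iter 1 s z
  have hsq : (Y.ι ξ * Y.u k1 ^ i) * (Y.ι ξ * Y.u k1 ^ i) = Y.ι μ := by
    have h1 : Y.u k1 ^ i * Y.u k1 ^ i = Y.ι (X.a k1) := by
      rw [← pow_add, ← two_mul, hi2, Y.u_pow]
    calc (Y.ι ξ * Y.u k1 ^ i) * (Y.ι ξ * Y.u k1 ^ i)
        = Y.ι ξ * (Y.u k1 ^ i * Y.ι ξ) * Y.u k1 ^ i := by noncomm_ring
      _ = Y.ι ξ * (Y.ι (X.g 1 ξ) * Y.u k1 ^ i) * Y.u k1 ^ i := by rw [Y.u_pow_mul, hgi]
      _ = Y.ι ξ * Y.ι (X.g 1 ξ) * (Y.u k1 ^ i * Y.u k1 ^ i) := by noncomm_ring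
      _ = Y.ι μ := by rw [h1, hμ, map_mul, map_mul]
  have hhalf : ((((1 : ℚ) / 2 : ℚ)) : WithTop ℚ) ≠ ⊤ := WithTop.coe_ne_top
  have hsum : ((((1 : ℚ) / 2 : ℚ)) : WithTop ℚ) + ((((1 : ℚ) / 2 : ℚ)) : WithTop ℚ) = 1 := by
    rw [← WithTop.coe_add]
    norm_num
  rw [hw1] at hlt
  have hwm : Y.w (Y.ι ξ * Y.u k1 ^ i) = (((1 : ℚ) / 2 : ℚ) : WithTop ℚ) := by
    rw [← hw1]
    refine AddValuation.map_eq_of_lt_sub _ ?_
    rw [hw1, AddValuation.map_sub_swap]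
    exact hlt
  have hq1sq : 1 < Y.w (q1 * q1 - Y.ι μ) := by
    have e : q1 * q1 - Y.ι μ = q1 * (q1 - Y.ι ξ * Y.u k1 ^ i) +
        (q1 - Y.ι ξ * Y.u k1 ^ i) * (Y.ι ξ * Y.u k1 ^ i) := by
      rw [← hsq]
      noncomm_ring
    rw [e, ← hsum]
    refine AddValuation.map_lt_add _ ?_ ?_
    · exact c3a_mul_lt_left Y.w hw1 hhalf hlt
    · exact c3a_mul_lt_right Y.w hwm hhalf hlt
  obtain ⟨j, hj⟩ := X.Kf_exh μ
  refine ⟨max j k1, ?_⟩
  intro k hk x hx hx0 q hq hwq hce1 hce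
  have hjk : j ≤ k := (le_max_left _ _).trans hk
  -- the quotient
  have hq1inv : q1⁻¹ ∈ Y.Dm k1 := Y.inv_mem_Dm k1 q1 hq1
  have hquot : q * q1⁻¹ ∈ Y.Dm k1 := Subring.mul_mem _ hq hq1inv
  have hwquot : Y.w (q * q1⁻¹) = 0 := by
    have h1 : Y.w (q * q1⁻¹) + Y.w q1 = Y.w q := by
      rw [← AddValuation.map_mul, mul_assoc, inv_mul_cancel₀ hq10, mul_one]
    rw [hw1, hwq] at h1
    have h2 : Y.w (q * q1⁻¹) + (((1 : ℚ) / 2 : ℚ) : WithTop ℚ) =
        0 + (((1 : ℚ) / 2 : ℚ) : WithTop ℚ) := by rw [h1, zero_add]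
    exact WithTop.add_right_cancel hhalf h2
  have hcomm1 : Commute q (x1 * Y.u (k1 + 1)) := hce1
  have hcomm2 : Commute q1 (x1 * Y.u (k1 + 1)) := hc1
  have hcquot : Commute (q * q1⁻¹) (x1 * Y.u (k1 + 1)) :=
    hcomm1.mul_left hcomm2.inv_left₀
  obtain ⟨ζ, hζ, hζ2⟩ := Y.claimA k1 x1 hx1 hx10 (q * q1⁻¹) hquot hwquot hcquot
  have hvζ : X.v ζ = 0 := by
    rw [← Y.w_ι, ← hwquot]
    refine AddValuation.map_eq_of_lt_sub _ ?_
    rw [hwquot, AddValuation.map_sub_swap]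
    exact hζ2
  have hζ0 : ζ ≠ 0 := by
    intro h
    rw [h, AddValuation.map_zero] at hvζ
    exact WithTop.top_ne_zero hvζ
  have hdiff : (((1 : ℚ) / 2 : ℚ) : WithTop ℚ) < Y.w (q - Y.ι ζ * q1) := by
    have e : q - Y.ι ζ * q1 = (q * q1⁻¹ - Y.ι ζ) * q1 := by
      rw [sub_mul, mul_assoc, inv_mul_cancel₀ hq10, mul_one]
    rw [e]
    have := c3a_mul_lt_right Y.w hw1 hhalf hζ2
    rwa [zero_add] at this
  have hcen : Y.ι ζ * q1 = q1 * Y.ι ζ := Y.Z_comm (k1 + 1) hζ (Y.Dm_mono (Nat.le_succ k1) hq1)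
  have hwζ : Y.w (Y.ι ζ) = 0 := by rw [Y.w_ι, hvζ]
  have hwζq : Y.w (Y.ι ζ * q1) = (((1 : ℚ) / 2 : ℚ) : WithTop ℚ) := by
    rw [AddValuation.map_mul, hwζ, hw1, zero_add]
  have hqsq : 1 < Y.w (q * q - Y.ι (ζ * ζ * μ)) := by
    have e0 : Y.ι ζ * q1 * (Y.ι ζ * q1) = Y.ι ζ * Y.ι ζ * (q1 * q1) := by
      calc Y.ι ζ * q1 * (Y.ι ζ * q1) = Y.ι ζ * (q1 * Y.ι ζ) * q1 := by noncomm_ring
        _ = Y.ι ζ * (Y.ι ζ * q1) * q1 := by rw [← hcen]
        _ = Y.ι ζ * Y.ι ζ * (q1 * q1) := by noncomm_ring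
    have e : q * q - Y.ι (ζ * ζ * μ) = q * (q - Y.ι ζ * q1) +
        (q - Y.ι ζ * q1) * (Y.ι ζ * q1) + Y.ι ζ * Y.ι ζ * (q1 * q1 - Y.ι μ) := by
      have : q * (q - Y.ι ζ * q1) + (q - Y.ι ζ * q1) * (Y.ι ζ * q1) +
          Y.ι ζ * Y.ι ζ * (q1 * q1 - Y.ι μ) =
          q * q - Y.ι ζ * Y.ι ζ * Y.ι μ + (Y.ι ζ * Y.ι ζ * (q1 * q1) -
            Y.ι ζ * q1 * (Y.ι ζ * q1)) := by noncomm_ring
      rw [this, e0, sub_self, add_zero, map_mul, map_mul]
    rw [e]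
    refine AddValuation.map_lt_add _ (AddValuation.map_lt_add _ ?_ ?_) ?_
    · rw [← hsum]
      exact c3a_mul_lt_left Y.w hwq hhalf hdiff
    · rw [← hsum]
      exact c3a_mul_lt_right Y.w hwζq hhalf hdiff
    · have h5 : Y.w (Y.ι ζ * Y.ι ζ) = 0 := by
        rw [AddValuation.map_mul, hwζ, zero_add]
      have := c3a_mul_lt_left Y.w h5 WithTop.zero_ne_top hq1sq
      rwa [zero_add] at this
  have hwqq : Y.w (q * q) = ((1 : ℚ) : WithTop ℚ) := by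
    rw [AddValuation.map_mul, hwq, hsum]
    rfl
  have hcommq : Commute q (x * Y.u (k + 1)) := hce
  have hfin := Y.comm_leading k x hx hx0 (q * q) (ζ * ζ * μ) 1 hwqq hqsq
    (hcommq.mul_left hcommq)
  refine X.V3 k μ (X.Kf_mono' hjk hj) hvμ (ζ / X.g (k + 1) ζ) ?_
  have hg0 : X.g (k + 1) ζ ≠ 0 := by
    intro h
    exact hζ0 (by simpa using h)
  have e : X.g (k + 1) μ - (ζ / X.g (k + 1) ζ) ^ 2 * μ =
      -(((X.g (k + 1) ζ) * (X.g (k + 1) ζ))⁻¹ * (ζ * ζ * μ - X.g (k + 1) (ζ * ζ * μ))) := by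
    rw [map_mul, map_mul]
    field_simp
    ring
  rw [e, AddValuation.map_neg, AddValuation.map_mul, AddValuation.map_inv, AddValuation.map_mul,
    X.v_g, hvζ]
  simpa using hfin

end DD
end Pool.Agent.Helper91.DV
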