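import Pool.Agent.Helper91.DV.C3E
import Pool.Agent.Helper91.DV.C3A

set_option autoImplicit false
open Finset
namespace Pool.Agent.Helper91.DV

variable {K : Type} [Field K] [CharZero K] {X : KD K} {D : Type} [DivisionRing D] (Y : DD X D)

namespace C3B

theorem w_ne_top (x : D) (hx : x ≠ 0) : ∃ t : ℚ, Y.w x = (t : WithTop ℚ) := by
  have h : Y.w x ≠ ⊤ := fun h => hx ((Y.w.top_iff).1 h)
  exact ⟨(Y.w x).untop h, by simp⟩

theorem w_pow (x : D) (t : ℚ) (h : Y.w x = (t : WithTop ℚ)) (n : ℕ) :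
    Y.w (x ^ n) = ((n * t : ℚ) : WithTop ℚ) := by
  induction n with
  | zero => simp
  | succ n ih =>
    rw [pow_succ, Y.w.map_mul, ih, h, ← WithTop.coe_add]
    congr 1; push_cast; ring

theorem w_inv (x : D) (t : ℚ) (h : Y.w x = (t : WithTop ℚ)) : Y.w x⁻¹ = ((-t : ℚ) : WithTop ℚ) := by
  have hx : x ≠ 0 := by rintro rfl; simp at h
  obtain ⟨s, hs⟩ := w_ne_top Y x⁻¹ (inv_ne_zero hx)
  have h1 : Y.w (x * x⁻¹) = 0 := by rw [mul_inv_cancel₀ hx]; simp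
  rw [Y.w.map_mul, h, hs, ← WithTop.coe_add] at h1
  have h2 : t + s = 0 := by exact_mod_cast h1
  rw [hs]; congr 1; linarith

theorem w_zpow (x : D) (t : ℚ) (h : Y.w x = (t : WithTop ℚ)) (n : ℤ) :
    Y.w (x ^ n) = ((n * t : ℚ) : WithTop ℚ) := by
  cases n with
  | ofNat n => simpa using w_pow Y x t h n
  | negSucc n =>
    rw [zpow_negSucc, w_inv Y _ _ (w_pow Y x t h (n + 1))]
    congr 1; push_cast; ring

/-- a rational number of the form `s / 2^m` which is not an integer has an integral multiple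
`≡ 1/2 mod 2` -/
theorem exists_half (t : ℚ) (m : ℕ) (s : ℤ) (h : t = s / 2 ^ m) (ht : ∀ n : ℤ, t ≠ n) :
    ∃ n k : ℤ, n * t = 1 / 2 + 2 * k := by
  induction m generalizing s with
  | zero => exact absurd (by simpa using h) (ht s)
  | succ m ih =>
    rcases Int.even_or_odd' s with ⟨r, hr | hr⟩
    · apply ih r
      rw [h, hr]; push_cast; rw [pow_succ]; field_simp
    · refine ⟨s * 2 ^ m, r * (r + 1), ?_⟩
      rw [h, hr]; push_cast; rw [pow_succ]; field_simp; ring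

theorem main (R : Subring D) (m k : ℕ) (hmk : m ≤ k)
    (hQ : ∀ q : D, (∀ r ∈ R, r ∈ Y.Dm (k + 1) → q * r = r * q) → q ∈ Y.Dm m)
    (x : D) (hx : x ∈ Y.Dm k) (hx0 : x ≠ 0) (hxR : x * Y.u (k + 1) ∈ R)
    (hno : ∀ q : D, (∀ r ∈ R, r ∈ Y.Dm (k + 1) → q * r = r * q) →
      Y.w q ≠ (((1 : ℚ) / 2 : ℚ) : WithTop ℚ))
    (q : D) (hq : ∀ r ∈ R, r ∈ Y.Dm (k + 1) → q * r = r * q) : ∃ z ∈ X.Z (k + 1), q = Y.ι z := by
  have hxm : x * Y.u (k + 1) ∈ Y.Dm (k + 1) :=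
    mul_mem (Y.Dm_mono (Nat.le_succ k) hx) (Y.u_mem_Dm _)
  -- the centralizer as a set
  let Q : D → Prop := fun q => ∀ r ∈ R, r ∈ Y.Dm (k + 1) → q * r = r * q
  have Qι : ∀ z ∈ X.Z (k + 1), Q (Y.ι z) := fun z hz r _ hr => Y.Z_comm (k + 1) hz hr
  have Qmul : ∀ a b, Q a → Q b → Q (a * b) := by
    intro a b ha hb r hr hr'
    rw [mul_assoc, hb r hr hr', ← mul_assoc, ha r hr hr', mul_assoc]
  have Qsub : ∀ a b, Q a → Q b → Q (a - b) := by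
    intro a b ha hb r hr hr'
    rw [sub_mul, mul_sub, ha r hr hr', hb r hr hr']
  have Qinv : ∀ a, Q a → Q a⁻¹ := by
    intro a ha r hr hr'
    have : Commute a r := ha r hr hr'
    exact (this.inv_left₀).eq
  have Qzpow : ∀ a (n : ℤ), Q a → Q (a ^ n) := by
    intro a n ha r hr hr'
    have : Commute a r := ha r hr hr'
    exact (this.zpow_left₀ n).eq
  -- values are integral
  have hint : ∀ a, Q a → a ≠ 0 → ∃ n : ℤ, Y.w a = ((n : ℚ) : WithTop ℚ) := by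
    intro a ha ha0
    obtain ⟨i, hi, b, hb0, hwa, -⟩ := Y.leading m a (hQ a ha) ha0
    obtain ⟨nb, hnb⟩ := X.v_int b hb0
    obtain ⟨t, ht⟩ := w_ne_top Y a ha0
    by_contra hcon
    push Not at hcon
    have hts : t = ((nb * 2 ^ m + i : ℤ) : ℚ) / 2 ^ m := by
      rw [ht, hnb, ← WithTop.coe_add] at hwa
      have h2 : t = nb + i / 2 ^ m := by exact_mod_cast hwa
      rw [h2]; push_cast; field_simp
    obtain ⟨n, l, hnl⟩ := exists_half t m _ hts (fun n hn => hcon n (by rw [ht, hn]))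
    have hϖ0 : X.ϖ ≠ 0 := by
      intro h; have := X.v_ϖ; rw [h, AddValuation.map_zero] at this
      exact absurd this (by decide)
    have hϖ : Y.w (Y.ι X.ϖ) = ((2 : ℚ) : WithTop ℚ) := by rw [Y.w_ι, X.v_ϖ]; rfl
    have hϖZ : X.ϖ ∈ X.Z (k + 1) := X.g_F _ _ X.ϖ_mem
    refine hno (a ^ n * (Y.ι X.ϖ) ^ (-l)) (Qmul _ _ (Qzpow _ _ ha) (Qzpow _ _ (Qι _ hϖZ))) ?_
    rw [Y.w.map_mul, w_zpow Y a t ht n, w_zpow Y _ 2 hϖ (-l), ← WithTop.coe_add]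
    congr 1
    rw [hnl]; push_cast; ring
  -- approximation
  have ha1 : Y.w (Y.ι (X.a (k + 1))) = ((1 : ℚ) : WithTop ℚ) := by rw [Y.w_ι, X.v_a]; rfl
  have haZ : X.a (k + 1) ∈ X.Z (k + 1) := X.g_a _
  have happ : ∀ b, Q b → b ≠ 0 → ∀ n : ℤ, Y.w b = ((n : ℚ) : WithTop ℚ) →
      ∃ z ∈ X.Z (k + 1), ((n : ℚ) : WithTop ℚ) < Y.w (b - Y.ι z) := by
    intro b hb hb0 n hn
    have hq' : Q (b * (Y.ι (X.a (k + 1))) ^ (-n)) := Qmul _ _ hb (Qzpow _ _ (Qι _ haZ))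
    have hw' : Y.w (b * (Y.ι (X.a (k + 1))) ^ (-n)) = 0 := by
      rw [Y.w.map_mul, hn, w_zpow Y _ 1 ha1 (-n), ← WithTop.coe_add]
      norm_cast; ring
    obtain ⟨z, hz, hzw⟩ := Y.claimA k x hx hx0 _ (Y.Dm_mono hmk (hQ _ hq')) hw' (hq' _ hxR hxm)
    refine ⟨z * X.a (k + 1) ^ n, mul_mem hz (zpow_mem haZ n), ?_⟩
    have ha0 : Y.ι (X.a (k + 1)) ≠ 0 := by
      intro h; rw [h, AddValuation.map_zero] at ha1
      exact absurd ha1 (by simp)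
    have e : b - Y.ι (z * X.a (k + 1) ^ n) =
        (b * (Y.ι (X.a (k + 1))) ^ (-n) - Y.ι z) * (Y.ι (X.a (k + 1))) ^ n := by
      rw [sub_mul, mul_assoc, ← zpow_add₀ ha0, map_mul, map_zpow₀]; simp
    rw [e, Y.w.map_mul, w_zpow Y _ 1 ha1 n]
    generalize Y.w (b * (Y.ι (X.a (k + 1))) ^ (-n) - Y.ι z) = A at hzw
    cases A with
    | top => simp
    | coe A =>
      rw [← WithTop.coe_add]
      have : (0 : ℚ) < A := by exact_mod_cast hzw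
      exact_mod_cast (by linarith : (n : ℚ) < A + n * 1)
  -- q is in the centre of D_{k+1}
  by_cases hq0 : q = 0
  · exact ⟨0, zero_mem _, by rw [hq0, map_zero]⟩
  obtain ⟨n0, hn0⟩ := hint q hq hq0
  have hlim : ∀ N : ℕ, ∃ z ∈ X.Z (k + 1), ((n0 + N : ℚ) : WithTop ℚ) ≤ Y.w (q - Y.ι z) := by
    intro N
    induction N with
    | zero => exact ⟨0, zero_mem _, by simp [hn0]⟩
    | succ N ih =>
      obtain ⟨z, hz, hzw⟩ := ih
      by_cases h0 : q - Y.ι z = 0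
      · exact ⟨z, hz, by rw [h0]; simp⟩
      have hb : Q (q - Y.ι z) := Qsub _ _ hq (Qι z hz)
      obtain ⟨n', hn'⟩ := hint _ hb h0
      obtain ⟨z', hz', hzw'⟩ := happ _ hb h0 n' hn'
      refine ⟨z + z', add_mem hz hz', ?_⟩
      have e : q - Y.ι (z + z') = q - Y.ι z - Y.ι z' := by rw [map_add]; abel
      rw [e]
      by_cases h1 : q - Y.ι z - Y.ι z' = 0
      · rw [h1]; simp
      obtain ⟨n2, hn2⟩ := hint _ (Qsub _ _ hb (Qι z' hz')) h1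
      rw [hn2] at hzw' ⊢
      rw [hn'] at hzw
      have h3 : n' < n2 := by exact_mod_cast hzw'
      have h4 : (n0 + N : ℚ) ≤ n' := by exact_mod_cast hzw
      have h5 : (n0 + N : ℤ) ≤ n' := by exact_mod_cast h4
      have h6 : (n0 + (N + 1 : ℕ) : ℤ) ≤ n2 := by push_cast; linarith
      exact_mod_cast h6
  apply Y.ι_mem_iff_center (k + 1) q (Y.Dm_mono (by omega) (hQ q hq))
  intro d hd
  by_contra hne
  have hne' : q * d - d * q ≠ 0 := sub_ne_zero.2 hne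
  have hd0 : d ≠ 0 := by rintro rfl; simp at hne
  obtain ⟨t, ht⟩ := w_ne_top Y _ hne'
  obtain ⟨s, hs⟩ := w_ne_top Y d hd0
  obtain ⟨N, hN⟩ := exists_nat_gt (t - s - n0)
  obtain ⟨z, hz, hzw⟩ := hlim N
  have e : q * d - d * q = (q - Y.ι z) * d - d * (q - Y.ι z) := by
    rw [sub_mul, mul_sub, Y.Z_comm (k + 1) hz hd]; abel
  have h1 : ((n0 + N + s : ℚ) : WithTop ℚ) ≤ Y.w (q * d - d * q) := by
    rw [e]
    refine le_trans ?_ (Y.w.map_sub _ _)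
    rw [Y.w.map_mul, Y.w.map_mul, hs, add_comm (s : WithTop ℚ), min_self]
    generalize Y.w (q - Y.ι z) = A at hzw
    cases A with
    | top => simp
    | coe A =>
      rw [← WithTop.coe_add]
      have : (n0 + N : ℚ) ≤ A := by exact_mod_cast hzw
      exact_mod_cast (by linarith : (n0 + N + s : ℚ) ≤ A + s)
  rw [ht] at h1
  have : (n0 + N + s : ℚ) ≤ t := by exact_mod_cast h1
  linarith

end C3B

/-- C3.4 : centralizers shrink to the centre -/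
theorem DD.centralizer_eq (R : Subring D) (hRF : ∀ c ∈ X.F, Y.ι c ∈ R)
    (hR : ∀ m, ∃ r ∈ R, r ∉ Y.Dm m) (m : ℕ)
    (y : D) (hyR : y ∈ R) (hy : y ∈ Y.DK m) (hyF : ∀ c ∈ X.F, y ≠ Y.ι c) :
    ∃ K0, ∀ k, K0 ≤ k → (∃ r ∈ R, r ∈ Y.Dm (k + 1) ∧ r ∉ Y.Dm k) →
      ∀ q : D, (∀ r ∈ R, r ∈ Y.Dm (k + 1) → q * r = r * q) → ∃ z ∈ X.Z (k + 1), q = Y.ι z := by
  classical
  have hQ : ∀ k, m ≤ k → ∀ q : D, (∀ r ∈ R, r ∈ Y.Dm (k + 1) → q * r = r * q) → q ∈ Y.Dm m := by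
    intro k hk q hq
    exact Y.centralizer_sub m y hy hyF q
      (hq y hyR (Y.Dm_mono (by omega) (Y.DK_le_Dm m hy)))
  -- the first level
  obtain ⟨r, hrR, hrm⟩ := hR m
  have hex : ∃ n, r ∈ Y.Dm n := by
    obtain ⟨n, hn⟩ := Y.exists_DK r
    exact ⟨n, Y.DK_le_Dm n hn⟩
  have hn1 : r ∈ Y.Dm (Nat.find hex) := Nat.find_spec hex
  have hn2 : m < Nat.find hex := by
    by_contra h
    exact hrm (Y.Dm_mono (by omega) hn1)
  obtain ⟨k1, hk1⟩ : ∃ k1, Nat.find hex = k1 + 1 := ⟨Nat.find hex - 1, by omega⟩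
  have hrk1 : r ∉ Y.Dm k1 := Nat.find_min hex (by omega)
  rw [hk1] at hn1 hn2
  have hmk1 : m ≤ k1 := by omega
  obtain ⟨x1, hx1, hx10, hx1R⟩ := Y.exists_e R hRF m k1 hmk1 y hyR hy hyF r hrR hn1 hrk1
  have he1 : x1 * Y.u (k1 + 1) ∈ Y.Dm (k1 + 1) :=
    mul_mem (Y.Dm_mono (Nat.le_succ k1) hx1) (Y.u_mem_Dm _)
  have hmono : ∀ k, k1 ≤ k → ∀ q : D, (∀ r ∈ R, r ∈ Y.Dm (k + 1) → q * r = r * q) →
      (∀ r ∈ R, r ∈ Y.Dm (k1 + 1) → q * r = r * q) := by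
    intro k hk q hq r hr hr'
    exact hq r hr (Y.Dm_mono (by omega) hr')
  have key : ∃ K0, ∀ k, K0 ≤ k → (∃ r ∈ R, r ∈ Y.Dm (k + 1) ∧ r ∉ Y.Dm k) →
      m ≤ k ∧ ∀ q : D, (∀ r ∈ R, r ∈ Y.Dm (k + 1) → q * r = r * q) →
      Y.w q ≠ (((1 : ℚ) / 2 : ℚ) : WithTop ℚ) := by
    by_cases hcase : ∃ q1, (∀ r ∈ R, r ∈ Y.Dm (k1 + 1) → q1 * r = r * q1) ∧
        Y.w q1 = (((1 : ℚ) / 2 : ℚ) : WithTop ℚ)
    · obtain ⟨q1, hq1, hw1⟩ := hcase
      obtain ⟨K0, hK0⟩ := Y.claimB k1 x1 hx1 hx10 q1 (Y.Dm_mono hmk1 (hQ k1 hmk1 q1 hq1)) hw1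
        (hq1 _ hx1R he1)
      refine ⟨max K0 k1, fun k hk hJ => ⟨by omega, fun q hq hwq => ?_⟩⟩
      obtain ⟨r', hr'R, hr'1, hr'2⟩ := hJ
      obtain ⟨x, hx, hx0, hxR⟩ := Y.exists_e R hRF m k (by omega) y hyR hy hyF r' hr'R hr'1 hr'2
      have he : x * Y.u (k + 1) ∈ Y.Dm (k + 1) :=
        mul_mem (Y.Dm_mono (Nat.le_succ k) hx) (Y.u_mem_Dm _)
      exact hK0 k (by omega) x hx hx0 q (Y.Dm_mono hmk1 (hQ k (by omega) q hq)) hwq
        (hmono k (by omega) q hq _ hx1R he1) (hq _ hxR he)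
    · push Not at hcase
      exact ⟨k1, fun k hk _ => ⟨by omega, fun q hq => hcase q (hmono k hk q hq)⟩⟩
  obtain ⟨K0, hK0⟩ := key
  refine ⟨K0, fun k hk hJ q hq => ?_⟩
  obtain ⟨hmk, hno⟩ := hK0 k hk hJ
  obtain ⟨r', hr'R, hr'1, hr'2⟩ := hJ
  obtain ⟨x, hx, hx0, hxR⟩ := Y.exists_e R hRF m k hmk y hyR hy hyF r' hr'R hr'1 hr'2
  exact C3B.main Y R m k hmk (hQ k hmk) x hx hx0 hxR hno q hq

end Pool.Agent.Helper91.DV
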