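import Mathlib

/-!
# Density and the double centralizer theorem for a finite dimensional domain

`A` is a finite dimensional algebra without zero divisors over a field `Z`; `S` is a subalgebra whose
centralizer in `A` is `Z`.  Then every `Z`-linear map of `A` has the form `x ↦ ∑ s_i x d_i` with
`s_i ∈ S`, and consequently `S = A`.
-/

set_option autoImplicit false

namespace Pool.Agent.Helper91.DV

section CSA
variable {Z A : Type} [Field Z] [Ring A] [IsDomain A] [Algebra Z A] [FiniteDimensional Z A]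

namespace CSAaux

/-- maps `x ↦ s x d` with `s ∈ S` -/
def P (S : Subalgebra Z A) : Submonoid (Module.End Z A) where
  carrier := {g | ∃ s ∈ S, ∃ d : A, ∀ x, g x = s * x * d}
  one_mem' := ⟨1, S.one_mem, 1, fun x => by simp⟩
  mul_mem' := by
    rintro g h ⟨s, hs, d, hg⟩ ⟨t, ht, e, hh⟩
    refine ⟨s * t, S.mul_mem hs ht, e * d, fun x => ?_⟩
    rw [Module.End.mul_apply, hg, hh]
    noncomm_ring

/-- the algebra of maps `x ↦ ∑ s_i x d_i` with `s_i ∈ S` -/
def T (S : Subalgebra Z A) : Subalgebra Z (Module.End Z A) := Algebra.adjoin Z (P S : Set (Module.End Z A))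

omit [IsDomain A] [FiniteDimensional Z A] in
theorem mem_T {S : Subalgebra Z A} {g : Module.End Z A} (hg : g ∈ T S) :
    ∃ (n : ℕ) (s d : Fin n → A), (∀ i, s i ∈ S) ∧ ∀ x, g x = ∑ i, s i * x * d i := by
  have h1 : g ∈ Submodule.span Z (P S : Set (Module.End Z A)) := by
    have h2 : g ∈ Subalgebra.toSubmodule (T S) := hg
    rw [T, Algebra.adjoin_eq_span, Submonoid.closure_eq] at h2
    exact h2
  clear hg
  induction h1 using Submodule.span_induction with
  | mem g hg =>
    obtain ⟨s, hs, d, hg⟩ := hg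
    exact ⟨1, fun _ => s, fun _ => d, fun _ => hs, fun x => by simp [hg]⟩
  | zero => exact ⟨0, fun _ => 0, fun _ => 0, fun _ => S.zero_mem, fun x => by simp⟩
  | add g h _ _ ihg ihh =>
    obtain ⟨n, s, d, hs, hg⟩ := ihg
    obtain ⟨m, t, e, ht, hh⟩ := ihh
    refine ⟨n + m, Fin.append s t, Fin.append d e, fun i => ?_, fun x => ?_⟩
    · refine Fin.addCases (fun i => ?_) (fun i => ?_) i
      · rw [Fin.append_left]; exact hs i
      · rw [Fin.append_right]; exact ht i
    · rw [Fin.sum_univ_add, LinearMap.add_apply, hg, hh]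
      simp
  | smul c g _ ihg =>
    obtain ⟨n, s, d, hs, hg⟩ := ihg
    refine ⟨n, fun i => c • s i, d, fun i => S.smul_mem (hs i) c, fun x => ?_⟩
    rw [LinearMap.smul_apply, hg, Finset.smul_sum]
    simp

/-- the element `x ↦ s x d` of `T S` -/
def el (S : Subalgebra Z A) (s : A) (hs : s ∈ S) (d : A) : T S :=
  ⟨(LinearMap.mulRight Z d) ∘ₗ (LinearMap.mulLeft Z s),
    Algebra.subset_adjoin ⟨s, hs, d, fun x => by simp⟩⟩

omit [IsDomain A] [FiniteDimensional Z A] in
theorem el_smul (S : Subalgebra Z A) (s : A) (hs : s ∈ S) (d x : A) :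
    el S s hs d • x = s * x * d := by
  rfl

theorem exists_mul_eq (Z : Type) {A : Type} [Field Z] [Ring A] [IsDomain A] [Algebra Z A]
    [FiniteDimensional Z A] (x y : A) (hx : x ≠ 0) : ∃ d : A, x * d = y := by
  have h : Function.Injective (LinearMap.mulLeft Z x) := by
    intro a b hab
    exact mul_left_cancel₀ hx (by simpa using hab)
  obtain ⟨d, hd⟩ := (LinearMap.injective_iff_surjective.mp h) y
  exact ⟨d, by simpa using hd⟩

instance simple (S : Subalgebra Z A) : IsSimpleModule (T S) A := by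
  rw [isSimpleModule_iff_toSpanSingleton_surjective]
  refine ⟨inferInstance, fun x hx y => ?_⟩
  obtain ⟨d, hd⟩ := exists_mul_eq Z x y hx
  refine ⟨el S 1 S.one_mem d, ?_⟩
  rw [LinearMap.toSpanSingleton_apply, el_smul, one_mul, hd]

omit [IsDomain A] [FiniteDimensional Z A] in
theorem endo (S : Subalgebra Z A)
    (hS : ∀ a : A, (∀ s ∈ S, a * s = s * a) → a ∈ Set.range (algebraMap Z A))
    (φ : Module.End (T S) A) : ∃ z : Z, ∀ x, φ x = z • x := by
  have h1 : ∀ x, φ x = φ 1 * x := by
    intro x
    have := φ.map_smul (el S 1 S.one_mem x) 1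
    rw [el_smul, el_smul] at this
    simpa using this
  have h2 : ∀ s ∈ S, φ 1 * s = s * φ 1 := by
    intro s hs
    have := φ.map_smul (el S s hs 1) 1
    rw [el_smul, el_smul] at this
    rw [← h1]
    simpa using this
  obtain ⟨z, hz⟩ := hS _ h2
  refine ⟨z, fun x => ?_⟩
  rw [h1, ← hz, Algebra.smul_def]

end CSAaux

/-- if the centralizer of the subalgebra `S` is `Z`, every `Z`-linear map is `x ↦ ∑ s_i x d_i` -/
theorem density (S : Subalgebra Z A)
    (hS : ∀ a : A, (∀ s ∈ S, a * s = s * a) → a ∈ Set.range (algebraMap Z A)) (f : A →ₗ[Z] A) :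
    ∃ (n : ℕ) (s d : Fin n → A), (∀ i, s i ∈ S) ∧ ∀ x, f x = ∑ i, s i * x * d i := by
  classical
  let F : Module.End (Module.End (CSAaux.T S) A) A :=
    { toFun := f
      map_add' := f.map_add
      map_smul' := fun φ x => by
        obtain ⟨z, hz⟩ := CSAaux.endo S hS φ
        simp only [Module.End.smul_def, RingHom.id_apply]
        rw [hz, hz, f.map_smul] }
  obtain ⟨s, hs⟩ := Module.Finite.fg_top (R := Z) (M := A)
  obtain ⟨r, hr⟩ := jacobson_density (R := CSAaux.T S) (M := A) F s
  have hfr : f = (r : Module.End Z A) := by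
    refine LinearMap.ext_on_range (v := fun x : s => (x : A)) ?_ ?_
    · rw [Subtype.range_coe_subtype]
      simpa using hs
    · intro x
      exact hr x x.2
  rw [hfr]
  exact CSAaux.mem_T r.2

/-- double centralizer -/
theorem eq_top_of_centralizer (S : Subalgebra Z A)
    (hS : ∀ a : A, (∀ s ∈ S, a * s = s * a) → a ∈ Set.range (algebraMap Z A)) : S = ⊤ := by
  classical
  let B : S →ₗ[Z] A →ₗ[Z] Module.End Z A :=
    LinearMap.mk₂ Z (fun (s : S) (d : A) => (LinearMap.mulRight Z d) ∘ₗ (LinearMap.mulLeft Z (s : A)))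
      (fun s t d => by ext x; simp [add_mul])
      (fun c s d => by ext x; simp)
      (fun s d e => by ext x; simp [mul_add])
      (fun c s d => by ext x; simp)
  let Φ : TensorProduct Z S A →ₗ[Z] Module.End Z A := TensorProduct.lift B
  have hΦ : Function.Surjective Φ := by
    intro f
    obtain ⟨n, s, d, hs, hf⟩ := density S hS f
    refine ⟨∑ i, TensorProduct.tmul Z (⟨s i, hs i⟩ : S) (d i), ?_⟩
    ext x
    rw [map_sum, LinearMap.sum_apply, hf]
    rfl
  have h1 : Module.finrank Z (Module.End Z A) ≤ Module.finrank Z (TensorProduct Z S A) :=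
    LinearMap.finrank_le_finrank_of_surjective hΦ
  rw [Module.finrank_linearMap, Module.finrank_tensorProduct] at h1
  have h2 : 0 < Module.finrank Z A := Module.finrank_pos
  have h3 : Module.finrank Z A ≤ Module.finrank Z S := Nat.le_of_mul_le_mul_right h1 h2
  have h4 : Subalgebra.toSubmodule S = ⊤ :=
    Submodule.eq_top_of_finrank_eq (le_antisymm (Submodule.finrank_le _) h3)
  exact Algebra.toSubmodule_eq_top.mp h4

end CSA

end Pool.Agent.Helper91.DV
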