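import Pool.Agent.Helper91.DV.C3B
import Pool.Agent.Helper91.DV.CSA

/-!
# MP_5766af_al : descent, and the structure `Big` (module C3C)
-/

set_option autoImplicit false
open Finset
namespace Pool.Agent.Helper91.DV

variable {K : Type} [Field K] [CharZero K] {X : KD K} {D : Type} [DivisionRing D] (Y : DD X D)

/-- C3.5 -/
theorem DD.span_top_of_centralizer (R : Subring D) (l : ℕ)
    (h : ∀ q : D, (∀ r ∈ R, r ∈ Y.Dm l → q * r = r * q) → ∃ z ∈ X.Z l, q = Y.ι z) :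
    ∀ d ∈ Y.Dm l, d ∈ Y.span (X.Z l) R (Y.Dm l) := by
  intro d hd
  set s : Submonoid (Y.Dm l) := (R.comap (Y.Dm l).subtype).toSubmonoid with hs
  have hs' : ∀ a : Y.Dm l, a ∈ s ↔ (a : D) ∈ R := fun a => Iff.rfl
  have htop : Algebra.adjoin (X.Z l) (s : Set (Y.Dm l)) = ⊤ := by
    apply eq_top_of_centralizer
    intro a ha
    obtain ⟨z, hz, hza⟩ := h a (by
      intro r hr hrl
      have := ha ⟨r, hrl⟩ (Algebra.subset_adjoin (by
        change (⟨r, hrl⟩ : Y.Dm l) ∈ s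
        rw [hs']; exact hr))
      exact congrArg Subtype.val this)
    exact ⟨⟨z, hz⟩, Subtype.ext hza.symm⟩
  have hmem : (⟨d, hd⟩ : Y.Dm l) ∈ Submodule.span (X.Z l) (s : Set (Y.Dm l)) := by
    have h1 : (⟨d, hd⟩ : Y.Dm l) ∈ Algebra.adjoin (X.Z l) (s : Set (Y.Dm l)) := by
      rw [htop]; trivial
    rw [← Subalgebra.mem_toSubmodule, Algebra.adjoin_eq_span, Submonoid.closure_eq] at h1
    exact h1
  have key : ∀ a : Y.Dm l, a ∈ Submodule.span (X.Z l) (s : Set (Y.Dm l)) →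
      (a : D) ∈ Y.span (X.Z l) R (Y.Dm l) ∧
      ∀ z : X.Z l, Y.ι z * (a : D) ∈ Y.span (X.Z l) R (Y.Dm l) := by
    intro a ha
    induction ha using Submodule.span_induction with
    | mem x hx =>
      have hxR : (x : D) ∈ R := (hs' x).1 hx
      refine ⟨AddSubgroup.subset_closure ⟨1, one_mem _, x, hxR, x.2, by simp⟩, fun z => ?_⟩
      exact AddSubgroup.subset_closure ⟨z, z.2, x, hxR, x.2, rfl⟩
    | zero => simp
    | add x y _ _ hx hy =>
      refine ⟨?_, fun z => ?_⟩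
      · rw [Subring.coe_add]; exact AddSubgroup.add_mem _ hx.1 hy.1
      · rw [Subring.coe_add, mul_add]; exact AddSubgroup.add_mem _ (hx.2 z) (hy.2 z)
    | smul c x _ hx =>
      refine ⟨?_, fun z => ?_⟩
      · rw [DD.algZ_smul]; exact hx.2 c
      · rw [DD.algZ_smul, ← mul_assoc, ← map_mul]
        exact hx.2 (z * c)
  exact (key _ hmem).1

namespace C3C

/-- `Ψ d = h(L_y,R_y)(d e) e` as an additive map -/
noncomputable def Psi (Y : DD X D) {k : ℕ} (H : Biv X k) (y e : D) : D →+ D where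
  toFun d := Y.act H y (d * e) * e
  map_zero' := by simp [DD.act]
  map_add' := by
    intro a b
    simp only [DD.act]
    rw [← add_mul, ← Finset.sum_add_distrib]
    congr 1
    refine Finset.sum_congr rfl fun i _ => ?_
    rw [← Finset.sum_add_distrib]
    refine Finset.sum_congr rfl fun j _ => ?_
    rw [← mul_add]
    congr 1
    simp only [add_mul, mul_add]

theorem Psi_apply (Y : DD X D) {k : ℕ} (H : Biv X k) (y e d : D) :
    Psi Y H y e d = Y.act H y (d * e) * e := rfl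

/-- `D_k u` is stable under `act` -/
theorem act_mul_u {k : ℕ} (H : Biv X k) (y : D) (hy : y ∈ Y.Dm k) (a : D) (ha : a ∈ Y.Dm k) :
    ∃ b ∈ Y.Dm k, Y.act H y (a * Y.u (k + 1)) = b * Y.u (k + 1) := by
  refine ⟨∑ i ∈ range H.n, ∑ j ∈ range H.n, Y.ι (H.h i j) *
    (y ^ i * a * (Y.u (k + 1) * y ^ j * (Y.u (k + 1))⁻¹)), ?_, ?_⟩
  · refine Subring.sum_mem _ fun i _ => Subring.sum_mem _ fun j _ => ?_
    refine Subring.mul_mem _ (Y.ι_mem_Dm k _) (Subring.mul_mem _ (Subring.mul_mem _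
      (Subring.pow_mem _ hy i) ha) (Y.conj_mem k _ (Subring.pow_mem _ hy j)))
  · rw [DD.act, Finset.sum_mul]
    refine Finset.sum_congr rfl fun i _ => ?_
    rw [Finset.sum_mul]
    refine Finset.sum_congr rfl fun j _ => ?_
    have hu := Y.u_ne (k + 1)
    simp only [mul_assoc]
    rw [inv_mul_cancel₀ hu, mul_one]

theorem u_not_mem (k : ℕ) : Y.u (k + 1) ∉ Y.Dm k := by
  intro h
  have := Y.decomp_unique k (Y.u (k + 1)) (-1) h (Subring.neg_mem _ (Subring.one_mem _)) (by simp)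
  exact one_ne_zero (neg_eq_zero.1 this.2)

theorem mul_u_mul_u (k : ℕ) (a b : D) (ha : a ∈ Y.Dm k) (hb : b ∈ Y.Dm k) :
    a * Y.u (k + 1) * (b * Y.u (k + 1)) ∈ Y.Dm k := by
  have hu := Y.u_ne (k + 1)
  have : a * Y.u (k + 1) * (b * Y.u (k + 1)) =
      a * (Y.u (k + 1) * b * (Y.u (k + 1))⁻¹) * Y.u (k + 1) ^ 2 := by
    rw [pow_two]
    simp only [mul_assoc]
    rw [inv_mul_cancel_left₀ hu]
  rw [this]
  exact Subring.mul_mem _ (Subring.mul_mem _ ha (Y.conj_mem k b hb)) (Y.sq_mem k)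

theorem act_add {k : ℕ} (H : Biv X k) (y a b : D) :
    Y.act H y (a + b) = Y.act H y a + Y.act H y b := by
  simp only [DD.act]
  rw [← Finset.sum_add_distrib]
  refine Finset.sum_congr rfl fun i _ => ?_
  rw [← Finset.sum_add_distrib]
  refine Finset.sum_congr rfl fun j _ => ?_
  rw [← mul_add]
  congr 1
  simp only [add_mul, mul_add]

end C3C

/-- C3.6 : descent, one step -/
theorem DD.descent (R : Subring D) (hRF : ∀ c ∈ X.F, Y.ι c ∈ R) (m k : ℕ) (hmk : m ≤ k)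
    (y : D) (hyR : y ∈ R) (hy : y ∈ Y.DK m) (hyF : ∀ c ∈ X.F, y ≠ Y.ι c)
    (h : ∀ d ∈ Y.Dm (k + 1), d ∈ Y.span (X.Z (k + 1)) R (Y.Dm (k + 1))) :
    (∃ x ∈ Y.Dm k, x ≠ 0 ∧ x * Y.u (k + 1) ∈ R) ∧
      (∀ d ∈ Y.Dm k, d ∈ Y.span (X.Z (k + 1)) R (Y.Dm k)) := by
  -- an element of `R ∩ D_{k+1}` outside `D_k`
  have hr : ∃ r ∈ R, r ∈ Y.Dm (k + 1) ∧ r ∉ Y.Dm k := by
    by_contra hcon
    push Not at hcon
    have hle : Y.span (X.Z (k + 1)) R (Y.Dm (k + 1)) ≤ (Y.Dm k).toAddSubgroup := by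
      rw [DD.span, AddSubgroup.closure_le]
      rintro d ⟨z, hz, r, hr, hrD, rfl⟩
      exact (Y.Dm k).mul_mem (Y.ι_mem_Dm k z) (hcon r hr hrD)
    exact C3C.u_not_mem Y k (hle (h _ (Y.u_mem_Dm (k + 1))))
  obtain ⟨r, hrR, hr1, hr2⟩ := hr
  obtain ⟨x, hx, hx0, hxR⟩ := Y.exists_e R hRF m k hmk y hyR hy hyF r hrR hr1 hr2
  refine ⟨⟨x, hx, hx0, hxR⟩, ?_⟩
  obtain ⟨H, hH⟩ := Y.lemma4a m k hmk y hy hyF
  have hyk : y ∈ Y.Dm k := Y.Dm_mono hmk (Y.DK_le_Dm m hy)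
  have hyk1 : y ∈ Y.Dm (k + 1) := Y.Dm_mono (Nat.le_succ k) hyk
  obtain ⟨e, he⟩ : ∃ e : D, e = x * Y.u (k + 1) := ⟨_, rfl⟩
  have heR : e ∈ R := by rw [he]; exact hxR
  have he0 : e ≠ 0 := by rw [he]; exact mul_ne_zero hx0 (Y.u_ne _)
  -- `Ψ` maps `D_{k+1}` to `D_k`
  have hΨmem : ∀ d ∈ Y.Dm (k + 1), C3C.Psi Y H y e d ∈ Y.Dm k := by
    intro d hd
    obtain ⟨a, ha, b, hb, rfl⟩ := Y.decomp k d hd
    have h1 : (a + b * Y.u (k + 1)) * e = (a * x) * Y.u (k + 1) + b * Y.u (k + 1) * e := by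
      rw [add_mul, he, mul_assoc a x]
    have h2 : Y.act H y (b * Y.u (k + 1) * e) = 0 := by
      rw [he]; exact hH _ (C3C.mul_u_mul_u Y k b x hb hx)
    rw [C3C.Psi_apply, h1, C3C.act_add, h2, add_zero]
    obtain ⟨c, hc, hce⟩ := C3C.act_mul_u Y H y hyk (a * x) (Subring.mul_mem _ ha hx)
    rw [hce, he]
    exact C3C.mul_u_mul_u Y k c x hc hx
  have hΨR : ∀ d ∈ R, C3C.Psi Y H y e d ∈ R := by
    intro d hd
    rw [C3C.Psi_apply]
    refine R.mul_mem ?_ heR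
    rw [DD.act]
    refine Subring.sum_mem _ fun i _ => Subring.sum_mem _ fun j _ => ?_
    exact R.mul_mem (hRF _ (H.mem_F i j)) (R.mul_mem (R.mul_mem (R.pow_mem hyR i)
      (R.mul_mem hd heR)) (R.pow_mem hyR j))
  have hΨlin : ∀ z ∈ X.Z (k + 1), ∀ d : D, C3C.Psi Y H y e (Y.ι z * d) =
      Y.ι z * C3C.Psi Y H y e d := by
    intro z hz d
    rw [C3C.Psi_apply, C3C.Psi_apply, DD.act, DD.act, ← mul_assoc, Finset.mul_sum]
    congr 1
    refine Finset.sum_congr rfl fun i _ => ?_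
    rw [Finset.mul_sum]
    refine Finset.sum_congr rfl fun j _ => ?_
    have hc : y ^ i * Y.ι z = Y.ι z * y ^ i :=
      (Y.Z_comm (k + 1) hz (Subring.pow_mem _ hyk1 i)).symm
    have hc2 : Y.ι (H.h i j) * Y.ι z = Y.ι z * Y.ι (H.h i j) := by
      rw [← map_mul, ← map_mul, mul_comm]
    calc Y.ι (H.h i j) * (y ^ i * (Y.ι z * d * e) * y ^ j)
        = Y.ι (H.h i j) * ((y ^ i * Y.ι z) * (d * e) * y ^ j) := by simp only [mul_assoc]
      _ = (Y.ι (H.h i j) * Y.ι z) * (y ^ i * (d * e) * y ^ j) := by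
          rw [hc]; simp only [mul_assoc]
      _ = Y.ι z * (Y.ι (H.h i j) * (y ^ i * (d * e) * y ^ j)) := by
          rw [hc2]; simp only [mul_assoc]
  have hΨinj : ∀ d ∈ Y.Dm k, C3C.Psi Y H y e d = 0 → d = 0 := by
    intro d hd h0
    by_contra hd0
    have h1 := Y.lemma4b m k hmk y hy hyF H (d * x) (Subring.mul_mem _ hd hx)
      (mul_ne_zero hd0 hx0)
    rw [mul_assoc, ← he] at h1
    rw [C3C.Psi_apply] at h0
    exact mul_ne_zero h1 he0 h0
  -- the restriction of `Ψ` to `D_k`, seen inside `D_{k+1}` over `Z_{k+1}`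
  let W : Submodule (X.Z (k + 1)) (Y.Dm (k + 1)) :=
    { carrier := {d | (d : D) ∈ Y.Dm k}
      add_mem' := by intro a b ha hb; exact (Y.Dm k).add_mem ha hb
      zero_mem' := (Y.Dm k).zero_mem
      smul_mem' := by
        intro c a ha
        change ((c • a : Y.Dm (k + 1)) : D) ∈ Y.Dm k
        rw [DD.algZ_smul]
        exact (Y.Dm k).mul_mem (Y.ι_mem_Dm k _) ha }
  let Φ : W →ₗ[X.Z (k + 1)] W :=
    { toFun := fun d => ⟨⟨C3C.Psi Y H y e ((d : Y.Dm (k + 1)) : D),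
          Y.Dm_mono (Nat.le_succ k) (hΨmem _ d.1.2)⟩, hΨmem _ d.1.2⟩
      map_add' := by
        intro a b
        apply Subtype.ext; apply Subtype.ext
        change C3C.Psi Y H y e (((a : Y.Dm (k + 1)) : D) + ((b : Y.Dm (k + 1)) : D)) = _
        rw [map_add]; rfl
      map_smul' := by
        intro c a
        apply Subtype.ext; apply Subtype.ext
        change C3C.Psi Y H y e (((c • (a : Y.Dm (k + 1)) : Y.Dm (k + 1)) : D)) = _
        rw [DD.algZ_smul, hΨlin _ c.2]; rfl }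
  have hΦinj : Function.Injective Φ := by
    rw [injective_iff_map_eq_zero]
    intro a ha
    have h1 : C3C.Psi Y H y e ((a : Y.Dm (k + 1)) : D) = 0 :=
      congrArg (fun t : W => ((t : Y.Dm (k + 1)) : D)) ha
    have h2 := hΨinj _ a.2 h1
    apply Subtype.ext; apply Subtype.ext
    exact h2
  have hΦsurj : Function.Surjective Φ := LinearMap.surjective_of_injective hΦinj
  have hspan : ∀ d ∈ Y.span (X.Z (k + 1)) R (Y.Dm (k + 1)),
      C3C.Psi Y H y e d ∈ Y.span (X.Z (k + 1)) R (Y.Dm k) := by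
    intro d hd
    have hle : Y.span (X.Z (k + 1)) R (Y.Dm (k + 1)) ≤
        (Y.span (X.Z (k + 1)) R (Y.Dm k)).comap (C3C.Psi Y H y e) := by
      rw [DD.span, AddSubgroup.closure_le]
      rintro d ⟨z, hz, r, hr, hrD, rfl⟩
      have h3 : C3C.Psi Y H y e (Y.ι z * r) ∈ Y.span (X.Z (k + 1)) R (Y.Dm k) := by
        rw [hΨlin z hz]
        exact AddSubgroup.subset_closure ⟨z, hz, _, hΨR r hr, hΨmem r hrD, rfl⟩
      exact h3
    exact hle hd
  intro d hd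
  obtain ⟨a, ha⟩ := hΦsurj ⟨⟨d, Y.Dm_mono (Nat.le_succ k) hd⟩, hd⟩
  have h1 : C3C.Psi Y H y e ((a : Y.Dm (k + 1)) : D) = d :=
    congrArg (fun t : W => ((t : Y.Dm (k + 1)) : D)) ha
  rw [← h1]
  exact hspan _ (h _ (a : Y.Dm (k + 1)).2)

theorem DD.exists_Big (R : Subring D) (hRF : ∀ c ∈ X.F, Y.ι c ∈ R)
    (hR : ∀ m, ∃ r ∈ R, r ∉ Y.Dm m) : ∃ m0, Big Y R m0 := by
  obtain ⟨y, hyR, hy0⟩ := hR 0
  obtain ⟨m, hy⟩ := Y.exists_DK y
  have hyF : ∀ c ∈ X.F, y ≠ Y.ι c := by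
    rintro c _ rfl
    exact hy0 (Y.ι_mem_Dm 0 c)
  obtain ⟨K0, hK0⟩ := Y.centralizer_eq R hRF hR m y hyR hy hyF
  have hlarge : ∀ L, ∃ k, L ≤ k ∧ ∃ r ∈ R, r ∈ Y.Dm (k + 1) ∧ r ∉ Y.Dm k := by
    intro L
    obtain ⟨r, hrR, hrL⟩ := hR L
    obtain ⟨n, hn⟩ := Y.exists_DK r
    have hn' : ∃ n, r ∈ Y.Dm n := ⟨n, Y.DK_le_Dm n hn⟩
    classical
    have hN := Nat.find_spec hn'
    have hmin : ∀ i < Nat.find hn', r ∉ Y.Dm i := fun i hi => Nat.find_min hn' hi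
    have hgt : L < Nat.find hn' := by
      by_contra hle
      exact hrL (Y.Dm_mono (not_lt.1 hle) hN)
    refine ⟨Nat.find hn' - 1, by omega, r, hrR, ?_, hmin _ (by omega)⟩
    rw [Nat.sub_add_cancel (by omega)]
    exact hN
  have hmono : ∀ l, ∀ T : Subring D, Y.span (X.Z (l + 1)) R T ≤ Y.span (X.Z l) R T := by
    intro l T
    apply AddSubgroup.closure_mono
    rintro d ⟨z, hz, r, hr, hrT, rfl⟩
    exact ⟨z, X.Z_anti l hz, r, hr, hrT, rfl⟩
  have hdown : ∀ n l, m ≤ l →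
      (∀ d ∈ Y.Dm (l + n + 1), d ∈ Y.span (X.Z (l + n + 1)) R (Y.Dm (l + n + 1))) →
      ∀ d ∈ Y.Dm (l + 1), d ∈ Y.span (X.Z (l + 1)) R (Y.Dm (l + 1)) := by
    intro n
    induction n with
    | zero => intro l _ h; simpa using h
    | succ n ih =>
      intro l hl h
      have h1 := (Y.descent R hRF m (l + n + 1) (by omega) y hyR hy hyF (by
        have e1 : l + n + 1 + 1 = l + (n + 1) + 1 := by omega
        rw [e1]; exact h)).2
      exact ih l hl (fun d hd => hmono _ _ (h1 d hd))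
  have hall : ∀ l, m ≤ l → ∀ d ∈ Y.Dm (l + 1), d ∈ Y.span (X.Z (l + 1)) R (Y.Dm (l + 1)) := by
    intro l hl
    obtain ⟨k, hk, hkr⟩ := hlarge (max K0 l)
    obtain ⟨n, rfl⟩ := Nat.exists_eq_add_of_le (le_trans (le_max_right K0 l) hk)
    refine hdown n l hl ?_
    exact Y.span_top_of_centralizer R (l + n + 1)
      (hK0 (l + n) (le_trans (le_max_left K0 l) hk) hkr)
  refine ⟨m, hRF, fun l hl => ?_, fun l hl => ?_⟩
  · exact (Y.descent R hRF m l hl y hyR hy hyF (hall l hl)).1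
  · exact (Y.descent R hRF m l hl y hyR hy hyF (hall l hl)).2

end Pool.Agent.Helper91.DV
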