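import Pool.Agent.Helper91.DV.C2

/-!
# Part C3A: production of elements of `D_k u_{k+1}`
-/

set_option autoImplicit false

open Finset

namespace Pool.Agent.Helper91.DV

variable {K : Type} [Field K] [CharZero K] {X : KD K} {D : Type} [DivisionRing D] (Y : DD X D)

namespace DD

theorem act_add {k : ℕ} (H : Biv X k) (y a b : D) :
    Y.act H y (a + b) = Y.act H y a + Y.act H y b := by
  simp only [DD.act, mul_add, add_mul, Finset.sum_add_distrib]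

/-- C3.1 -/
theorem exists_e (R : Subring D) (hRF : ∀ c ∈ X.F, Y.ι c ∈ R) (m k : ℕ) (hmk : m ≤ k)
    (y : D) (hyR : y ∈ R) (hy : y ∈ Y.DK m) (hyF : ∀ c ∈ X.F, y ≠ Y.ι c)
    (r : D) (hr : r ∈ R) (hr1 : r ∈ Y.Dm (k + 1)) (hr2 : r ∉ Y.Dm k) :
    ∃ x ∈ Y.Dm k, x ≠ 0 ∧ x * Y.u (k + 1) ∈ R := by
  obtain ⟨a, ha, b, hb, hab⟩ := Y.decomp k r hr1
  have hb0 : b ≠ 0 := by
    intro h0
    apply hr2
    rw [hab, h0, zero_mul, add_zero]
    exact ha
  obtain ⟨H, hH⟩ := Y.lemma4a m k hmk y hy hyF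
  have h1 : Y.act H y r = Y.act H y (b * Y.u (k + 1)) := by
    rw [hab, Y.act_add, hH a ha, zero_add]
  have h2 : Y.act H y (b * Y.u (k + 1)) ≠ 0 := Y.lemma4b m k hmk y hy hyF H b hb hb0
  have hyk : y ∈ Y.Dm k := Y.Dm_mono hmk (Y.DK_le_Dm m hy)
  have hu : Y.u (k + 1) ≠ 0 := Y.u_ne _
  obtain ⟨w, hw⟩ : ∃ w, w = ∑ i ∈ range H.n, ∑ j ∈ range H.n,
      Y.ι (H.h i j) * (y ^ i * (b * (Y.u (k + 1) * y ^ j * (Y.u (k + 1))⁻¹))) := ⟨_, rfl⟩
  have h3 : Y.act H y (b * Y.u (k + 1)) = w * Y.u (k + 1) := by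
    rw [hw, DD.act, Finset.sum_mul]
    refine Finset.sum_congr rfl fun i _ => ?_
    rw [Finset.sum_mul]
    refine Finset.sum_congr rfl fun j _ => ?_
    have : Y.u (k + 1) * y ^ j = Y.u (k + 1) * y ^ j * (Y.u (k + 1))⁻¹ * Y.u (k + 1) := by
      rw [mul_assoc _ (Y.u (k + 1))⁻¹, inv_mul_cancel₀ hu, mul_one]
    calc Y.ι (H.h i j) * (y ^ i * (b * Y.u (k + 1)) * y ^ j)
        = Y.ι (H.h i j) * (y ^ i * (b * (Y.u (k + 1) * y ^ j))) := by noncomm_ring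
      _ = Y.ι (H.h i j) * (y ^ i * (b * (Y.u (k + 1) * y ^ j * (Y.u (k + 1))⁻¹ *
            Y.u (k + 1)))) := by rw [← this]
      _ = _ := by simp only [mul_assoc]
  refine ⟨w, ?_, ?_, ?_⟩
  · rw [hw]
    refine Subring.sum_mem _ fun i _ => Subring.sum_mem _ fun j _ => ?_
    refine Subring.mul_mem _ (Y.ι_mem_Dm k _) (Subring.mul_mem _ (Subring.pow_mem _ hyk i)
      (Subring.mul_mem _ hb ?_))
    exact Y.conj_mem k _ (Subring.pow_mem _ hyk j)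
  · intro h0
    apply h2
    rw [h3, h0, zero_mul]
  · rw [← h3, ← h1, DD.act]
    refine Subring.sum_mem _ fun i _ => Subring.sum_mem _ fun j _ => ?_
    exact Subring.mul_mem _ (hRF _ (H.mem_F i j)) (Subring.mul_mem _ (Subring.mul_mem _
      (Subring.pow_mem _ hyR i) hr) (Subring.pow_mem _ hyR j))

end DD
end Pool.Agent.Helper91.DV
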