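import Pool.Agent.Helper91.DV.Defs

/-! Shared definitions for the abstract part (MP_5766af_al). -/

set_option autoImplicit false
open Finset
namespace Pool.Agent.Helper91.DV

variable {K : Type} [Field K] [CharZero K] {X : KD K} {D : Type} [DivisionRing D]

/-- a nonzero two-variable polynomial over `F_k`, as a coefficient function -/
structure Biv (X : KD K) (k : ℕ) where
  n : ℕ
  h : ℕ → ℕ → K
  mem_F : ∀ i j, h i j ∈ X.F
  mem_K : ∀ i j, h i j ∈ X.Kf k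
  ne : ∃ i < n, ∃ j < n, h i j ≠ 0

/-- `h(L_y, R_y) x` -/
noncomputable def DD.act (Y : DD X D) {k : ℕ} (H : Biv X k) (y x : D) : D :=
  ∑ i ∈ range H.n, ∑ j ∈ range H.n, Y.ι (H.h i j) * (y ^ i * x * y ^ j)

/-- the set of finite sums `∑ z_i r_i`, `z_i ∈ S`, `r_i ∈ R ∩ T` -/
def DD.span (Y : DD X D) (S : Subfield K) (R T : Subring D) : AddSubgroup D :=
  AddSubgroup.closure {d | ∃ z ∈ S, ∃ r ∈ R, r ∈ T ∧ d = Y.ι z * r}

/-- C3 : conclusion -/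
structure Big (Y : DD X D) (R : Subring D) (m0 : ℕ) : Prop where
  hF : ∀ c ∈ X.F, Y.ι c ∈ R
  he : ∀ l, m0 ≤ l → ∃ x ∈ Y.Dm l, x ≠ 0 ∧ x * Y.u (l + 1) ∈ R
  hs : ∀ l, m0 ≤ l → ∀ d ∈ Y.Dm l, d ∈ Y.span (X.Z (l + 1)) R (Y.Dm l)

/-- `V_l = R ∩ Z_l` as a subring of `K` -/
def DD.V (Y : DD X D) (R : Subring D) (l : ℕ) : Subring K := (R.comap Y.ι) ⊓ (X.Z l).toSubring

/-- `P_l`, the fraction field of `V_l` -/
def DD.Pf (Y : DD X D) (R : Subring D) (l : ℕ) : Subfield K :=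
  Subfield.closure (Y.V R l : Set K)

theorem DD.F_comm (Y : DD X D) (c : K) (hc : c ∈ X.F) (d : D) : Y.ι c * d = d * Y.ι c := by
  obtain ⟨m, x, rfl⟩ := Y.exh d
  refine Y.Z_comm m ((X.mem_Z m c).2 (X.g_F m c hc)) ?_
  exact sum_mem fun i _ => mul_mem (Y.ι_mem_Dm m _) (pow_mem (Y.u_mem_Dm m) _)

/-- `D` as an algebra over `F` -/
@[reducible] noncomputable def DD.algF (Y : DD X D) : Algebra X.F D :=
  RingHom.toAlgebra' (Y.ι.comp X.F.subtype) (fun c d => Y.F_comm c c.2 d)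

end Pool.Agent.Helper91.DV
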