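import Pool.Agent.Helper91.DV.C41Raz
import Pool.Agent.Helper91.DV.Defs2
import Pool.Agent.Helper91.DV.C0K
import Pool.Agent.Helper91.DV.C0D
import Pool.Agent.Helper91.DV.CSA

/-!
# C4.1 : coefficients of characteristic polynomials of elements of `R`
-/

set_option autoImplicit false

open Finset

namespace Pool.Agent.Helper91.DV

variable {K : Type} [Field K] [CharZero K] {X : KD K} {D : Type} [DivisionRing D] (Y : DD X D)
variable {Y}

/-- C4.1, Razmyslov trick -/
theorem Big.charpoly_mem {R : Subring D} {m0 : ℕ} (B : Big Y R m0) (l : ℕ) (hl : m0 ≤ l)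
    (r : Y.Dm l) (hr : (r : D) ∈ R) (i : ℕ) :
    (((Algebra.lmul (X.Z l) (Y.Dm l) r).charpoly.coeff i : X.Z l) : K) ∈ Y.Pf R l := by
  have dens : ∀ f : (Y.Dm l) →ₗ[X.Z l] (Y.Dm l), ∃ (n : ℕ) (s d : Fin n → (Y.Dm l)),
      ∀ x, f x = ∑ i, s i * x * d i := by
    intro f
    obtain ⟨n, s, d, _, h⟩ := density (Z := X.Z l) (A := Y.Dm l) ⊤ (by
      intro a ha
      obtain ⟨z, hz, hz2⟩ := Y.ι_mem_iff_center l (a : D) a.2 (by
        intro x hx
        have := ha ⟨x, hx⟩ trivial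
        exact congrArg Subtype.val this)
      exact ⟨⟨z, hz⟩, Subtype.ext hz2.symm⟩) f
    exact ⟨n, s, d, h⟩
  have hspan : ∀ a : Y.Dm l, a ∈ Submodule.span (X.Z l)
      ((R.comap (Y.Dm l).subtype : Subring (Y.Dm l)) : Set (Y.Dm l)) := by
    intro a
    have h := B.hs l hl (a : D) a.2
    have key : ∀ d ∈ Y.span (X.Z (l + 1)) R (Y.Dm l), ∃ h : d ∈ Y.Dm l,
        (⟨d, h⟩ : Y.Dm l) ∈ Submodule.span (X.Z l)
          ((R.comap (Y.Dm l).subtype : Subring (Y.Dm l)) : Set (Y.Dm l)) := by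
      intro d hd
      unfold DD.span at hd
      induction hd using AddSubgroup.closure_induction with
      | mem d hd =>
        obtain ⟨z, hz, r, hr, hrl, rfl⟩ := hd
        refine ⟨(Y.Dm l).mul_mem (Y.ι_mem_Dm l z) hrl, ?_⟩
        exact Submodule.smul_mem _ (⟨z, X.Z_anti l hz⟩ : X.Z l)
          (Submodule.subset_span (show (⟨r, hrl⟩ : Y.Dm l) ∈
            ((R.comap (Y.Dm l).subtype : Subring (Y.Dm l)) : Set (Y.Dm l)) from hr))
      | zero => exact ⟨(Y.Dm l).zero_mem, Submodule.zero_mem _⟩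
      | add x y _ _ hx hy =>
        obtain ⟨hx1, hx2⟩ := hx
        obtain ⟨hy1, hy2⟩ := hy
        exact ⟨(Y.Dm l).add_mem hx1 hy1, Submodule.add_mem _ hx2 hy2⟩
      | neg x _ hx =>
        obtain ⟨hx1, hx2⟩ := hx
        exact ⟨(Y.Dm l).neg_mem hx1, Submodule.neg_mem _ hx2⟩
    exact (key _ h).2
  obtain ⟨s, hs0, hs1, hs2⟩ := Raz.razmyslov (Z := X.Z l) (A := Y.Dm l) dens
    (R.comap (Y.Dm l).subtype) (by
      intro q
      exact B.hF _ (by
        have : (X.Z l).subtype (q : X.Z l) = (q : K) := map_ratCast _ q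
        rw [this]
        exact SubfieldClass.ratCast_mem X.F q)) hspan r hr i
  have e1 : (s : K) ∈ Y.V R l := ⟨hs1, s.2⟩
  have e2 : (((Algebra.lmul (X.Z l) (Y.Dm l) r).charpoly.coeff i * s : X.Z l) : K) ∈ Y.V R l :=
    ⟨hs2, Subtype.prop _⟩
  have e3 : (((Algebra.lmul (X.Z l) (Y.Dm l) r).charpoly.coeff i : X.Z l) : K) =
      (((Algebra.lmul (X.Z l) (Y.Dm l) r).charpoly.coeff i * s : X.Z l) : K) / (s : K) := by
    have : (s : K) ≠ 0 := by simpa using hs0
    rw [Subfield.coe_mul, mul_div_assoc, div_self this, mul_one]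
  rw [e3]
  exact div_mem (Subfield.subset_closure e2) (Subfield.subset_closure e1)

end Pool.Agent.Helper91.DV
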