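import Mathlib

/-!
# The Razmyslov trick: coefficients of characteristic polynomials are fractions
-/

set_option autoImplicit false

open Finset

namespace Pool.Agent.Helper91.DV
namespace Raz

section
variable {Z A : Type*} [Field Z] [Ring A] [Algebra Z A]

/-- a multilinear map that vanishes on tuples from `S` vanishes on tuples from the span of `S` -/
theorem vanish_span {ι : Type*} [Fintype ι] [DecidableEq ι] {M N : Type*} [AddCommGroup M]
    [Module Z M] [AddCommGroup N] [Module Z N] (f : MultilinearMap Z (fun _ : ι => M) N)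
    (S : Set M) (h : ∀ v : ι → M, (∀ i, v i ∈ S) → f v = 0) (v : ι → M)
    (hv : ∀ i, v i ∈ Submodule.span Z S) : f v = 0 := by
  have key : ∀ s : Finset ι, ∀ v : ι → M, (∀ i ∈ s, v i ∈ Submodule.span Z S) →
      (∀ i, i ∉ s → v i ∈ S) → f v = 0 := by
    intro s
    induction s using Finset.induction_on with
    | empty => intro v _ h2; exact h v (fun i => h2 i (by simp))
    | insert a s has ih =>
      intro v h1 h2
      have h3 : ∀ x ∈ Submodule.span Z S, f (Function.update v a x) = 0 := by
        intro x hx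
        induction hx using Submodule.span_induction with
        | mem x hx =>
          apply ih
          · intro i hi
            have : i ≠ a := fun e => has (e ▸ hi)
            rw [Function.update_of_ne this]
            exact h1 i (Finset.mem_insert_of_mem hi)
          · intro i hi
            by_cases e : i = a
            · subst e; rw [Function.update_self]; exact hx
            · rw [Function.update_of_ne e]
              exact h2 i (by simp [e, hi])
        | zero => exact f.map_update_zero v a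
        | add x y _ _ hx hy => rw [f.map_update_add, hx, hy, add_zero]
        | smul c x _ hx => rw [f.map_update_smul, hx, smul_zero]
      have := h3 (v a) (h1 a (Finset.mem_insert_self a s))
      rwa [Function.update_eq_self] at this
  exact key Finset.univ v (fun i _ => hv i) (fun i hi => absurd (Finset.mem_univ i) hi)

variable {N : ℕ}

/-- the alternating map `∑ sgn σ ∏ T_i (x_{σ i})` -/
noncomputable def alt (T : Fin N → (A →ₗ[Z] A)) : A [⋀^Fin N]→ₗ[Z] A :=
  MultilinearMap.alternatization ((MultilinearMap.mkPiAlgebraFin Z N A).compLinearMap T)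

theorem alt_apply (T : Fin N → (A →ₗ[Z] A)) (x : Fin N → A) :
    alt T x = ∑ σ : Equiv.Perm (Fin N), Equiv.Perm.sign σ •
      (List.ofFn (fun i => T i (x (σ i)))).prod := by
  simp [alt, MultilinearMap.alternatization_apply, MultilinearMap.domDomCongr_apply]

/-- the same as a multilinear map in `T` -/
noncomputable def altT (x : Fin N → A) : MultilinearMap Z (fun _ : Fin N => (A →ₗ[Z] A)) A :=
  ∑ σ : Equiv.Perm (Fin N), ((Equiv.Perm.sign σ : ℤˣ) : ℤ) •
    (MultilinearMap.mkPiAlgebraFin Z N A).compLinearMap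
      (fun i => LinearMap.applyₗ (x (σ i)))

theorem altT_apply (T : Fin N → (A →ₗ[Z] A)) (x : Fin N → A) : altT x T = alt T x := by
  rw [alt_apply, altT]
  simp [Units.smul_def]

theorem alt_det (b : Module.Basis (Fin N) Z A) (f : A [⋀^Fin N]→ₗ[Z] A) (T : A →ₗ[Z] A)
    (x : Fin N → A) : f (fun i => T (x i)) = LinearMap.det T • f x := by
  have key : ∀ x : Fin N → A, f x = b.det x • f b := by
    intro x
    have : f = (b.det).smulRight (f b) := by
      apply Module.Basis.ext_alternating b
      intro v hv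
      have hb : Function.Bijective v := Finite.injective_iff_bijective.1 hv
      let σ := Equiv.ofBijective v hb
      have e : (fun i => b (v i)) = b ∘ σ := rfl
      rw [e, f.map_perm, AlternatingMap.map_perm, AlternatingMap.smulRight_apply,
        b.det_self, one_smul]
    rw [this, AlternatingMap.smulRight_apply, AlternatingMap.smulRight_apply, b.det_self, one_smul]
  rw [key, key x, ← mul_smul]
  congr 1
  exact b.det_comp T x

/-- `x ↦ a x b` -/
def lr (a b : A) : A →ₗ[Z] A := LinearMap.mulLeft Z a ∘ₗ LinearMap.mulRight Z b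

@[simp] theorem lr_apply (a b x : A) : (lr a b : A →ₗ[Z] A) x = a * (x * b) := rfl

/-- the value of the alternating map on a basis with the dual functionals is `1` -/
theorem alt_dual (b : Module.Basis (Fin N) Z A) :
    alt (fun i => (Algebra.linearMap Z A) ∘ₗ b.coord i) b = 1 := by
  rw [alt_apply, Finset.sum_eq_single 1]
  · simp
  · intro σ _ hσ
    obtain ⟨i, hi⟩ : ∃ i, σ i ≠ i := by
      by_contra h
      push Not at h
      exact hσ (Equiv.ext h)
    have : (List.ofFn fun i => ((Algebra.linearMap Z A) ∘ₗ b.coord i) (b (σ i))).prod = 0 := by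
      apply List.prod_eq_zero
      rw [List.mem_ofFn]
      exact ⟨i, by simp [hi]⟩
    rw [this, smul_zero]
  · intro h; exact absurd (Finset.mem_univ _) h

/-- the additive group generated by the values -/
def MM (Z : Type*) {A : Type*} [Field Z] [Ring A] [Algebra Z A] (R : Subring A) (N : ℕ) :
    AddSubgroup A :=
  AddSubgroup.closure {y | ∃ a b x : Fin N → A, (∀ i, a i ∈ R) ∧ (∀ i, b i ∈ R) ∧
    (∀ i, x i ∈ R) ∧ y = alt (Z := Z) (fun i => lr (a i) (b i)) x}

theorem MM_le (R : Subring A) : MM Z R N ≤ R.toAddSubgroup := by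
  rw [MM, AddSubgroup.closure_le]
  rintro y ⟨a, b, x, ha, hb, hx, rfl⟩
  rw [alt_apply]
  refine R.sum_mem (fun σ _ => ?_)
  rw [Units.smul_def]
  refine zsmul_mem (R.list_prod_mem ?_) _
  intro y hy
  rw [List.mem_ofFn] at hy
  obtain ⟨i, rfl⟩ := hy
  exact R.mul_mem (ha _) (R.mul_mem (hx _) (hb _))

theorem MM_ne [Nontrivial A] (b : Module.Basis (Fin N) Z A)
    (dens : ∀ f : A →ₗ[Z] A, ∃ (n : ℕ) (s d : Fin n → A), ∀ x, f x = ∑ i, s i * x * d i)
    (R : Subring A) (hspan : ∀ a : A, a ∈ Submodule.span Z (R : Set A)) :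
    ∃ ρ ∈ MM Z R N, ρ ≠ 0 := by
  by_contra hcon
  push Not at hcon
  have h1 : ∀ x : Fin N → A, (∀ i, x i ∈ R) → ∀ T : Fin N → (A →ₗ[Z] A),
      (∀ i, T i ∈ {T | ∃ a ∈ R, ∃ b ∈ R, T = lr a b}) → alt T x = 0 := by
    intro x hx T hT
    choose a ha c hc hT using hT
    obtain rfl : T = fun i => lr (a i) (c i) := funext hT
    exact hcon _ (AddSubgroup.subset_closure ⟨a, c, x, ha, hc, hx, rfl⟩)
  -- the span
  have hS : ∀ T : A →ₗ[Z] A, T ∈ Submodule.span Z {T : A →ₗ[Z] A | ∃ a ∈ R, ∃ b ∈ R, T = lr a b} := by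
    intro T
    have h2 : ∀ a c : A, (lr a c : A →ₗ[Z] A) ∈
        Submodule.span Z {T : A →ₗ[Z] A | ∃ a ∈ R, ∃ b ∈ R, T = lr a b} := by
      intro a c
      have h3 : ∀ c ∈ R, (lr a c : A →ₗ[Z] A) ∈
          Submodule.span Z {T : A →ₗ[Z] A | ∃ a ∈ R, ∃ b ∈ R, T = lr a b} := by
        intro c hc
        have := hspan a
        induction this using Submodule.span_induction with
        | mem a ha => exact Submodule.subset_span ⟨a, ha, c, hc, rfl⟩
        | zero =>
          have : (lr (0:A) c : A →ₗ[Z] A) = 0 := by ext x; simp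
          rw [this]; exact Submodule.zero_mem _
        | add a a' _ _ h h' =>
          have : (lr (a + a') c : A →ₗ[Z] A) = lr a c + lr a' c := by ext x; simp [add_mul]
          rw [this]; exact Submodule.add_mem _ h h'
        | smul z a _ h =>
          have : (lr (z • a) c : A →ₗ[Z] A) = z • lr a c := by ext x; simp
          rw [this]; exact Submodule.smul_mem _ _ h
      have := hspan c
      induction this using Submodule.span_induction with
      | mem c hc => exact h3 c hc
      | zero =>
        have : (lr a (0:A) : A →ₗ[Z] A) = 0 := by ext x; simp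
        rw [this]; exact Submodule.zero_mem _
      | add c c' _ _ h h' =>
        have : (lr a (c + c') : A →ₗ[Z] A) = lr a c + lr a c' := by ext x; simp [mul_add]
        rw [this]; exact Submodule.add_mem _ h h'
      | smul z c _ h =>
        have : (lr a (z • c) : A →ₗ[Z] A) = z • lr a c := by ext x; simp
        rw [this]; exact Submodule.smul_mem _ _ h
    obtain ⟨n, s, d, hT⟩ := dens T
    have : T = ∑ i, lr (s i) (d i) := by
      ext x; rw [hT]; simp [mul_assoc]
    rw [this]
    exact Submodule.sum_mem _ (fun i _ => h2 _ _)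
  have h4 : ∀ x : Fin N → A, (∀ i, x i ∈ R) → ∀ T : Fin N → (A →ₗ[Z] A), alt T x = 0 := by
    intro x hx T
    rw [← altT_apply]
    apply vanish_span (altT x) _ _ T (fun i => hS (T i))
    intro T hT
    rw [altT_apply]
    exact h1 x hx T hT
  have h5 : ∀ x : Fin N → A, ∀ T : Fin N → (A →ₗ[Z] A), alt T x = 0 := by
    intro x T
    exact vanish_span (alt T).toMultilinearMap (R : Set A) (fun v hv => h4 v hv T) x
      (fun i => hspan (x i))
  have := h5 b (fun i => (Algebra.linearMap Z A) ∘ₗ b.coord i)
  rw [alt_dual] at this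
  exact one_ne_zero this

/-- elements of `Z` preserving `M` -/
def Lam (Z : Type*) {A : Type*} [Field Z] [Ring A] [Algebra Z A] (M : AddSubgroup A) :
    Subring Z where
  carrier := {z | ∀ m ∈ M, z • m ∈ M}
  mul_mem' := by
    intro a b ha hb m hm
    rw [mul_smul]; exact ha _ (hb _ hm)
  one_mem' := by intro m hm; rwa [one_smul]
  add_mem' := by intro a b ha hb m hm; rw [add_smul]; exact M.add_mem (ha _ hm) (hb _ hm)
  zero_mem' := by intro m hm; rw [zero_smul]; exact M.zero_mem
  neg_mem' := by intro a ha m hm; rw [neg_smul]; exact M.neg_mem (ha _ hm)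

theorem Lam_of_gen [FiniteDimensional Z A] (R : Subring A) (T : A →ₗ[Z] A)
    (hT : ∀ x ∈ R, T x ∈ R) :
    LinearMap.det T ∈ Lam Z (MM Z R (Module.finrank Z A)) := by
  intro m hm
  rw [MM] at hm ⊢
  induction hm using AddSubgroup.closure_induction with
  | mem y hy =>
    obtain ⟨a, b, x, ha, hb, hx, rfl⟩ := hy
    rw [← alt_det (Module.finBasis Z A)]
    exact AddSubgroup.subset_closure ⟨a, b, _, ha, hb, fun i => hT _ (hx i), rfl⟩
  | zero => rw [smul_zero]; exact AddSubgroup.zero_mem _
  | add x y _ _ hx hy => rw [smul_add]; exact AddSubgroup.add_mem _ hx hy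
  | neg x _ hx => rw [smul_neg]; exact AddSubgroup.neg_mem _ hx

/-- interpolation: a polynomial whose values at naturals lie in `Λ ∋ ℚ` has coefficients in `Λ` -/
theorem coeff_mem [CharZero Z] (Λ : Subring Z) (hQ : ∀ q : ℚ, (q : Z) ∈ Λ) (p : Polynomial Z)
    (h : ∀ t : ℕ, p.eval (t : Z) ∈ Λ) (i : ℕ) : p.coeff i ∈ Λ := by
  have hC : ∀ z ∈ Λ, Polynomial.C z ∈ Polynomial.lifts Λ.subtype := by
    intro z hz
    exact Polynomial.C_mem_lifts Λ.subtype ⟨z, hz⟩
  have hl : p ∈ Polynomial.lifts Λ.subtype := by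
    have h1 : p = Lagrange.interpolate (range (p.natDegree + 1)) (fun i : ℕ => (i : Z))
        (fun i => p.eval (i : Z)) := by
      apply Lagrange.eq_interpolate
      · intro a _ b _ hab
        exact Nat.cast_injective hab
      · rw [card_range]
        exact (Polynomial.degree_le_natDegree).trans_lt (by exact_mod_cast Nat.lt_succ_self _)
    rw [h1, Lagrange.interpolate_apply]
    refine sum_mem (fun i _ => mul_mem (hC _ (h i)) ?_)
    unfold Lagrange.basis
    refine prod_mem (fun j _ => ?_)
    unfold Lagrange.basisDivisor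
    refine mul_mem (hC _ ?_) ?_
    · have := hQ (((i : ℚ) - (j : ℚ))⁻¹)
      push_cast at this
      exact this
    · have e : (Polynomial.X - Polynomial.C (j : Z) : Polynomial Z) =
          (Polynomial.X - Polynomial.C (j : Λ)).map Λ.subtype := by simp
      rw [e]
      exact ⟨_, rfl⟩
  rw [Polynomial.mem_lifts] at hl
  obtain ⟨q, hq⟩ := hl
  rw [← hq, Polynomial.coeff_map]
  exact (q.coeff i).2

theorem algebraMap_mem_of [FiniteDimensional Z A] [CharZero Z] (R : Subring A)
    (hQ : ∀ q : ℚ, algebraMap Z A (q : Z) ∈ R) (q : ℚ) (hN : 0 < Module.finrank Z A) :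
    (q : Z) ∈ Lam Z (MM Z R (Module.finrank Z A)) := by
  have h := hN
  intro m hm
  rw [MM] at hm ⊢
  induction hm using AddSubgroup.closure_induction with
  | mem y hy =>
    obtain ⟨a, b, x, ha, hb, hx, rfl⟩ := hy
    let i0 : Fin (Module.finrank Z A) := ⟨0, h⟩
    have e : (q : Z) • alt (Z := Z) (fun i => lr (a i) (b i)) x =
        alt (Z := Z) (fun i => lr (a i) (b i)) (Function.update x i0 ((q : Z) • x i0)) := by
      rw [AlternatingMap.map_update_smul, Function.update_eq_self]
    rw [e]
    refine AddSubgroup.subset_closure ⟨a, b, _, ha, hb, fun i => ?_, rfl⟩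
    by_cases hi : i = i0
    · subst hi
      rw [Function.update_self, Algebra.smul_def]
      exact R.mul_mem (hQ q) (hx _)
    · rw [Function.update_of_ne hi]; exact hx i
  | zero => rw [smul_zero]; exact AddSubgroup.zero_mem _
  | add x y _ _ hx hy => rw [smul_add]; exact AddSubgroup.add_mem _ hx hy
  | neg x _ hx => rw [smul_neg]; exact AddSubgroup.neg_mem _ hx

/-- **Razmyslov's trick.** -/
theorem razmyslov [IsDomain A] [FiniteDimensional Z A] [CharZero Z]
    (dens : ∀ f : A →ₗ[Z] A, ∃ (n : ℕ) (s d : Fin n → A), ∀ x, f x = ∑ i, s i * x * d i)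
    (R : Subring A) (hQ : ∀ q : ℚ, algebraMap Z A (q : Z) ∈ R)
    (hspan : ∀ a : A, a ∈ Submodule.span Z (R : Set A)) (r : A) (hr : r ∈ R) (i : ℕ) :
    ∃ s : Z, s ≠ 0 ∧ algebraMap Z A s ∈ R ∧
      algebraMap Z A ((Algebra.lmul Z A r).charpoly.coeff i * s) ∈ R := by
  set N := Module.finrank Z A with hN
  set Λ := Lam Z (MM Z R N) with hΛ
  have hNpos : 0 < N := Module.finrank_pos
  have hQΛ : ∀ q : ℚ, (q : Z) ∈ Λ := fun q => algebraMap_mem_of R hQ q hNpos
  have hc : ∀ r ∈ R, ∀ i, (Algebra.lmul Z A r).charpoly.coeff i ∈ Λ := by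
    intro r hr i
    apply coeff_mem Λ hQΛ
    intro t
    rw [LinearMap.eval_charpoly]
    apply Lam_of_gen
    intro x hx
    have : ((algebraMap Z (Module.End Z A)) (t : Z) - (Algebra.lmul Z A) r) x =
        (t : A) * x - r * x := by
      simp [Algebra.smul_def]
    rw [this]
    exact R.sub_mem (R.mul_mem (natCast_mem R t) hx) (R.mul_mem hr hx)
  obtain ⟨ρ, hρ, hρ0⟩ := MM_ne (Module.finBasis Z A) dens R hspan
  have hρR : ρ ∈ R := MM_le R hρ
  set χ := (Algebra.lmul Z A ρ).charpoly with hχ
  have hCH := Algebra.aeval_self_charpoly_lmul (R := Z) ρ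
  rw [← hχ, Polynomial.aeval_eq_sum_range, Finset.sum_range_succ', pow_zero] at hCH
  have key : ∀ c ∈ Λ, algebraMap Z A (c * χ.coeff 0) ∈ R := by
    intro c hcΛ
    have e : algebraMap Z A (c * χ.coeff 0) =
        -∑ k ∈ range χ.natDegree, ((c * χ.coeff (k + 1)) • ρ) * ρ ^ k := by
      have h1 : c • (∑ k ∈ range χ.natDegree, χ.coeff (k + 1) • ρ ^ (k + 1) + χ.coeff 0 • (1 : A))
          = 0 := by rw [hCH, smul_zero]
      rw [smul_add, Finset.smul_sum, add_comm, ← eq_neg_iff_add_eq_zero] at h1
      rw [Algebra.algebraMap_eq_smul_one, mul_smul, h1]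
      congr 1
      refine Finset.sum_congr rfl (fun k _ => ?_)
      rw [mul_smul, pow_succ', smul_mul_assoc, smul_mul_assoc]
    rw [e]
    refine R.neg_mem (R.sum_mem (fun k _ => R.mul_mem (MM_le (Z := Z) (N := N) R ?_) (R.pow_mem hρR _)))
    exact (Λ.mul_mem hcΛ (hc ρ hρR _)) ρ hρ
  refine ⟨χ.coeff 0, ?_, ?_, ?_⟩
  · intro h0
    have hdet : LinearMap.det (Algebra.lmul Z A ρ) = 0 := by
      rw [LinearMap.det_eq_sign_charpoly_coeff, ← hχ, h0, mul_zero]
    have hker := LinearMap.bot_lt_ker_of_det_eq_zero hdet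
    obtain ⟨x, hx, hx0⟩ := (Submodule.ne_bot_iff _).1 hker.ne'
    rw [LinearMap.mem_ker] at hx
    exact (mul_ne_zero hρ0 hx0) hx
  · have := key 1 Λ.one_mem
    rwa [one_mul] at this
  · exact key _ (hc r hr i)

end
end Raz
end Pool.Agent.Helper91.DV
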