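import Pool.Agent.Helper91.DV.C41

/-!
# MP_5766af_al : module C42, traces and power sums
-/

set_option autoImplicit false

open Finset


namespace Pool.Agent.Helper91.DV

variable {K : Type} [Field K] [CharZero K] {X : KD K} {D : Type} [DivisionRing D] {Y : DD X D}

namespace C42

/-- `g_l` as an automorphism over its fixed field -/
noncomputable def gA (X : KD K) (l : ℕ) : K ≃ₐ[X.Z l] K :=
  AlgEquiv.ofRingEquiv (f := X.g l) (fun z => z.2)

theorem gA_pow (X : KD K) (l t : ℕ) (x : K) : (gA X l ^ t) x = (⇑(X.g l))^[t] x := by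
  induction t with
  | zero => rfl
  | succ t ih =>
    rw [pow_succ', AlgEquiv.mul_apply, ih, Function.iterate_succ_apply']
    rfl

theorem gA_inj (X : KD K) (l : ℕ) {s t : ℕ} (hs : s < 2 ^ l) (ht : t < 2 ^ l)
    (h : gA X l ^ s = gA X l ^ t) : s = t := by
  obtain ⟨z, hz, hF⟩ := X.exists_Kf_zero
  wlog hst : s ≤ t generalizing s t with H
  · exact (H ht hs h.symm (by omega)).symm
  by_contra hne
  have h1 : gA X l ^ (t - s) = 1 := by
    have h2 : gA X l ^ s * gA X l ^ (t - s) = gA X l ^ s * 1 := by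
      rw [← pow_add, Nat.add_sub_cancel' hst, mul_one, h]
    exact mul_left_cancel h2
  apply X.g_faithful l (t - s) (by omega) (by omega) z hz hF
  rw [← gA_pow, h1]
  rfl

theorem gA_surj (X : KD K) (l : ℕ) (σ : K ≃ₐ[X.Z l] K) : ∃ t < 2 ^ l, gA X l ^ t = σ := by
  have hfd := X.finiteDimensional_Z l
  have h1 : IntermediateField.fixedField (Subgroup.zpowers (gA X l)) = ⊥ := by
    rw [eq_bot_iff]
    intro x hx
    have h2 : gA X l x = x := hx ⟨gA X l, Subgroup.mem_zpowers _⟩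
    rw [IntermediateField.mem_bot]
    exact ⟨⟨x, h2⟩, rfl⟩
  have h2 := IntermediateField.fixingSubgroup_fixedField (Subgroup.zpowers (gA X l))
  rw [h1, IntermediateField.fixingSubgroup_bot] at h2
  have h3 : σ ∈ Subgroup.zpowers (gA X l) := by rw [← h2]; exact Subgroup.mem_top _
  have hord : gA X l ^ 2 ^ l = 1 := by
    ext x
    rw [gA_pow, X.g_order]
    rfl
  have hfin : IsOfFinOrder (gA X l) := isOfFinOrder_iff_pow_eq_one.2 ⟨2 ^ l, by positivity, hord⟩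
  obtain ⟨n, hn⟩ := (hfin.mem_powers_iff_mem_zpowers).2 h3
  refine ⟨n % 2 ^ l, Nat.mod_lt _ (by positivity), ?_⟩
  have h4 : gA X l ^ n = gA X l ^ (n % 2 ^ l) := by
    conv_lhs => rw [← Nat.mod_add_div n (2 ^ l), pow_add, pow_mul, hord, one_pow, mul_one]
  rw [← h4]
  exact hn

theorem trace_field (X : KD K) (l : ℕ) (x : K) :
    ((Algebra.trace (X.Z l) K x : X.Z l) : K) = ∑ t ∈ range (2 ^ l), (⇑(X.g l))^[t] x := by
  have hfd := X.finiteDimensional_Z l
  have hgal : IsGalois (X.Z l) K := by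
    apply IsGalois.of_fixedField_eq_bot
    rw [eq_bot_iff]
    intro y hy
    have h2 : gA X l y = y := hy ⟨gA X l, Subgroup.mem_top _⟩
    rw [IntermediateField.mem_bot]
    exact ⟨⟨y, h2⟩, rfl⟩
  have h1 := trace_eq_sum_automorphisms (K := X.Z l) (L := K) x
  have h2 : ((Algebra.trace (X.Z l) K x : X.Z l) : K) = ∑ σ : K ≃ₐ[X.Z l] K, σ x := h1
  rw [h2]
  symm
  refine Finset.sum_bij (fun t _ => gA X l ^ t) (fun _ _ => Finset.mem_univ _) ?_ ?_ ?_
  · intro s hs t ht h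
    exact gA_inj X l (Finset.mem_range.1 hs) (Finset.mem_range.1 ht) h
  · intro σ _
    obtain ⟨t, ht, h⟩ := gA_surj X l σ
    exact ⟨t, Finset.mem_range.2 ht, h⟩
  · intro t _
    rw [gA_pow]

/-- coordinates on `D_l` -/
noncomputable def coordFun (Y : DD X D) (l : ℕ) : (Fin (2 ^ l) → K) →ₗ[X.Z l] Y.Dm l where
  toFun x := ∑ i : Fin (2 ^ l), ⟨Y.ι (x i), Y.ι_mem_Dm l _⟩ * ⟨Y.u l, Y.u_mem_Dm l⟩ ^ (i : ℕ)
  map_add' x y := by
    apply Subtype.ext
    simp only [AddSubmonoidClass.coe_finsetSum, Subring.coe_mul, Subring.coe_add,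
      SubmonoidClass.coe_pow, Pi.add_apply, map_add, add_mul, Finset.sum_add_distrib]
  map_smul' z x := by
    apply Subtype.ext
    rw [RingHom.id_apply, Y.algZ_smul]
    simp only [AddSubmonoidClass.coe_finsetSum, Subring.coe_mul,
      SubmonoidClass.coe_pow, Pi.smul_apply, Finset.mul_sum]
    refine Finset.sum_congr rfl fun i _ => ?_
    have : z • x i = (z : K) * x i := rfl
    rw [this, map_mul, mul_assoc]

theorem coordFun_coe (Y : DD X D) (l : ℕ) (x : Fin (2 ^ l) → K) :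
    ((coordFun Y l x : Y.Dm l) : D) = ∑ i, Y.ι (x i) * Y.u l ^ (i : ℕ) := by
  change ((∑ i : Fin (2 ^ l), (⟨Y.ι (x i), Y.ι_mem_Dm l _⟩ : Y.Dm l) * ⟨Y.u l, Y.u_mem_Dm l⟩ ^ (i : ℕ) :
    Y.Dm l) : D) = _
  simp only [AddSubmonoidClass.coe_finsetSum, Subring.coe_mul, SubmonoidClass.coe_pow]

theorem coordFun_bij (Y : DD X D) (l : ℕ) : Function.Bijective (coordFun Y l) := by
  constructor
  · rw [injective_iff_map_eq_zero]
    intro x hx
    have h1 : ∑ i : Fin (2 ^ l), Y.ι (x i) * Y.u l ^ (i : ℕ) = 0 := by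
      rw [← coordFun_coe, hx]; rfl
    let x' : ℕ → K := fun i => if h : i < 2 ^ l then x ⟨i, h⟩ else 0
    have h2 : ∑ i ∈ range (2 ^ l), Y.ι (x' i) * Y.u l ^ i =
        ∑ i ∈ range (2 ^ l), Y.ι ((fun _ => 0 : ℕ → K) i) * Y.u l ^ i := by
      rw [Finset.sum_range]
      simp only [map_zero, zero_mul, Finset.sum_const_zero]
      rw [← h1]
      refine Finset.sum_congr rfl fun i _ => ?_
      simp only [x', i.2, dif_pos]
    ext i
    have h3 := Y.coeff_unique l x' (fun _ => 0) h2 i i.2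
    have h4 : x' i = x i := dif_pos i.2
    rw [h4] at h3
    exact h3
  · intro d
    obtain ⟨x, hx⟩ := (Y.mem_Dm_iff l d).1 d.2
    refine ⟨fun i => x i, Subtype.ext ?_⟩
    rw [coordFun_coe, hx, Finset.sum_range]

noncomputable def coord (Y : DD X D) (l : ℕ) : (Fin (2 ^ l) → K) ≃ₗ[X.Z l] Y.Dm l :=
  LinearEquiv.ofBijective (coordFun Y l) (coordFun_bij Y l)

theorem trace_pi {Z V : Type} [Field Z] [AddCommGroup V] [Module Z V] [FiniteDimensional Z V]
    (n : ℕ) (f : V →ₗ[Z] V) :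
    LinearMap.trace Z (Fin n → V) (LinearMap.pi fun i => f ∘ₗ LinearMap.proj i) =
      n * LinearMap.trace Z V f := by
  have h1 : (LinearMap.pi fun i => f ∘ₗ LinearMap.proj i : (Fin n → V) →ₗ[Z] (Fin n → V)) =
      ∑ i, (LinearMap.single Z (fun _ : Fin n => V) i) ∘ₗ (f ∘ₗ LinearMap.proj i) := by
    apply LinearMap.ext
    intro x
    ext i
    rw [LinearMap.sum_apply, Finset.sum_apply]
    simp only [LinearMap.pi_apply, LinearMap.comp_apply, LinearMap.proj_apply,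
      LinearMap.single_apply]
    rw [Finset.sum_eq_single i]
    · simp
    · intro j _ hj
      rw [Pi.single_eq_of_ne hj.symm]
    · intro h; exact absurd (Finset.mem_univ _) h
  rw [h1, map_sum]
  have h2 : ∀ i : Fin n, LinearMap.trace Z (Fin n → V)
      ((LinearMap.single Z (fun _ : Fin n => V) i) ∘ₗ (f ∘ₗ LinearMap.proj i)) =
      LinearMap.trace Z V f := by
    intro i
    rw [LinearMap.trace_comp_comm']
    congr 1
    apply LinearMap.ext
    intro x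
    simp
  rw [Finset.sum_congr rfl fun i _ => h2 i]
  simp

end C42

open C42

/-- C4.2a : trace of elements of `K` -/
theorem DD.trace_K (l : ℕ) (x : K) :
    ((LinearMap.trace (X.Z l) (Y.Dm l) (Algebra.lmul (X.Z l) (Y.Dm l) ⟨Y.ι x, Y.ι_mem_Dm l x⟩) :
      X.Z l) : K) = 2 ^ l * ∑ t ∈ range (2 ^ l), (⇑(X.g l))^[t] x := by
  have hfd := X.finiteDimensional_Z l
  have h1 : Algebra.lmul (X.Z l) (Y.Dm l) ⟨Y.ι x, Y.ι_mem_Dm l x⟩ =
      (coord Y l).conj (LinearMap.pi fun i => (Algebra.lmul (X.Z l) K x) ∘ₗ LinearMap.proj i) := by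
    apply LinearMap.ext
    intro d
    obtain ⟨c, rfl⟩ := (coord Y l).surjective d
    rw [LinearEquiv.conj_apply_apply, LinearEquiv.symm_apply_apply]
    apply Subtype.ext
    have h2 : ∀ c : Fin (2 ^ l) → K, ((coord Y l c : Y.Dm l) : D) =
        ∑ i, Y.ι (c i) * Y.u l ^ (i : ℕ) := coordFun_coe Y l
    rw [h2]
    change Y.ι x * ((coord Y l c : Y.Dm l) : D) = _
    rw [h2, Finset.mul_sum]
    refine Finset.sum_congr rfl fun i _ => ?_
    simp only [LinearMap.pi_apply, LinearMap.comp_apply, LinearMap.proj_apply]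
    change _ = Y.ι (x * c i) * _
    rw [map_mul, mul_assoc]
  rw [h1, LinearMap.trace_conj', trace_pi]
  rw [← trace_field X l x]
  push_cast
  rfl

/-- the trace is minus a coefficient of the characteristic polynomial -/
theorem C42.trace_eq_coeff {Z A : Type} [Field Z] [AddCommGroup A] [Module Z A]
    [FiniteDimensional Z A] (f : A →ₗ[Z] A) :
    ∃ i, LinearMap.trace Z A f = -f.charpoly.coeff i ∨ LinearMap.trace Z A f = 0 := by
  let b := Module.finBasis Z A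
  have h1 := LinearMap.charpoly_toMatrix f b
  have h2 := LinearMap.trace_eq_matrix_trace Z b f
  rcases Nat.eq_zero_or_pos (Module.finrank Z A) with h0 | h0
  · refine ⟨0, Or.inr ?_⟩
    have : IsEmpty (Fin (Module.finrank Z A)) := by rw [h0]; infer_instance
    rw [h2, Matrix.trace, Finset.univ_eq_empty, Finset.sum_empty]
  · have : Nonempty (Fin (Module.finrank Z A)) := ⟨⟨0, h0⟩⟩
    refine ⟨Fintype.card (Fin (Module.finrank Z A)) - 1, Or.inl ?_⟩
    rw [h2, ← h1, Matrix.trace_eq_neg_charpoly_coeff]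

theorem C42.trace_mem {R : Subring D} {m0 : ℕ} (B : Big Y R m0) (l : ℕ) (hl : m0 ≤ l)
    (r : Y.Dm l) (hr : (r : D) ∈ R) :
    ((LinearMap.trace (X.Z l) (Y.Dm l) (Algebra.lmul (X.Z l) (Y.Dm l) r) : X.Z l) : K) ∈
      Y.Pf R l := by
  obtain ⟨i, h | h⟩ := trace_eq_coeff (Algebra.lmul (X.Z l) (Y.Dm l) r)
  · rw [h]
    push_cast
    exact neg_mem (B.charpoly_mem l hl r hr i)
  · rw [h]
    exact zero_mem _

/-- C4.2 : `P_l` is not contained in `Z_{l+1}` -/
theorem Big.Pf_not_le {R : Subring D} {m0 : ℕ} (B : Big Y R m0) (l : ℕ) (hl : m0 ≤ l) :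
    ∃ z ∈ Y.Pf R l, z ∉ X.Z (l + 1) := by
  by_contra hcon
  push Not at hcon
  obtain ⟨z, hz, hz'⟩ := X.exists_Z_not l
  apply hz'
  have key : ∀ d ∈ Y.span (X.Z (l + 1)) R (Y.Dm l), ∃ hd : d ∈ Y.Dm l,
      ((LinearMap.trace (X.Z l) (Y.Dm l) (Algebra.lmul (X.Z l) (Y.Dm l) ⟨d, hd⟩) : X.Z l) : K) ∈
        X.Z (l + 1) := by
    intro d hd
    induction hd using AddSubgroup.closure_induction with
    | mem d hd =>
      obtain ⟨y, hy, r, hr, hrl, rfl⟩ := hd
      refine ⟨mul_mem (Y.ι_mem_Dm l y) hrl, ?_⟩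
      have h1 : (⟨Y.ι y * r, mul_mem (Y.ι_mem_Dm l y) hrl⟩ : Y.Dm l) =
          (⟨y, X.Z_anti l hy⟩ : X.Z l) • (⟨r, hrl⟩ : Y.Dm l) := Subtype.ext rfl
      rw [h1, map_smul, map_smul]
      exact mul_mem hy (hcon _ (trace_mem B l hl ⟨r, hrl⟩ hr))
    | zero => exact ⟨zero_mem _, by
        have h1 : (⟨0, zero_mem _⟩ : Y.Dm l) = 0 := rfl
        rw [h1, map_zero, map_zero]; exact zero_mem _⟩
    | add a b _ _ ha hb =>
      obtain ⟨ha, ha'⟩ := ha
      obtain ⟨hb, hb'⟩ := hb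
      refine ⟨add_mem ha hb, ?_⟩
      have h1 : (⟨a + b, add_mem ha hb⟩ : Y.Dm l) = ⟨a, ha⟩ + ⟨b, hb⟩ := rfl
      rw [h1, map_add, map_add]
      exact add_mem ha' hb'
    | neg a _ ha =>
      obtain ⟨ha, ha'⟩ := ha
      refine ⟨neg_mem ha, ?_⟩
      have h1 : (⟨-a, neg_mem ha⟩ : Y.Dm l) = -⟨a, ha⟩ := rfl
      rw [h1, map_neg, map_neg]
      exact neg_mem ha'
  obtain ⟨hd, h1⟩ := key (Y.ι z) (B.hs l hl _ (Y.ι_mem_Dm l z))
  rw [DD.trace_K] at h1
  have h2 : ∑ t ∈ range (2 ^ l), (⇑(X.g l))^[t] z = 2 ^ l * z := by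
    have h3 : ∀ t, (⇑(X.g l))^[t] z = z := by
      intro t
      induction t with
      | zero => rfl
      | succ t ih => rw [Function.iterate_succ_apply', ih]; exact hz
    simp only [h3, Finset.sum_const, Finset.card_range, nsmul_eq_mul]
    push_cast
    ring
  rw [h2, ← mul_assoc] at h1
  have h4 : ((2 : K) ^ l * 2 ^ l) ∈ X.Z (l + 1) :=
    mul_mem (pow_mem (ofNat_mem _ 2) _) (pow_mem (ofNat_mem _ 2) _)
  have h5 : ((2 : K) ^ l * 2 ^ l) ≠ 0 :=
    mul_ne_zero (pow_ne_zero _ two_ne_zero) (pow_ne_zero _ two_ne_zero)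
  have h6 : z = ((2 : K) ^ l * 2 ^ l)⁻¹ * (2 ^ l * 2 ^ l * z) := by
    field_simp
  rw [h6]
  exact mul_mem (inv_mem h4) h1

/-- C4.3 : power sums -/
theorem Big.psum_mem {R : Subring D} {m0 : ℕ} (B : Big Y R m0) (l j : ℕ) (hl : m0 ≤ l)
    (hlj : l ≤ j) (z : K) (hz : z ∈ Y.V R l) (i : ℕ) :
    ∑ t ∈ range (2 ^ j), (⇑(X.g j))^[t] (z ^ i) ∈ Y.Pf R j := by
  have h1 : Y.ι (z ^ i) ∈ R := pow_mem hz.1 i
  have h2 := trace_mem B j (hl.trans hlj) ⟨Y.ι (z ^ i), Y.ι_mem_Dm j _⟩ h1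
  rw [DD.trace_K] at h2
  have h4 : ((2 : K) ^ j) ∈ Y.Pf R j := pow_mem (ofNat_mem _ 2) _
  have h5 : ((2 : K) ^ j) ≠ 0 := pow_ne_zero _ two_ne_zero
  have h6 : ∑ t ∈ range (2 ^ j), (⇑(X.g j))^[t] (z ^ i) =
      ((2 : K) ^ j)⁻¹ * (2 ^ j * ∑ t ∈ range (2 ^ j), (⇑(X.g j))^[t] (z ^ i)) := by
    rw [← mul_assoc, inv_mul_cancel₀ h5, one_mul]
  rw [h6]
  exact mul_mem (inv_mem h4) h2

end Pool.Agent.Helper91.DV
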