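import Pool.Agent.Helper91.DV.Defs2
import Pool.Agent.Helper91.DV.C0K
import Pool.Agent.Helper91.DV.C42

set_option autoImplicit false
open Finset
namespace Pool.Agent.Helper91.DV

variable {K : Type} [Field K] [CharZero K] {X : KD K} {D : Type} [DivisionRing D] {Y : DD X D}

theorem V_anti {R : Subring D} {l j : ℕ} (h : l ≤ j) : Y.V R j ≤ Y.V R l := by
  rintro z ⟨h1, h2⟩
  exact ⟨h1, X.Z_anti' h h2⟩

theorem Pf_anti {R : Subring D} {l j : ℕ} (h : l ≤ j) : Y.Pf R j ≤ Y.Pf R l :=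
  Subfield.closure_mono (V_anti h)

/-- C4.6 -/
theorem Big.Pf_eq {R : Subring D} {m0 : ℕ} (B : Big Y R m0) (l : ℕ) (hl : m0 ≤ l) :
    ∀ z ∈ X.Z l, ∃ a ∈ Y.V R l, ∃ b ∈ Y.V R l, b ≠ 0 ∧ z = a / b := by
  intro z hz
  have hα : ∃ α ∈ Y.V R l, α ∉ X.Z (l + 1) := by
    by_contra hcon
    push Not at hcon
    obtain ⟨w, hw, hw2⟩ := B.Pf_not_le l hl
    exact hw2 ((Subfield.closure_le.2 fun x hx => hcon x hx) hw)
  obtain ⟨α, hα, hα2⟩ := hα
  have hαF : α ∉ X.F := fun h => hα2 (X.F_le_Z _ h)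
  have hst : ∀ i, X.g i α = α → X.g i z = z := by
    intro i hi
    by_cases hil : i ≤ l
    · exact X.Z_anti' hil hz
    · exact absurd (X.Z_anti' (by omega : l + 1 ≤ i) hi) hα2
  have h1 := X.P α hαF z hst l
  have hP : z ∈ Y.Pf R l := by
    refine (Subfield.closure_le.2 ?_) h1
    rintro y ((hy | hy) | ⟨i, t, ht, rfl⟩)
    · exact Subfield.subset_closure ⟨B.hF y hy, X.F_le_Z _ hy⟩
    · rw [Set.mem_singleton_iff.1 hy]; exact Subfield.subset_closure hα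
    · exact Pf_anti ht (B.psum_mem l t hl ht α hα i)
  rw [DD.Pf, Subfield.mem_closure_iff, Subring.closure_eq] at hP
  obtain ⟨a, ha, b, hb, rfl⟩ := hP
  by_cases hb0 : b = 0
  · exact ⟨0, zero_mem _, 1, one_mem _, one_ne_zero, by simp [hb0]⟩
  · exact ⟨a, ha, b, hb, hb0, rfl⟩

end Pool.Agent.Helper91.DV
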