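import Pool.Agent.Helper91.DV.C43

/-!
# MP_5766af_al : module C5, `R = D`
-/

set_option autoImplicit false
set_option linter.unusedSectionVars false

open Finset

namespace Pool.Agent.Helper91.DV

variable {K : Type} [Field K] [CharZero K] {X : KD K} {D : Type} [DivisionRing D] {Y : DD X D}



namespace C5aux

/-- almost integral elements -/
def CI (V : Subring K) (x : K) : Prop := ∃ δ ∈ V, δ ≠ 0 ∧ ∀ n : ℕ, δ * x ^ n ∈ V

theorem CI_of_mem (V : Subring K) {x : K} (h : x ∈ V) : CI V x :=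
  ⟨1, V.one_mem, one_ne_zero, fun n => by rw [one_mul]; exact V.pow_mem h n⟩

theorem CI_mul (V : Subring K) {x y : K} (hx : CI V x) (hy : CI V y) : CI V (x * y) := by
  obtain ⟨a, ha, ha0, hx⟩ := hx
  obtain ⟨b, hb, hb0, hy⟩ := hy
  refine ⟨a * b, V.mul_mem ha hb, mul_ne_zero ha0 hb0, fun n => ?_⟩
  have : a * b * (x * y) ^ n = (a * x ^ n) * (b * y ^ n) := by ring
  rw [this]
  exact V.mul_mem (hx n) (hy n)

theorem CI_add (V : Subring K) {x y : K} (hx : CI V x) (hy : CI V y) : CI V (x + y) := by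
  obtain ⟨a, ha, ha0, hx⟩ := hx
  obtain ⟨b, hb, hb0, hy⟩ := hy
  refine ⟨a * b, V.mul_mem ha hb, mul_ne_zero ha0 hb0, fun n => ?_⟩
  rw [add_pow, Finset.mul_sum]
  refine V.sum_mem fun i _ => ?_
  have : a * b * (x ^ i * y ^ (n - i) * (n.choose i : K)) =
      (a * x ^ i) * (b * y ^ (n - i)) * ((n.choose i : ℕ) : K) := by ring
  rw [this]
  exact V.mul_mem (V.mul_mem (hx i) (hy _)) (natCast_mem V _)

theorem CI_of_adjoin (F : Subfield K) (V : Subring K) (hF : ∀ c ∈ F, c ∈ V) (S : Set K)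
    (hS : ∀ x ∈ S, CI V x) (x : K) (hx : x ∈ Algebra.adjoin F S) : CI V x := by
  induction hx using Algebra.adjoin_induction with
  | mem x hx => exact hS x hx
  | algebraMap c => exact CI_of_mem V (hF c c.2)
  | add x y _ _ hx hy => exact CI_add V hx hy
  | mul x y _ _ hx hy => exact CI_mul V hx hy

/-- the localization of `V` at the nonzero elements of `S` -/
theorem loc_inv (F : Subfield K) (V : Subring K) (hF : ∀ c ∈ F, c ∈ V) (z : K) (hz : z ∈ V)
    (E : Subfield K) (hE : ∀ x ∈ E, ∃ a ∈ Algebra.adjoin F {z}, ∃ b ∈ Algebra.adjoin F {z},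
      b ≠ 0 ∧ x = a / b) (δ : K) (hδ : δ ∈ V) (h0 : δ ≠ 0) (halg : IsAlgebraic E δ) :
    ∃ h ∈ Algebra.adjoin F {z}, h ≠ 0 ∧ h * δ⁻¹ ∈ V := by
  have hSV : ∀ x ∈ Algebra.adjoin F {z}, x ∈ V := by
    intro x hx
    induction hx using Algebra.adjoin_induction with
    | mem x hx => rw [Set.mem_singleton_iff.1 hx]; exact hz
    | algebraMap c => exact hF c c.2
    | add x y _ _ hx hy => exact V.add_mem hx hy
    | mul x y _ _ hx hy => exact V.mul_mem hx hy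
  have hinv : δ⁻¹ ∈ Algebra.adjoin E {δ} := by
    have := halg.isIntegral
    exact this.inv_mem_adjoin
  have key : ∀ x ∈ Algebra.adjoin E {δ}, ∃ h ∈ Algebra.adjoin F {z}, h ≠ 0 ∧ h * x ∈ V := by
    intro x hx
    induction hx using Algebra.adjoin_induction with
    | mem x hx =>
      rw [Set.mem_singleton_iff.1 hx]
      exact ⟨1, Subalgebra.one_mem _, one_ne_zero, by rwa [one_mul]⟩
    | algebraMap c =>
      obtain ⟨a, ha, b, hb, hb0, hab⟩ := hE c c.2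
      refine ⟨b, hb, hb0, ?_⟩
      have h1 : (algebraMap E K) c = a / b := hab
      rw [h1, mul_div_cancel₀ _ hb0]
      exact hSV a ha
    | add x y _ _ hx hy =>
      obtain ⟨h, hh, hh0, hx⟩ := hx
      obtain ⟨k, hk, hk0, hy⟩ := hy
      refine ⟨h * k, Subalgebra.mul_mem _ hh hk, mul_ne_zero hh0 hk0, ?_⟩
      have : h * k * (x + y) = k * (h * x) + h * (k * y) := by ring
      rw [this]
      exact V.add_mem (V.mul_mem (hSV k hk) hx) (V.mul_mem (hSV h hh) hy)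
    | mul x y _ _ hx hy =>
      obtain ⟨h, hh, hh0, hx⟩ := hx
      obtain ⟨k, hk, hk0, hy⟩ := hy
      refine ⟨h * k, Subalgebra.mul_mem _ hh hk, mul_ne_zero hh0 hk0, ?_⟩
      have : h * k * (x * y) = (h * x) * (k * y) := by ring
      rw [this]
      exact V.mul_mem hx hy
  exact key _ hinv

/-- a nonzero element of `F[z]` is `z^r (c + z q)` with `c ≠ 0` in `F` -/
theorem poly_form (F : Subfield K) (z h : K) (hh : h ∈ Algebra.adjoin F {z}) (h0 : h ≠ 0) :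
    ∃ (r : ℕ) (c : K) (q : K), c ∈ F ∧ c ≠ 0 ∧ q ∈ Algebra.adjoin F {z} ∧
      h = z ^ r * (c + z * q) := by
  rw [Algebra.adjoin_singleton_eq_range_aeval] at hh
  obtain ⟨p, rfl⟩ := hh
  have hp : p ≠ 0 := by
    rintro rfl
    apply h0
    simp
  obtain ⟨q, hq, hq0⟩ := Polynomial.exists_eq_pow_rootMultiplicity_mul_and_not_dvd p hp 0
  refine ⟨p.rootMultiplicity 0, ((q.coeff 0 : F) : K), Polynomial.aeval z q.divX, (q.coeff 0).2,
    ?_, ?_, ?_⟩
  · intro h1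
    apply hq0
    rw [Polynomial.C_0, sub_zero, Polynomial.X_dvd_iff]
    exact Subtype.ext h1
  · rw [Algebra.adjoin_singleton_eq_range_aeval]
    exact ⟨_, rfl⟩
  · have h2 : Polynomial.aeval z q = ((q.coeff 0 : F) : K) + z * Polynomial.aeval z q.divX := by
      conv_lhs => rw [← Polynomial.X_mul_divX_add q]
      rw [map_add, map_mul, Polynomial.aeval_X, Polynomial.aeval_C, add_comm]
      rfl
    have h3 : Polynomial.aeval z p = z ^ (p.rootMultiplicity 0) * Polynomial.aeval z q := by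
      conv_lhs => rw [hq]
      rw [map_mul, map_pow, map_sub, Polynomial.aeval_X, Polynomial.aeval_C, map_zero, sub_zero]
    change Polynomial.aeval z p = _
    rw [h3, h2]

theorem iter_comm (X : KD K) (m l i : ℕ) (x : K) :
    X.g l ((⇑(X.g m))^[i] x) = (⇑(X.g m))^[i] (X.g l x) := by
  have hcomm : Function.Commute (⇑(X.g l)) (⇑(X.g m)) := by
    rcases le_total l m with h | h
    · obtain ⟨n, rfl⟩ := Nat.exists_eq_add_of_le h
      have : (⇑(X.g l)) = (⇑(X.g (l + n)))^[2 ^ n] := by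
        funext x
        exact (X.g_iter l n x).symm
      rw [this]
      exact Function.Commute.iterate_left (Function.Commute.refl _) _
    · obtain ⟨n, rfl⟩ := Nat.exists_eq_add_of_le h
      have : (⇑(X.g m)) = (⇑(X.g (m + n)))^[2 ^ n] := by
        funext x
        exact (X.g_iter m n x).symm
      rw [this]
      exact Function.Commute.iterate_right (Function.Commute.refl _) _
  exact (hcomm.iterate_right i) x

theorem iter_fix (X : KD K) (m i : ℕ) (x : K) (hx : x ∈ X.Z m) : (⇑(X.g m))^[i] x = x := by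
  induction i with
  | zero => rfl
  | succ i ih => rw [Function.iterate_succ_apply', ih, (X.mem_Z m x).1 hx]

variable {R : Subring D} {m0 : ℕ}

theorem F_le_V (B : Big Y R m0) (l : ℕ) : ∀ c ∈ X.F, c ∈ Y.V R l := by
  intro c hc
  exact ⟨B.hF c hc, X.F_le_Z l hc⟩

theorem V_anti (B : Big Y R m0) {l l' : ℕ} (h : l ≤ l') : ∀ x ∈ Y.V R l', x ∈ Y.V R l := by
  intro x hx
  exact ⟨hx.1, X.Z_anti' h hx.2⟩

/-- every element of `D_l` is `s⁻¹ r` -/
theorem denom (B : Big Y R m0) (l : ℕ) (hl : m0 ≤ l) (d : D) (hd : d ∈ Y.Dm l) :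
    ∃ s ∈ Y.V R l, s ≠ 0 ∧ Y.ι s * d ∈ R := by
  have h := B.hs l hl d hd
  rw [DD.span] at h
  clear hd
  induction h using AddSubgroup.closure_induction with
  | mem x hx =>
    obtain ⟨z, hz, r, hr, _, rfl⟩ := hx
    obtain ⟨a, ha, b, hb, hb0, hab⟩ := B.Pf_eq l hl z (X.Z_anti l hz)
    refine ⟨b, hb, hb0, ?_⟩
    rw [← mul_assoc, ← map_mul, hab, mul_div_cancel₀ _ hb0]
    exact R.mul_mem ha.1 hr
  | zero => exact ⟨1, (Y.V R l).one_mem, one_ne_zero, by simp [R.zero_mem]⟩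
  | add x y _ _ hx hy =>
    obtain ⟨s, hs, hs0, hx⟩ := hx
    obtain ⟨t, ht, ht0, hy⟩ := hy
    refine ⟨s * t, (Y.V R l).mul_mem hs ht, mul_ne_zero hs0 ht0, ?_⟩
    have h1 : Y.ι (s * t) * (x + y) = Y.ι t * (Y.ι s * x) + Y.ι s * (Y.ι t * y) := by
      rw [mul_add, ← mul_assoc, ← mul_assoc, ← map_mul, ← map_mul, mul_comm t s]
    rw [h1]
    exact R.add_mem (R.mul_mem ht.1 hx) (R.mul_mem hs.1 hy)
  | neg x _ hx =>
    obtain ⟨s, hs, hs0, hx⟩ := hx
    refine ⟨s, hs, hs0, ?_⟩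
    rw [mul_neg]
    exact R.neg_mem hx

/-- (1): `g_m^i z` is almost integral over `V_l` -/
theorem CI_g (B : Big Y R m0) (l : ℕ) (hl : m0 ≤ l) (m i : ℕ) (z : K) (hz : z ∈ Y.V R l) :
    CI (Y.V R l) ((⇑(X.g m))^[i] z) := by
  set l' := max l m with hl'
  have hll' : l ≤ l' := le_max_left _ _
  have hml' : m ≤ l' := le_max_right _ _
  have hu : Y.u m ^ i ∈ Y.Dm l' := Y.Dm_mono hml' ((Y.Dm m).pow_mem (Y.u_mem_Dm m) i)
  have hu' : (Y.u m ^ i)⁻¹ ∈ Y.Dm l' := Y.inv_mem_Dm l' _ hu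
  obtain ⟨s, hs, hs0, h1⟩ := denom B l' (hl.trans hll') _ hu
  obtain ⟨t, ht, ht0, h2⟩ := denom B l' (hl.trans hll') _ hu'
  have hu0 : Y.u m ^ i ≠ 0 := pow_ne_zero _ (Y.u_ne m)
  have hsl := V_anti B hll' s hs
  have htl := V_anti B hll' t ht
  refine ⟨s * t, (Y.V R l).mul_mem hsl htl, mul_ne_zero hs0 ht0, fun n => ?_⟩
  have hzn : z ^ n ∈ Y.V R l := (Y.V R l).pow_mem hz n
  have hgn : ((⇑(X.g m))^[i] z) ^ n = (⇑(X.g m))^[i] (z ^ n) := by
    have : (⇑(X.g m))^[i] = ⇑((X.g m : K →+* K) ^ i) := by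
      rw [RingHom.coe_pow]
      rfl
    rw [this, map_pow]
  rw [hgn]
  set y := z ^ n with hy
  constructor
  · -- membership in R
    change Y.ι (s * t * (⇑(X.g m))^[i] y) ∈ R
    have h3 : Y.ι (s * t * (⇑(X.g m))^[i] y) =
        (Y.ι s * Y.u m ^ i) * Y.ι y * (Y.ι t * (Y.u m ^ i)⁻¹) := by
      have h4 : Y.u m ^ i * Y.ι y = Y.ι ((⇑(X.g m))^[i] y) * Y.u m ^ i := Y.u_pow_mul m i y
      have h5 : Y.u m ^ i * Y.ι t = Y.ι t * Y.u m ^ i := by
        rw [Y.u_pow_mul m i t, iter_fix X m i t (X.Z_anti' hml' ht.2)]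
      calc Y.ι (s * t * (⇑(X.g m))^[i] y)
          = Y.ι s * Y.ι ((⇑(X.g m))^[i] y) * Y.ι t := by
            rw [← map_mul, ← map_mul]; congr 1; ring
        _ = Y.ι s * Y.ι ((⇑(X.g m))^[i] y) * (Y.ι t * (Y.u m ^ i * (Y.u m ^ i)⁻¹)) := by
            rw [mul_inv_cancel₀ hu0, mul_one]
        _ = Y.ι s * (Y.ι ((⇑(X.g m))^[i] y) * (Y.ι t * Y.u m ^ i) * (Y.u m ^ i)⁻¹) := by
            simp only [mul_assoc]
        _ = Y.ι s * (Y.ι ((⇑(X.g m))^[i] y) * (Y.u m ^ i * Y.ι t) * (Y.u m ^ i)⁻¹) := by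
            rw [h5]
        _ = Y.ι s * ((Y.ι ((⇑(X.g m))^[i] y) * Y.u m ^ i) * Y.ι t * (Y.u m ^ i)⁻¹) := by
            simp only [mul_assoc]
        _ = Y.ι s * ((Y.u m ^ i * Y.ι y) * Y.ι t * (Y.u m ^ i)⁻¹) := by rw [h4]
        _ = _ := by simp only [mul_assoc]
    rw [h3]
    exact R.mul_mem (R.mul_mem h1 hzn.1) h2
  · refine (X.Z l).mul_mem ((X.Z l).mul_mem hsl.2 htl.2) ?_
    rw [X.mem_Z, iter_comm, (X.mem_Z l y).1 hzn.2]

theorem inv_mem_V (B : Big Y R m0) (l : ℕ) (hl : m0 ≤ l) (z : K) (hz : z ∈ Y.V R l)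
    (h0 : z ≠ 0) : z⁻¹ ∈ Y.V R l := by
  by_cases hzF : z ∈ X.F
  · exact F_le_V B l _ (X.F.inv_mem hzF)
  set V := Y.V R l with hV
  have hFV : ∀ c ∈ X.F, c ∈ V := F_le_V B l
  -- z⁻¹ is almost integral
  have h1 : CI V z⁻¹ := by
    refine CI_of_adjoin X.F V hFV _ ?_ _ (X.N z h0)
    rintro x ⟨m, i, rfl⟩
    exact CI_g B l hl m i z hz
  obtain ⟨δ, hδ, hδ0, hn⟩ := h1
  -- δ is algebraic over F_k(z)
  obtain ⟨k1, hk1⟩ := X.Kf_exh z
  obtain ⟨k2, hk2⟩ := X.Kf_exh δ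
  set k := max k1 k2 with hk
  have hzk : z ∈ X.Kf k := X.Kf_mono' (le_max_left _ _) hk1
  have hδk : δ ∈ X.Kf k := X.Kf_mono' (le_max_right _ _) hk2
  have halg := X.F2 k z hzk hzF δ hδk
  set E := Subfield.closure (((X.F : Set K) ∩ (X.Kf k : Set K)) ∪ {z}) with hE
  have hE' : ∀ x ∈ E, ∃ a ∈ Algebra.adjoin X.F {z}, ∃ b ∈ Algebra.adjoin X.F {z},
      b ≠ 0 ∧ x = a / b := by
    have hsub : ∀ x ∈ Subring.closure (((X.F : Set K) ∩ (X.Kf k : Set K)) ∪ {z}),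
        x ∈ Algebra.adjoin X.F {z} := by
      intro x hx
      have : Subring.closure (((X.F : Set K) ∩ (X.Kf k : Set K)) ∪ {z}) ≤
          (Algebra.adjoin X.F {z}).toSubring := by
        rw [Subring.closure_le]
        rintro y (hy | hy)
        · exact (Algebra.adjoin X.F {z}).algebraMap_mem ⟨y, hy.1⟩
        · rw [Set.mem_singleton_iff.1 hy]
          exact Algebra.subset_adjoin rfl
      exact this hx
    intro x hx
    rw [hE, Subfield.mem_closure_iff] at hx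
    obtain ⟨a, ha, b, hb, rfl⟩ := hx
    by_cases hb0 : b = 0
    · refine ⟨0, Subalgebra.zero_mem _, 1, Subalgebra.one_mem _, one_ne_zero, ?_⟩
      rw [hb0]
      simp
    · exact ⟨a, hsub a ha, b, hsub b hb, hb0, rfl⟩
  obtain ⟨h, hh, hh0, hv⟩ := loc_inv X.F V hFV z hz E hE' δ hδ hδ0 halg
  obtain ⟨r, c, q, hc, hc0, hq, hrc⟩ := poly_form X.F z h hh hh0
  have hqV : q ∈ V := by
    have : ∀ x ∈ Algebra.adjoin X.F {z}, x ∈ V := by
      intro x hx
      induction hx using Algebra.adjoin_induction with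
      | mem x hx => rw [Set.mem_singleton_iff.1 hx]; exact hz
      | algebraMap c => exact hFV c c.2
      | add x y _ _ hx hy => exact V.add_mem hx hy
      | mul x y _ _ hx hy => exact V.mul_mem hx hy
    exact this q hq
  have h2 : h * (z⁻¹) ^ (r + 1) ∈ V := by
    have : h * (z⁻¹) ^ (r + 1) = (h * δ⁻¹) * (δ * (z⁻¹) ^ (r + 1)) := by
      field_simp
    rw [this]
    exact V.mul_mem hv (hn _)
  have h3 : h * (z⁻¹) ^ (r + 1) = c * z⁻¹ + q := by
    rw [hrc, pow_succ, inv_pow]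
    have hzr : z ^ r ≠ 0 := pow_ne_zero _ h0
    field_simp
  rw [h3] at h2
  have h4 : c * z⁻¹ ∈ V := by
    have := V.sub_mem h2 hqV
    rwa [add_sub_cancel_right] at this
  have h5 := V.mul_mem (hFV _ (X.F.inv_mem hc)) h4
  rwa [inv_mul_cancel_left₀ hc0] at h5

theorem Z_le_V (B : Big Y R m0) (l : ℕ) (hl : m0 ≤ l) (z : K) (hz : z ∈ X.Z l) : z ∈ Y.V R l := by
  obtain ⟨a, ha, b, hb, hb0, rfl⟩ := B.Pf_eq l hl z hz
  rw [div_eq_mul_inv]
  exact (Y.V R l).mul_mem ha (inv_mem_V B l hl b hb hb0)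

end C5aux

theorem Big.eq_top {R : Subring D} {m0 : ℕ} (B : Big Y R m0) : ∀ d : D, d ∈ R := by
  intro d
  obtain ⟨m, hm⟩ := Y.exists_DK d
  set l := max m m0 with hl
  have hd : d ∈ Y.Dm l := Y.Dm_mono (le_max_left _ _) (Y.DK_le_Dm m hm)
  have h := B.hs l (le_max_right _ _) d hd
  rw [DD.span] at h
  have hle : AddSubgroup.closure {d | ∃ z ∈ X.Z (l + 1), ∃ r ∈ R, r ∈ Y.Dm l ∧ d = Y.ι z * r} ≤
      R.toAddSubgroup := by
    rw [AddSubgroup.closure_le]
    rintro x ⟨z, hz, r, hr, _, rfl⟩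
    exact R.mul_mem (C5aux.Z_le_V B l (le_max_right _ _) z (X.Z_anti l hz)).1 hr
  exact hle h

end Pool.Agent.Helper91.DV
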