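import Pool.Agent.Helper91.DV.C6Core
import Pool.Agent.Helper91.DV.C0D
import Pool.Agent.Helper91.DV.C1
import Pool.Agent.Helper91.DV.C3C
import Pool.Agent.Helper91.DV.C5

set_option autoImplicit false
open Finset
namespace Pool.Agent.Helper91.DV

variable {K : Type} [Field K] [CharZero K] {X : KD K} {D : Type} [DivisionRing D] (Y : DD X D)

theorem DD.pi (m : ℕ) : letI := Y.algF
    ∃ n : ℕ, ∃ f : FreeAlgebra X.F (Fin n), f ≠ 0 ∧
      ∀ a : Fin n → D, (∀ i, a i ∈ Y.Dm m) → FreeAlgebra.lift X.F a f = 0 :=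
  C6.pi_core Y m

theorem main_of_DD (Y : DD X D) :
    ∃ (F : Type) (D : Type) (_ : Field F) (_ : DivisionRing D) (_ : Algebra F D),
      Subalgebra.center F D ≤ ⊥ ∧ ¬ FiniteDimensional F D ∧
      ∀ A : Subalgebra F D, A ≠ ⊤ →
        ∃ n : ℕ, ∃ f : FreeAlgebra F (Fin n), f ≠ 0 ∧
          ∀ a : Fin n → A, FreeAlgebra.lift F a f = 0 :=
  C6.main_core Y (fun d h => Y.center_eq d h) (fun m => inferInstance)
    (fun y p hp hpF h => Y.alg_F y p hp hpF h)
    (fun R hRF hR => by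
      obtain ⟨m0, B⟩ := Y.exists_Big R hRF hR
      exact B.eq_top)

end Pool.Agent.Helper91.DV
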