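import Pool.Agent.Helper91.DV.Defs2

set_option autoImplicit false
open Finset
namespace Pool.Agent.Helper91.DV

namespace C6

open Equiv

/-- the standard polynomial -/
noncomputable def std (R : Type*) [CommRing R] (n : ℕ) : FreeAlgebra R (Fin n) :=
  ∑ σ : Perm (Fin n), ((Perm.sign σ : ℤ)) • (List.ofFn (fun i => FreeAlgebra.ι R (σ i))).prod

theorem std_eval {R A : Type*} [CommRing R] [Ring A] [Algebra R A] {n : ℕ} (a : Fin n → A) :
    FreeAlgebra.lift R a (std R n) =
      ∑ σ : Perm (Fin n), ((Perm.sign σ : ℤ)) • (List.ofFn (fun i => a (σ i))).prod := by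
  unfold std
  rw [map_sum]
  refine Finset.sum_congr rfl fun σ _ => ?_
  rw [map_zsmul, map_list_prod, List.map_ofFn]
  congr 2
  congr 1
  funext i
  simp

theorem std_ne (R : Type*) [CommRing R] [Nontrivial R] (n : ℕ) : std R n ≠ 0 := by
  classical
  intro h
  have h2 := std_eval (R := R) (fun i : Fin n => MonoidAlgebra.of R (FreeMonoid (Fin n)) (FreeMonoid.of i))
  rw [h, map_zero] at h2
  have key : ∀ σ : Perm (Fin n), (List.ofFn (fun i : Fin n => MonoidAlgebra.of R (FreeMonoid (Fin n))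
      (FreeMonoid.of (σ i)))).prod = MonoidAlgebra.of R (FreeMonoid (Fin n))
        (FreeMonoid.ofList (List.ofFn (fun i : Fin n => σ i))) := by
    intro σ
    have this : ∀ l : List (Fin n), (l.map (fun b => MonoidAlgebra.of R (FreeMonoid (Fin n))
        (FreeMonoid.of b))).prod = MonoidAlgebra.of R (FreeMonoid (Fin n)) (FreeMonoid.ofList l) := by
      intro l
      induction l with
      | nil => rw [List.map_nil, List.prod_nil, FreeMonoid.ofList_nil, map_one]
      | cons b l ih => rw [List.map_cons, List.prod_cons, ih, FreeMonoid.ofList_cons, map_mul]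
    have h4 := this (List.ofFn (fun i : Fin n => σ i))
    rw [List.map_ofFn] at h4
    exact h4
  simp_rw [key] at h2
  have h3 := congrArg (fun (x : MonoidAlgebra R (FreeMonoid (Fin n))) =>
    x.coeff (FreeMonoid.ofList (List.ofFn (fun i : Fin n => i)))) h2
  simp only [MonoidAlgebra.coeff_zero, MonoidAlgebra.coeff_sum] at h3
  rw [Finsupp.finsetSum_apply, Finset.sum_eq_single (1 : Perm (Fin n))] at h3
  · simp at h3
  · intro σ _ hσ
    have hne : FreeMonoid.ofList (List.ofFn (fun i : Fin n => σ i)) ≠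
        FreeMonoid.ofList (List.ofFn (fun i : Fin n => i)) := by
      intro he
      apply hσ
      have := List.ofFn_injective (FreeMonoid.ofList.injective he)
      ext i
      exact congrArg Fin.val (congrFun this i)
    rw [MonoidAlgebra.of_apply]
    simp [hne]
  · intro h; exact absurd (Finset.mem_univ _) h

theorem std_vanish {Z A : Type*} [Field Z] [Ring A] [Algebra Z A] [FiniteDimensional Z A]
    (a : Fin (Module.finrank Z A + 1) → A) :
    ∑ σ : Perm (Fin (Module.finrank Z A + 1)), ((Perm.sign σ : ℤ)) •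
      (List.ofFn (fun i => a (σ i))).prod = 0 := by
  have h := AlternatingMap.map_linearDependent
    (MultilinearMap.alternatization (MultilinearMap.mkPiAlgebraFin Z (Module.finrank Z A + 1) A)) a ?_
  · rw [MultilinearMap.alternatization_apply] at h
    rw [← h]
    refine Finset.sum_congr rfl fun σ _ => ?_
    simp [Units.smul_def]
  · intro hli
    have := hli.fintype_card_le_finrank
    simp at this

end C6

variable {K : Type} [Field K] [CharZero K] {X : KD K} {D : Type} [DivisionRing D] (Y : DD X D)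

theorem C6.pi_core (m : ℕ) [FiniteDimensional (X.Z m) (Y.Dm m)] : letI := Y.algF
    ∃ n : ℕ, ∃ f : FreeAlgebra X.F (Fin n), f ≠ 0 ∧
      ∀ a : Fin n → D, (∀ i, a i ∈ Y.Dm m) → FreeAlgebra.lift X.F a f = 0 := by
  let _ := Y.algF
  refine ⟨Module.finrank (X.Z m) (Y.Dm m) + 1, C6.std X.F _, C6.std_ne _ _, ?_⟩
  intro a ha
  rw [C6.std_eval]
  have h := C6.std_vanish (Z := X.Z m) (A := Y.Dm m) (fun i => ⟨a i, ha i⟩)
  have h2 := congrArg (Y.Dm m).subtype h
  rw [map_sum, map_zero] at h2
  rw [← h2]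
  refine Finset.sum_congr rfl fun σ _ => ?_
  rw [map_zsmul, map_list_prod, List.map_ofFn]
  rfl

theorem C6.main_core (Y : DD X D)
    (hcen : ∀ d : D, (∀ x : D, d * x = x * d) → ∃ c ∈ X.F, d = Y.ι c)
    (hfdm : ∀ m, FiniteDimensional (X.Z m) (Y.Dm m))
    (halg : ∀ (y : D) (p : Polynomial K), p ≠ 0 → (∀ i, p.coeff i ∈ X.F) →
      p.eval₂ Y.ι y = 0 → ∃ c ∈ X.F, y = Y.ι c)
    (hbig : ∀ R : Subring D, (∀ c ∈ X.F, Y.ι c ∈ R) → (∀ m, ∃ r ∈ R, r ∉ Y.Dm m) → ∀ d : D, d ∈ R) :
    ∃ (F : Type) (D : Type) (_ : Field F) (_ : DivisionRing D) (_ : Algebra F D),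
      Subalgebra.center F D ≤ ⊥ ∧ ¬ FiniteDimensional F D ∧
      ∀ A : Subalgebra F D, A ≠ ⊤ →
        ∃ n : ℕ, ∃ f : FreeAlgebra F (Fin n), f ≠ 0 ∧
          ∀ a : Fin n → A, FreeAlgebra.lift F a f = 0 := by
  let _ := Y.algF
  refine ⟨X.F, D, inferInstance, inferInstance, Y.algF, ?_, ?_, ?_⟩
  · intro d hd
    rw [Subalgebra.mem_center_iff] at hd
    obtain ⟨c, hc, rfl⟩ := hcen d (fun x => (hd x).symm)
    exact ⟨⟨c, hc⟩, rfl⟩
  · intro hfd
    have hint : IsIntegral X.F (Y.ι (X.a 0)) := Algebra.IsIntegral.isIntegral _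
    obtain ⟨p, hp, hp0⟩ := hint
    obtain ⟨c, hc, hc2⟩ := halg (Y.ι (X.a 0)) (p.map X.F.subtype)
      ((hp.map _).ne_zero) (fun i => by rw [Polynomial.coeff_map]; exact (p.coeff i).2) (by
        rw [Polynomial.eval₂_map]
        exact hp0)
    have hc3 : X.a 0 = c := Y.ι.injective hc2
    have hv := X.v_a 0
    by_cases h0 : c = 0
    · rw [hc3, h0, X.v.map_zero] at hv
      exact absurd hv (by simp)
    obtain ⟨n, hn⟩ := X.v_F c hc h0
    rw [hc3, hn] at hv
    have hv2 : ((2 * (n : ℚ) : ℚ) : WithTop ℚ) = ((1 : ℚ) : WithTop ℚ) := hv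
    have hv3 : (2 * (n : ℚ) : ℚ) = 1 := WithTop.coe_injective hv2
    have hv4 : 2 * n = 1 := by exact_mod_cast hv3
    omega
  · intro A hA
    by_cases h : ∃ m, ∀ r ∈ A, r ∈ Y.Dm m
    · obtain ⟨m, hm⟩ := h
      have := hfdm m
      obtain ⟨n, f, hf, hfa⟩ := C6.pi_core Y m
      refine ⟨n, f, hf, ?_⟩
      intro a
      have h1 := hfa (fun i => (a i : D)) (fun i => hm _ (a i).2)
      apply Subtype.ext
      have h2 : A.val (FreeAlgebra.lift X.F a f) = FreeAlgebra.lift X.F (fun i => (a i : D)) f := by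
        have : (A.val.comp (FreeAlgebra.lift X.F a)) = FreeAlgebra.lift X.F (fun i => (a i : D)) := by
          apply FreeAlgebra.hom_ext
          funext i
          simp
        rw [← this]
        rfl
      exact h2.trans h1
    · exfalso
      push Not at h
      apply hA
      rw [eq_top_iff]
      intro d _
      exact hbig A.toSubring (fun c hc => A.algebraMap_mem ⟨c, hc⟩) h d

end Pool.Agent.Helper91.DV
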